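import Pool.Agent.Helper12.SN.Defs

set_option autoImplicit false
set_option linter.unusedSectionVars false

/-!
# SB-N-03: the coefficients `cf d r` as the coefficients of a polynomial

`gg r = ∑ j, r_j(X ^ ℓ) X ^ (wt j)`, `wt 0 = 0`, `wt j = ℓ + j.val` for `j ≠ 0`.

`gg_coeff`: the coefficient of `expand A ℓ p * X ^ m` at `d` is `0` if `d < m` or `¬ ℓ ∣ d - m`, and
`p.coeff ((d - m) / ℓ)` otherwise (`Polynomial.coeff_mul_X_pow'`, `Polynomial.coeff_expand`).
`ℓ ∣ d - wt j` with `wt j ≤ d` means `(d : ZMod ℓ) = j` (because `(wt j : ZMod ℓ) = j`), so only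
`j = (d : ZMod ℓ)` contributes to the sum over `j`.  If `(d : ZMod ℓ) = 0`: the term is
`(r 0).coeff (d / ℓ)`.  Otherwise, `j.val = d % ℓ` (`ZMod.val_natCast`), `d = ℓ (d / ℓ) + j.val`,
and `wt j ≤ d` iff `1 ≤ d / ℓ` iff `ℓ ≤ d`; then `(d - ℓ - j.val) / ℓ = d / ℓ - 1`.
`cf_add`, `cf_con_mul`: from the definition of `cf` (or from `gg_coeff`);
`(con a * r) j = C a * r j` since `con a * r = C a • r` (`Algebra.smul_def`).
`cf_fin`: `gg_coeff` and finiteness of the support of a polynomial.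
`cf_ext`: for `j = 0`: `(r 0).coeff n = cf (ℓ * n) r`; for `j ≠ 0`:
`(r j).coeff n = cf (ℓ * (n + 1) + j.val) r`.
-/

open Polynomial

namespace Pool.Agent.Helper12.SN

variable {ℓ : ℕ} [NeZero ℓ] {A : Type} [CommRing A] {c : Fin 3 → A}

/-- the degree of `u_j` -/
def wt (j : ZMod ℓ) : ℕ := if j = 0 then 0 else ℓ + j.val

/-- the polynomial with coefficients `cf d r` -/
noncomputable def gg (r : RR ℓ c) : A[X] := ∑ j : ZMod ℓ, expand A ℓ (r j) * X ^ wt j

private theorem Cf_wt_cast (j : ZMod ℓ) : ((wt j : ℕ) : ZMod ℓ) = j := by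
  unfold wt
  split_ifs with h
  · rw [h, Nat.cast_zero]
  · rw [Nat.cast_add, ZMod.natCast_self, zero_add, ZMod.natCast_zmod_val]

theorem gg_coeff (r : RR ℓ c) (d : ℕ) : (gg r).coeff d = cf d r := by
  have hℓ : 0 < ℓ := Nat.pos_of_ne_zero (NeZero.ne ℓ)
  have hterm : ∀ j : ZMod ℓ, (expand A ℓ (r j) * X ^ wt j).coeff d =
      if wt j ≤ d then (if ℓ ∣ d - wt j then (r j).coeff ((d - wt j) / ℓ) else 0) else 0 := by
    intro j
    rw [coeff_mul_X_pow', coeff_expand hℓ]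
  unfold gg
  rw [finsetSum_coeff, Finset.sum_eq_single (d : ZMod ℓ)]
  · rw [hterm]
    unfold cf
    by_cases h0 : (d : ZMod ℓ) = 0
    · have h1 : ℓ ∣ d := (ZMod.natCast_eq_zero_iff d ℓ).1 h0
      rw [if_pos h0, h0]
      have h2 : wt (0 : ZMod ℓ) = 0 := if_pos rfl
      rw [h2, if_pos (Nat.zero_le d), Nat.sub_zero, if_pos h1]
    · rw [if_neg h0]
      have h2 : wt (d : ZMod ℓ) = ℓ + d % ℓ := by
        unfold wt
        rw [if_neg h0, ZMod.val_natCast]
      rw [h2]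
      have h3 := Nat.div_add_mod d ℓ
      by_cases h4 : d < ℓ
      · rw [if_pos h4, if_neg (by omega)]
      · rw [if_neg h4]
        have h5 : 1 ≤ d / ℓ := (Nat.one_le_div_iff hℓ).2 (not_lt.1 h4)
        have h7 : d - (ℓ + d % ℓ) = ℓ * (d / ℓ - 1) := by
          rw [Nat.mul_sub, mul_one]
          omega
        have h8 : ℓ * 1 ≤ ℓ * (d / ℓ) := Nat.mul_le_mul_left ℓ h5
        rw [if_pos (by omega), h7, if_pos (Dvd.intro _ rfl), Nat.mul_div_cancel_left _ hℓ]
  · intro j _ hj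
    rw [hterm]
    split_ifs with h1 h2
    · exfalso
      apply hj
      have h3 : ((d - wt j : ℕ) : ZMod ℓ) = 0 := (ZMod.natCast_eq_zero_iff _ ℓ).2 h2
      rw [Nat.cast_sub h1, Cf_wt_cast, sub_eq_zero] at h3
      exact h3.symm
    · rfl
    · rfl
  · intro h
    exact absurd (Finset.mem_univ _) h

theorem cf_add (d : ℕ) (r s : RR ℓ c) : cf d (r + s) = cf d r + cf d s := by
  unfold cf
  split_ifs
  · rw [add_ap, coeff_add]
  · rw [add_zero]
  · rw [add_ap, coeff_add]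

private theorem Cf_con_mul_ap (a : A) (r : RR ℓ c) (j : ZMod ℓ) :
    ((con a * r : RR ℓ c) : ZMod ℓ → A[X]) j = C a * r j := by
  have h1 : (con a * r : RR ℓ c) = (C a : A[X]) • r := (Algebra.smul_def (C a : A[X]) r).symm
  rw [h1, smul_ap]

theorem cf_con_mul (d : ℕ) (a : A) (r : RR ℓ c) : cf d (con a * r) = a * cf d r := by
  unfold cf
  split_ifs
  · rw [Cf_con_mul_ap, coeff_C_mul]
  · rw [mul_zero]
  · rw [Cf_con_mul_ap, coeff_C_mul]

/-- only finitely many coefficients are nonzero -/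
theorem cf_fin (r : RR ℓ c) : {d | cf d r ≠ 0}.Finite := by
  refine (gg r).support.finite_toSet.subset ?_
  intro d hd
  have hd : cf d r ≠ 0 := hd
  rw [← gg_coeff] at hd
  exact mem_support_iff.2 hd

theorem cf_ext {r s : RR ℓ c} (h : ∀ d, cf d r = cf d s) : r = s := by
  have hℓ : 0 < ℓ := Nat.pos_of_ne_zero (NeZero.ne ℓ)
  ext1 j
  ext n
  by_cases hj : j = 0
  · have h1 : ∀ t : RR ℓ c, cf (ℓ * n) t = (t 0).coeff n := by
      intro t
      unfold cf
      rw [if_pos (by rw [Nat.cast_mul, ZMod.natCast_self, zero_mul]),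
        Nat.mul_div_cancel_left _ hℓ]
    have h2 := h (ℓ * n)
    rw [h1, h1] at h2
    rw [hj]
    exact h2
  · have hc : ((ℓ * (n + 1) + j.val : ℕ) : ZMod ℓ) = j := by
      rw [Nat.cast_add, Nat.cast_mul, ZMod.natCast_self, zero_mul, zero_add,
        ZMod.natCast_zmod_val]
    have h1 : ∀ t : RR ℓ c, cf (ℓ * (n + 1) + j.val) t = (t j).coeff n := by
      intro t
      unfold cf
      rw [hc, if_neg hj, if_neg (by rw [Nat.mul_succ]; omega), Nat.mul_add_div hℓ,
        Nat.div_eq_of_lt (ZMod.val_lt j), add_zero, Nat.add_sub_cancel]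
    have h2 := h (ℓ * (n + 1) + j.val)
    rw [h1, h1] at h2
    exact h2

end Pool.Agent.Helper12.SN
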