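import Pool.Agent.Helper12.SN.Cf

set_option autoImplicit false
set_option linter.unusedSectionVars false

/-!
# SB-N-04: leading terms multiply

With `gg` of Cf.lean (`(gg r).coeff n = cf n r`): the hypothesis says `(gg r).natDegree ≤ d`,
`(gg s).natDegree ≤ e`.

(1) For all `i j`: `D i j := expand A ℓ (tau i j) * X ^ wt (i + j) - X ^ (wt i + wt j)` has
degree `< wt i + wt j` (`degree (D i j) < (wt i + wt j : ℕ)`; if `A` is trivial everything is `0`,
so assume `Nontrivial A`).  If `i = 0` or `j = 0`, `D i j = 0`.  Otherwise with `a = i.val`,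
`b = j.val` (`wt i + wt j = 2 ℓ + a + b`): `a + b < ℓ`: `expand (al) X ^ (ℓ + a + b)
= (X ^ ℓ - C (c 1)) X ^ (ℓ + a + b)`; `a + b = ℓ`: `i + j = 0`,
`expand (al * be) = (X ^ ℓ - C _) (X ^ ℓ - C _) (X ^ ℓ - C _)`, `3 ℓ = 2 ℓ + a + b`; `a + b > ℓ`:
`(X ^ ℓ - C _) (X ^ ℓ - C _) X ^ (a + b)`, `2 ℓ + a + b`.  In all cases the first term is a monic
polynomial of degree `wt i + wt j`, and `P - X ^ n` has degree `< n` for `P` monic of degree `n`
(`Polynomial.degree_sub_lt`).
(2) `gg (r * s) - gg r * gg s = ∑ i, ∑ j, expand (r i) * expand (s j) * D i j`: expand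
`gg (r * s) = ∑ k, ∑ i, expand (tau i (k - i) * (r i * s (k - i))) * X ^ wt k`, swap, `k = i + j`.
(3) Every `i` satisfies `degree (expand A ℓ (r i)) + wt i ≤ d` if `r i ≠ 0` (all coefficients of
`r i` are values of `cf`: `(r i).coeff n = cf (ℓ * n + wt i) r`, a consequence of the definition of
`cf`, see the proof of `cf_ext`).  So each term of (2) has degree `< d + e`; hence
`cf n (r * s) = (gg r * gg s).coeff n` for `n ≥ d + e`.
(4) `(gg r * gg s).coeff (d + e) = (gg r).coeff d * (gg s).coeff e`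
(`Polynomial.coeff_mul_add_eq_of_natDegree_le` or `coeff_mul_of_natDegree_le`) and the coefficients
above `d + e` vanish (`natDegree_mul_le`).
-/

open Polynomial

namespace Pool.Agent.Helper12.SN

variable {ℓ : ℕ} [NeZero ℓ] {A : Type} [CommRing A] {c : Fin 3 → A}

private theorem cfm_at (r : RR ℓ c) (i : ZMod ℓ) (n : ℕ) :
    cf (ℓ * n + wt i) r = (r i).coeff n := by
  have hl : 0 < ℓ := Nat.pos_of_ne_zero (NeZero.ne ℓ)
  unfold wt
  by_cases hi : i = 0
  · subst hi
    rw [if_pos rfl, add_zero]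
    unfold cf
    rw [if_pos (by simp), Nat.mul_div_cancel_left _ hl]
  · rw [if_neg hi]
    have hc : ((ℓ * n + (ℓ + i.val) : ℕ) : ZMod ℓ) = i := by
      push_cast
      rw [ZMod.natCast_self, zero_mul, zero_add, zero_add, ZMod.natCast_zmod_val]
    unfold cf
    rw [if_neg (by rw [hc]; exact hi), if_neg (by omega), hc]
    congr 1
    have h1 : (ℓ * n + (ℓ + i.val)) / ℓ = n + 1 := by
      have h2 : ℓ * n + (ℓ + i.val) = i.val + ℓ * (n + 1) := by ring
      rw [h2, Nat.add_mul_div_left _ _ hl, Nat.div_eq_of_lt (ZMod.val_lt i), zero_add]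
    rw [h1, Nat.add_sub_cancel]

private theorem cfm_monic [Nontrivial A] (i j : ZMod ℓ) :
    (expand A ℓ (tau ℓ c i j) * X ^ wt (i + j)).Monic ∧
      (expand A ℓ (tau ℓ c i j) * X ^ wt (i + j)).natDegree = wt i + wt j := by
  have hl : 0 < ℓ := Nat.pos_of_ne_zero (NeZero.ne ℓ)
  have hXm : ∀ a : A, (X ^ ℓ - C a : A[X]).Monic := fun a => monic_X_pow_sub_C a hl.ne'
  have hXd : ∀ a : A, (X ^ ℓ - C a : A[X]).natDegree = ℓ := fun a => natDegree_X_pow_sub_C
  have hal : expand A ℓ (al c) = X ^ ℓ - C (c 1) := by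
    unfold al
    simp
  have hbe : expand A ℓ (be c) = (X ^ ℓ - C (c 0)) * (X ^ ℓ - C (c 2)) := by
    unfold be
    simp
  have halm : (expand A ℓ (al c)).Monic := by rw [hal]; exact hXm _
  have hald : (expand A ℓ (al c)).natDegree = ℓ := by rw [hal]; exact hXd _
  have hbem : (expand A ℓ (be c)).Monic := by rw [hbe]; exact (hXm _).mul (hXm _)
  have hbed : (expand A ℓ (be c)).natDegree = ℓ + ℓ := by
    rw [hbe, (hXm _).natDegree_mul (hXm _), hXd, hXd]
  have hpm : ∀ n : ℕ, (X ^ n : A[X]).Monic := fun n => monic_X_pow n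
  by_cases h0 : i = 0 ∨ j = 0
  · have ht : tau ℓ c i j = 1 := by
      unfold tau
      rw [if_pos h0]
    rw [ht, map_one, one_mul, natDegree_X_pow]
    refine ⟨hpm _, ?_⟩
    rcases h0 with h0 | h0
    · subst h0
      simp [wt]
    · subst h0
      simp [wt]
  · have hi : i ≠ 0 := fun h => h0 (Or.inl h)
    have hj : j ≠ 0 := fun h => h0 (Or.inr h)
    have hwi : wt i = ℓ + i.val := if_neg hi
    have hwj : wt j = ℓ + j.val := if_neg hj
    have hvi := ZMod.val_lt i
    have hvj := ZMod.val_lt j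
    have hvi0 : i.val ≠ 0 := by rwa [ZMod.val_ne_zero]
    have hvj0 : j.val ≠ 0 := by rwa [ZMod.val_ne_zero]
    rcases lt_trichotomy (i.val + j.val) ℓ with h | h | h
    · have ht : tau ℓ c i j = al c := by
        unfold tau
        rw [if_neg h0, if_pos h]
      have hv : (i + j).val = i.val + j.val := ZMod.val_add_of_lt h
      have hij : i + j ≠ 0 := by
        intro h1
        rw [h1, ZMod.val_zero] at hv
        omega
      have hw : wt (i + j) = ℓ + (i.val + j.val) := by
        unfold wt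
        rw [if_neg hij, hv]
      rw [ht, hw]
      refine ⟨halm.mul (hpm _), ?_⟩
      rw [halm.natDegree_mul (hpm _), hald, natDegree_X_pow, hwi, hwj]
      omega
    · have ht : tau ℓ c i j = al c * be c := by
        unfold tau
        rw [if_neg h0, if_neg (by omega), if_pos h]
      have hij : i + j = 0 := by
        rw [← ZMod.val_eq_zero, ZMod.val_add, h, Nat.mod_self]
      have hw : wt (i + j) = 0 := by
        unfold wt
        rw [if_pos hij]
      rw [ht, hw, pow_zero, mul_one, map_mul]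
      refine ⟨halm.mul hbem, ?_⟩
      rw [halm.natDegree_mul hbem, hald, hbed, hwi, hwj]
      omega
    · have ht : tau ℓ c i j = be c := by
        unfold tau
        rw [if_neg h0, if_neg (by omega), if_neg (by omega)]
      have hv : (i + j).val = i.val + j.val - ℓ := by
        rw [ZMod.val_add, Nat.mod_eq_sub_mod h.le, Nat.mod_eq_of_lt (by omega)]
      have hij : i + j ≠ 0 := by
        intro h1
        rw [h1, ZMod.val_zero] at hv
        omega
      have hw : wt (i + j) = i.val + j.val := by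
        unfold wt
        rw [if_neg hij, hv]
        omega
      rw [ht, hw]
      refine ⟨hbem.mul (hpm _), ?_⟩
      rw [hbem.natDegree_mul (hpm _), hbed, natDegree_X_pow, hwi, hwj]
      omega

private theorem cfm_deg [Nontrivial A] (i j : ZMod ℓ) :
    (expand A ℓ (tau ℓ c i j) * X ^ wt (i + j) - X ^ (wt i + wt j) : A[X]).degree <
      ((wt i + wt j : ℕ) : WithBot ℕ) := by
  obtain ⟨hm, hd⟩ := cfm_monic (c := c) i j
  have hdeg : (expand A ℓ (tau ℓ c i j) * X ^ wt (i + j)).degree =
      ((wt i + wt j : ℕ) : WithBot ℕ) := by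
    rw [degree_eq_natDegree hm.ne_zero, hd]
  rw [← hdeg]
  refine degree_sub_lt_left ?_ hm.ne_zero ?_
  · rw [hdeg, degree_X_pow]
  · rw [hm.leadingCoeff, (monic_X_pow _).leadingCoeff]

private theorem cfm_sub (r s : RR ℓ c) : gg (r * s) - gg r * gg s =
    ∑ i : ZMod ℓ, ∑ j : ZMod ℓ, expand A ℓ (r i) * expand A ℓ (s j) *
      (expand A ℓ (tau ℓ c i j) * X ^ wt (i + j) - X ^ (wt i + wt j)) := by
  have h1 : gg (r * s) = ∑ i : ZMod ℓ, ∑ j : ZMod ℓ, expand A ℓ (r i) * expand A ℓ (s j) *
      (expand A ℓ (tau ℓ c i j) * X ^ wt (i + j)) := by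
    unfold gg
    have h2 : ∀ k : ZMod ℓ, expand A ℓ ((r * s) k) * X ^ wt k =
        ∑ i : ZMod ℓ, expand A ℓ (r i) * expand A ℓ (s (k - i)) *
          (expand A ℓ (tau ℓ c i (k - i)) * X ^ wt k) := by
      intro k
      rw [mul_ap, map_sum, Finset.sum_mul]
      refine Finset.sum_congr rfl fun i _ => ?_
      rw [map_mul, map_mul]
      ring
    rw [Finset.sum_congr rfl fun k _ => h2 k, Finset.sum_comm]
    refine Finset.sum_congr rfl fun i _ => ?_
    rw [← Equiv.sum_comp (Equiv.addLeft i)]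
    refine Finset.sum_congr rfl fun j _ => ?_
    simp only [Equiv.coe_addLeft, add_sub_cancel_left]
  have h3 : gg r * gg s = ∑ i : ZMod ℓ, ∑ j : ZMod ℓ, expand A ℓ (r i) * expand A ℓ (s j) *
      X ^ (wt i + wt j) := by
    unfold gg
    rw [Finset.sum_mul_sum]
    refine Finset.sum_congr rfl fun i _ => Finset.sum_congr rfl fun j _ => ?_
    rw [pow_add]
    ring
  rw [h1, h3, ← Finset.sum_sub_distrib]
  refine Finset.sum_congr rfl fun i _ => ?_
  rw [← Finset.sum_sub_distrib]
  refine Finset.sum_congr rfl fun j _ => ?_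
  rw [mul_sub]

private theorem cfm_bound {r : RR ℓ c} {d : ℕ} (hr : ∀ n, d < n → cf n r = 0) (i : ZMod ℓ)
    (hi : r i ≠ 0) : (expand A ℓ (r i)).natDegree + wt i ≤ d := by
  rw [natDegree_expand]
  by_contra hcon
  push Not at hcon
  have h1 := hr _ hcon
  rw [mul_comm, cfm_at, coeff_natDegree, leadingCoeff_eq_zero] at h1
  exact hi h1

private theorem cfm_coeff {r s : RR ℓ c} {d e : ℕ} (hr : ∀ n, d < n → cf n r = 0)
    (hs : ∀ n, e < n → cf n s = 0) (n : ℕ) (hn : d + e ≤ n) :
    cf n (r * s) = (gg r * gg s).coeff n := by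
  nontriviality A
  have h1 : (gg (r * s) - gg r * gg s).coeff n = 0 := by
    rw [cfm_sub, finsetSum_coeff]
    refine Finset.sum_eq_zero fun i _ => ?_
    rw [finsetSum_coeff]
    refine Finset.sum_eq_zero fun j _ => ?_
    by_cases hi : r i = 0
    · rw [hi, map_zero, zero_mul, zero_mul, coeff_zero]
    by_cases hj : s j = 0
    · rw [hj, map_zero, mul_zero, zero_mul, coeff_zero]
    have hbi := cfm_bound hr i hi
    have hbj := cfm_bound hs j hj
    have hD := cfm_deg (c := c) i j
    set D : A[X] := expand A ℓ (tau ℓ c i j) * X ^ wt (i + j) - X ^ (wt i + wt j) with hDdef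
    by_cases hD0 : D = 0
    · rw [hD0, mul_zero, coeff_zero]
    refine coeff_eq_zero_of_natDegree_lt ?_
    have hDn : D.natDegree < wt i + wt j := by
      rw [degree_eq_natDegree hD0] at hD
      exact_mod_cast hD
    have h2 : (expand A ℓ (r i) * expand A ℓ (s j) * D).natDegree ≤
        (expand A ℓ (r i)).natDegree + (expand A ℓ (s j)).natDegree + D.natDegree :=
      (natDegree_mul_le).trans (Nat.add_le_add_right natDegree_mul_le _)
    omega
  rw [coeff_sub, gg_coeff, sub_eq_zero] at h1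
  exact h1

private theorem cfm_nat {r : RR ℓ c} {d : ℕ} (hr : ∀ n, d < n → cf n r = 0) :
    (gg r).natDegree ≤ d := by
  rw [natDegree_le_iff_coeff_eq_zero]
  intro n hn
  rw [gg_coeff]
  exact hr n hn

/-- leading terms multiply -/
theorem cf_mul_top {r s : RR ℓ c} {d e : ℕ} (hr : ∀ n, d < n → cf n r = 0)
    (hs : ∀ n, e < n → cf n s = 0) :
    (∀ n, d + e < n → cf n (r * s) = 0) ∧ cf (d + e) (r * s) = cf d r * cf e s := by
  constructor
  · intro n hn
    rw [cfm_coeff hr hs n hn.le]
    refine coeff_eq_zero_of_natDegree_lt ?_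
    have h1 := cfm_nat hr
    have h2 := cfm_nat hs
    have h3 : (gg r * gg s).natDegree ≤ (gg r).natDegree + (gg s).natDegree := natDegree_mul_le
    omega
  · rw [cfm_coeff hr hs _ le_rfl, coeff_mul_add_eq_of_natDegree_le (cfm_nat hr) (cfm_nat hs),
      gg_coeff, gg_coeff]

end Pool.Agent.Helper12.SN
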