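import Pool.Agent.Helper12.SN.Defs

set_option autoImplicit false
set_option linter.unusedSectionVars false

/-!
# PROJECT SB, block N: language for ideal classes of Dedekind domains
-/

open scoped nonZeroDivisors

namespace Pool.Agent.Helper12.SN

section cls

variable {R : Type} [CommRing R] [IsDedekindDomain R] {S : Type} [CommRing S]
  [IsDedekindDomain S]

open Classical in
/-- the class of an ideal (`1` for the zero ideal) -/
noncomputable def cl (I : Ideal R) : ClassGroup R :=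
  if h : I ≠ ⊥ then ClassGroup.mk0 ⟨I, mem_nonZeroDivisors_of_ne_zero h⟩ else 1

theorem cl_of_ne {I : Ideal R} (h : I ≠ ⊥) :
    cl I = ClassGroup.mk0 ⟨I, mem_nonZeroDivisors_of_ne_zero h⟩ := dif_pos h

theorem cl_mul {I J : Ideal R} (hI : I ≠ ⊥) (hJ : J ≠ ⊥) : cl (I * J) = cl I * cl J := by
  have h : I * J ≠ ⊥ := mul_ne_zero hI hJ
  rw [cl_of_ne hI, cl_of_ne hJ, cl_of_ne h]
  exact map_mul ClassGroup.mk0 (⟨I, mem_nonZeroDivisors_of_ne_zero hI⟩ : (Ideal R)⁰)
    ⟨J, mem_nonZeroDivisors_of_ne_zero hJ⟩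

theorem cl_top : cl (⊤ : Ideal R) = 1 := by
  have h : (⊤ : Ideal R) ≠ ⊥ := top_ne_bot
  rw [cl_of_ne h, ClassGroup.mk0_eq_one_iff]
  exact ⟨1, by simp⟩

theorem cl_pow {I : Ideal R} (hI : I ≠ ⊥) (n : ℕ) : cl (I ^ n) = cl I ^ n := by
  induction n with
  | zero => rw [pow_zero, pow_zero, Ideal.one_eq_top, cl_top]
  | succ n ih =>
    rw [pow_succ, pow_succ, cl_mul (pow_ne_zero n hI) hI, ih]

theorem cl_eq_iff {I J : Ideal R} (hI : I ≠ ⊥) (hJ : J ≠ ⊥) :
    cl I = cl J ↔ ∃ a b : R, a ≠ 0 ∧ b ≠ 0 ∧ Ideal.span {a} * I = Ideal.span {b} * J := by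
  rw [cl_of_ne hI, cl_of_ne hJ, ClassGroup.mk0_eq_mk0_iff]
  constructor
  · rintro ⟨a, b, ha, hb, h⟩
    exact ⟨a, b, ha, hb, h⟩
  · rintro ⟨a, b, ha, hb, h⟩
    exact ⟨a, b, ha, hb, h⟩

theorem cl_eq_one_iff {I : Ideal R} (hI : I ≠ ⊥) :
    cl I = 1 ↔ ∃ a : R, a ≠ 0 ∧ I = Ideal.span {a} := by
  rw [cl_of_ne hI, ClassGroup.mk0_eq_one_iff]
  constructor
  · rintro ⟨a, ha⟩
    refine ⟨a, ?_, ha⟩
    rintro rfl
    exact hI (by simpa using ha)
  · rintro ⟨a, _, ha⟩
    exact ⟨a, ha⟩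

theorem cl_span {a : R} (ha : a ≠ 0) : cl (Ideal.span {a}) = 1 :=
  (cl_eq_one_iff (by simpa using ha)).2 ⟨a, ha, rfl⟩

theorem cl_surj (x : ClassGroup R) : ∃ I : Ideal R, I ≠ ⊥ ∧ cl I = x := by
  obtain ⟨I, rfl⟩ := ClassGroup.mk0_surjective x
  exact ⟨I, nonZeroDivisors.coe_ne_zero I, cl_of_ne (nonZeroDivisors.coe_ne_zero I)⟩

/-- a multiplicative function of nonzero ideals that is trivial on principal ideals factors
through the class group -/
theorem exists_clLift {G : Type} [CommGroup G] (Φ : Ideal R → G)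
    (h1 : ∀ I J : Ideal R, I ≠ ⊥ → J ≠ ⊥ → Φ (I * J) = Φ I * Φ J)
    (h2 : ∀ a : R, a ≠ 0 → Φ (Ideal.span {a}) = 1) :
    ∃ F : ClassGroup R →* G, ∀ I : Ideal R, I ≠ ⊥ → F (cl I) = Φ I := by
  have key : ∀ I J : Ideal R, I ≠ ⊥ → J ≠ ⊥ → cl I = cl J → Φ I = Φ J := by
    intro I J hI hJ h
    obtain ⟨a, b, ha, hb, hab⟩ := (cl_eq_iff hI hJ).1 h
    have := congrArg Φ hab
    rwa [h1 _ _ (by simpa using ha) hI, h1 _ _ (by simpa using hb) hJ, h2 a ha, h2 b hb,
      one_mul, one_mul] at this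
  choose s hs hs' using fun x : ClassGroup R => cl_surj x
  refine ⟨MonoidHom.mk' (fun x => Φ (s x)) fun x y => ?_, fun I hI => ?_⟩
  · rw [← h1 _ _ (hs x) (hs y)]
    refine key _ _ (hs _) (mul_ne_zero (hs x) (hs y)) ?_
    rw [hs', cl_mul (hs x) (hs y), hs', hs']
  · exact key _ _ (hs _) hI (hs' _)

theorem map_ne_bot (g : R ≃+* S) {I : Ideal R} (hI : I ≠ ⊥) : I.map g ≠ ⊥ := by
  intro h
  rw [Ideal.map_eq_bot_iff_of_injective g.injective] at h
  exact hI h

theorem exists_clmHom (g : R ≃+* S) :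
    ∃ F : ClassGroup R →* ClassGroup S, ∀ I : Ideal R, I ≠ ⊥ → F (cl I) = cl (I.map g) :=
  exists_clLift (fun I => cl (I.map g))
    (fun I J hI hJ => by
      rw [Ideal.map_mul, cl_mul (map_ne_bot g hI) (map_ne_bot g hJ)])
    (fun a ha => by
      rw [Ideal.map_span, Set.image_singleton]
      exact cl_span (fun h => ha (g.injective (by rw [map_zero]; exact h))))

/-- the map of class groups induced by a ring isomorphism, as a homomorphism -/
noncomputable def clmHom (g : R ≃+* S) : ClassGroup R →* ClassGroup S := (exists_clmHom g).choose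

theorem clmHom_cl (g : R ≃+* S) {I : Ideal R} (hI : I ≠ ⊥) : clmHom g (cl I) = cl (I.map g) :=
  (exists_clmHom g).choose_spec I hI

theorem clmHom_comp_symm (g : R ≃+* S) (x : ClassGroup R) : clmHom g.symm (clmHom g x) = x := by
  obtain ⟨I, hI, rfl⟩ := cl_surj x
  rw [clmHom_cl g hI, clmHom_cl g.symm (map_ne_bot g hI)]
  congr 1
  exact Ideal.map_of_equiv g

/-- the isomorphism of class groups induced by a ring isomorphism -/
noncomputable def clm (g : R ≃+* S) : ClassGroup R ≃* ClassGroup S where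
  toFun := clmHom g
  invFun := clmHom g.symm
  left_inv := clmHom_comp_symm g
  right_inv := clmHom_comp_symm g.symm
  map_mul' := map_mul _

theorem clm_cl (g : R ≃+* S) {I : Ideal R} (hI : I ≠ ⊥) : clm g (cl I) = cl (I.map g) :=
  clmHom_cl g hI

theorem map_map_comm (g h g' h' : R ≃+* R) (hgh : ∀ r, g (h r) = h' (g' r)) (I : Ideal R) :
    (I.map h).map g = (I.map g').map h' := by
  rw [← Ideal.map_coe g, ← Ideal.map_coe h, ← Ideal.map_coe g', ← Ideal.map_coe h',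
    Ideal.map_map, Ideal.map_map]
  congr 1
  ext r
  exact hgh r

theorem clm_comm (g h g' h' : R ≃+* R) (hgh : ∀ r, g (h r) = h' (g' r)) (x : ClassGroup R) :
    clm g (clm h x) = clm h' (clm g' x) := by
  obtain ⟨I, hI, rfl⟩ := cl_surj x
  have h1 : clm g (clm h (cl I)) = cl ((I.map h).map g) := by
    rw [clm_cl h hI, clm_cl g (map_ne_bot h hI)]
  have h2 : clm h' (clm g' (cl I)) = cl ((I.map g').map h') := by
    rw [clm_cl g' hI, clm_cl h' (map_ne_bot g' hI)]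
  rw [h1, h2, map_map_comm g h g' h' hgh I]

end cls

end Pool.Agent.Helper12.SN
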