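import Pool.Agent.Helper12.SN.IntCl

set_option autoImplicit false
set_option linter.unusedSectionVars false

/-!
# SB-N-16: `RR ℓ c` is a Dedekind domain with finite class group for a finite field

`isDedekindDomain_RR`: domain (InfA), Noetherian (finite over the Noetherian ring `f[X]`:
`isNoetherian_of_isNoetherianRing_of_finite`, `isNoetherianRing_of_surjective`...), dimension `≤ 1`
(integral extension of the PID `f[X]` : `Ring.DimensionLEOne.isIntegralClosure` or
`Ideal.isMaximal_of_isIntegral_of_isMaximal_comap`: a nonzero prime `P` has nonzero comap in `f[X]`,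
`Ideal.comap_ne_bot_of_integral_mem`, which is maximal), integrally closed (`IntCl`).
`finite_classGroup`: `ClassGroup.fintypeOfAdmissibleOfAlgebraic bS
Polynomial.cardPowDegreeIsAdmissible` with the basis `bS := (Pi.basisFun _ _).map
(RR.lequiv c).symm` (`Fintype f` from `Finite f`, `Algebra.IsAlgebraic f[X] (RR ℓ c)` from
integrality); see `Mathlib/NumberTheory/ClassNumber/FunctionField.lean`.
-/

open Polynomial

namespace Pool.Agent.Helper12.SN

variable {ℓ : ℕ} [Fact ℓ.Prime] {f : Type} [Field f] {c : Fin 3 → f}

instance isDedekindDomain_RR [Good ℓ c] : IsDedekindDomain (RR ℓ c) := by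
  have h0 : IsNoetherian f[X] (RR ℓ c) := isNoetherian_of_isNoetherianRing_of_finite f[X] (RR ℓ c)
  have h1 : IsNoetherian (RR ℓ c) (RR ℓ c) := isNoetherian_of_tower f[X] h0
  have h2 : Ring.DimensionLEOne (RR ℓ c) := Ring.DimensionLEOne.of_isIntegral f[X] (RR ℓ c)
  have h3 : IsIntegrallyClosed (RR ℓ c) := isIntegrallyClosed_RR
  have h4 : IsDomain (RR ℓ c) := inferInstance
  exact { h4, h1, h2, h3 with }

/-- the class number is finite for a finite field -/
theorem finite_classGroup [Finite f] [Good ℓ c] : Finite (ClassGroup (RR ℓ c)) := by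
  classical
  let _ : Fintype f := Fintype.ofFinite f
  let bS : Module.Basis (ZMod ℓ) f[X] (RR ℓ c) :=
    (Pi.basisFun f[X] (ZMod ℓ)).map (RR.lequiv c).symm
  let _ : Fintype (ClassGroup (RR ℓ c)) :=
    ClassGroup.fintypeOfAdmissibleOfAlgebraic bS Polynomial.cardPowDegreeIsAdmissible
  exact Finite.of_fintype _

end Pool.Agent.Helper12.SN
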