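import Pool.Agent.Helper12.SN.Tau

set_option autoImplicit false
set_option linter.unusedSectionVars false

/-!
# PROJECT SB (MP_ad201b_nt), block N: the affine ring of the curve
`y ^ ℓ (x - c 1) = (x - c 0) (x - c 2)`

`RR ℓ c` for a commutative ring `A` and `c : Fin 3 → A` is the free `A[X]`-module with basis
`u_j`, `j : ZMod ℓ`, where `u_0 = 1` and `u_j = (x - c 1) y ^ j` for `0 < j < ℓ`.  An element is
the function of its coefficients.

SB-N-02: fill the sorries of this file (they may use Tau.lean; extra lemmas private; statements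
and definitions unchanged).

`rr_mul_assoc`: at `k` both sides are
`∑ i, ∑ m, tau i m * tau (i + m) (k - i - m) * (r i * s m * t (k - i - m))`: on the left expand
`∑ j, tau j (k - j) * ((∑ i, tau i (j - i) * (r i * s (j - i))) * t (k - j))`, swap the sums and
substitute `j = i + m` (`Equiv.addLeft i`); on the right
`∑ i, tau i (k - i) * (r i * ∑ m, tau m (k - i - m) * (s m * t (k - i - m)))`, and
`tau_assoc i m (k - i - m)`.
`uu_mul`: only the term `i` of the sum survives.
`rotHom.map_mul'`: `pow_val_add hz i (k - i)`.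
`rot`: `C (z ^ j.val) * (C ((z ^ (ℓ - 1)) ^ j.val) * r j) = r j` because
`z * z ^ (ℓ - 1) = z ^ ℓ = 1` (`ℓ ≠ 0`).
`ev`: `map_one`: only `j = 0`.  `map_mul`: `∑ k, (∑ i, tau i (k - i) r_i s_(k-i))(x) U_k`, swap,
substitute `k = i + j`, `uval_mul`: `= ∑ i, ∑ j, r_i(x) s_j(x) U_i U_j`.
`evc.map_mul'`: `(r * s) 0 = ∑ i, tau i (-i) * (r i * s (-i))`; for `i ≠ 0` `(-i).val = ℓ - i.val`
(`ZMod.neg_val`), so `tau i (-i) = al * be`, which vanishes at `c 0`, `c 1` and `c 2`.
-/

open Polynomial

namespace Pool.Agent.Helper12.SN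

variable (ℓ : ℕ) {A : Type} [CommRing A]

/-- the affine ring of the curve: `r j` is the coefficient of `u_j` -/
structure RR (c : Fin 3 → A) : Type where
  /-- the coefficients -/
  co : ZMod ℓ → A[X]

instance (c : Fin 3 → A) : CoeFun (RR ℓ c) (fun _ => ZMod ℓ → A[X]) := ⟨RR.co⟩

variable {ℓ} {c : Fin 3 → A}

@[ext] theorem RR.ext {r s : RR ℓ c} (h : ∀ j, r j = s j) : r = s := by
  cases r
  cases s
  congr
  exact funext h

/-- the coefficients, as an equivalence -/
def RR.equiv (c : Fin 3 → A) : RR ℓ c ≃ (ZMod ℓ → A[X]) :=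
  ⟨RR.co, RR.mk, fun _ => rfl, fun _ => rfl⟩

noncomputable instance (c : Fin 3 → A) : AddCommGroup (RR ℓ c) := (RR.equiv c).addCommGroup

noncomputable instance (c : Fin 3 → A) : Module A[X] (RR ℓ c) := (RR.equiv c).module A[X]

/-- the coefficients, as a linear equivalence -/
noncomputable def RR.lequiv (c : Fin 3 → A) : RR ℓ c ≃ₗ[A[X]] (ZMod ℓ → A[X]) :=
  (RR.equiv c).linearEquiv A[X]

@[simp] theorem lequiv_ap (r : RR ℓ c) (j : ZMod ℓ) : RR.lequiv c r j = r j := rfl

instance [NeZero ℓ] (c : Fin 3 → A) : Module.Free A[X] (RR ℓ c) :=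
  Module.Free.of_equiv (RR.lequiv c).symm

instance [NeZero ℓ] (c : Fin 3 → A) : Module.Finite A[X] (RR ℓ c) :=
  Module.Finite.equiv (RR.lequiv c).symm

@[simp] theorem add_ap (r s : RR ℓ c) (j : ZMod ℓ) : (r + s) j = r j + s j := rfl
@[simp] theorem sub_ap (r s : RR ℓ c) (j : ZMod ℓ) : (r - s) j = r j - s j := rfl
@[simp] theorem neg_ap (r : RR ℓ c) (j : ZMod ℓ) : (-r) j = -r j := rfl
@[simp] theorem zero_ap (j : ZMod ℓ) : (0 : RR ℓ c) j = 0 := rfl
@[simp] theorem smul_ap (p : A[X]) (r : RR ℓ c) (j : ZMod ℓ) : (p • r) j = p * r j := rfl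

section ring

variable [NeZero ℓ]

/-- the element `u_j` -/
noncomputable def uu (j : ZMod ℓ) : RR ℓ c := ⟨fun i => if i = j then 1 else 0⟩

theorem uu_ap (j i : ZMod ℓ) : (uu j : RR ℓ c) i = if i = j then 1 else 0 := rfl

noncomputable instance : One (RR ℓ c) := ⟨⟨fun i => if i = 0 then 1 else 0⟩⟩

noncomputable instance : Mul (RR ℓ c) :=
  ⟨fun r s => ⟨fun k => ∑ i : ZMod ℓ, tau ℓ c i (k - i) * (r i * s (k - i))⟩⟩

theorem one_ap (j : ZMod ℓ) : (1 : RR ℓ c) j = if j = 0 then 1 else 0 := rfl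

theorem mul_ap (r s : RR ℓ c) (k : ZMod ℓ) :
    (r * s) k = ∑ i : ZMod ℓ, tau ℓ c i (k - i) * (r i * s (k - i)) := rfl

theorem sum_ap {ι : Type*} (t : Finset ι) (r : ι → RR ℓ c) (k : ZMod ℓ) :
    (∑ i ∈ t, r i) k = ∑ i ∈ t, r i k := by
  rw [← lequiv_ap, map_sum, Finset.sum_apply]
  rfl

private theorem rr_mul_comm (r s : RR ℓ c) : r * s = s * r := by
  ext1 k
  rw [mul_ap, mul_ap]
  refine Fintype.sum_equiv (Equiv.subLeft k) _ _ fun i => ?_
  simp only [Equiv.subLeft_apply, sub_sub_cancel]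
  rw [tau_comm, mul_comm (r i)]

private theorem rr_one_mul (r : RR ℓ c) : 1 * r = r := by
  ext1 k
  rw [mul_ap, Finset.sum_eq_single (0 : ZMod ℓ)]
  · rw [sub_zero, tau_zero_left, one_ap, if_pos rfl, one_mul, one_mul]
  · intro i _ hi
    rw [one_ap, if_neg hi, zero_mul, mul_zero]
  · intro h
    exact absurd (Finset.mem_univ _) h

private theorem rr_add_mul (r s t : RR ℓ c) : (r + s) * t = r * t + s * t := by
  ext1 k
  rw [add_ap, mul_ap, mul_ap, mul_ap, ← Finset.sum_add_distrib]
  refine Finset.sum_congr rfl fun i _ => ?_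
  rw [add_ap]
  ring

private theorem rr_mul_assoc (r s t : RR ℓ c) : r * s * t = r * (s * t) := by
  ext1 k
  rw [mul_ap, mul_ap]
  have h1 : ∀ j : ZMod ℓ, tau ℓ c j (k - j) * ((r * s) j * t (k - j)) =
      ∑ i : ZMod ℓ, tau ℓ c j (k - j) *
        ((tau ℓ c i (j - i) * (r i * s (j - i))) * t (k - j)) := by
    intro j
    rw [mul_ap, Finset.sum_mul, Finset.mul_sum]
  have h2 : ∀ i : ZMod ℓ, tau ℓ c i (k - i) * (r i * (s * t) (k - i)) =
      ∑ m : ZMod ℓ, tau ℓ c i (k - i) *
        (r i * (tau ℓ c m (k - i - m) * (s m * t (k - i - m)))) := by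
    intro i
    rw [mul_ap, Finset.mul_sum, Finset.mul_sum]
  rw [Finset.sum_congr rfl fun j _ => h1 j, Finset.sum_congr rfl fun i _ => h2 i,
    Finset.sum_comm]
  refine Finset.sum_congr rfl fun i _ => ?_
  refine Fintype.sum_equiv (Equiv.subRight i) _ _ fun j => ?_
  simp only [Equiv.subRight_apply]
  have e1 : k - i - (j - i) = k - j := by ring
  have e2 : i + (j - i) = j := by ring
  have e3 : j - i + (k - j) = k - i := by ring
  have h3 := tau_assoc (c := c) i (j - i) (k - j)
  rw [e2, e3] at h3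
  rw [e1]
  linear_combination (r i * s (j - i) * t (k - j)) * h3

noncomputable instance : CommRing (RR ℓ c) :=
  { (inferInstance : AddCommGroup (RR ℓ c)) with
    mul := (· * ·)
    one := 1
    mul_assoc := rr_mul_assoc
    one_mul := rr_one_mul
    mul_one := fun r => by rw [rr_mul_comm, rr_one_mul]
    mul_comm := rr_mul_comm
    left_distrib := fun r s t => by
      rw [rr_mul_comm, rr_add_mul, rr_mul_comm s, rr_mul_comm t]
    right_distrib := rr_add_mul
    zero_mul := fun r => by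
      ext1 k
      rw [mul_ap]
      simp
    mul_zero := fun r => by
      ext1 k
      rw [mul_ap]
      simp }

private theorem rr_smul_mul (p : A[X]) (r s : RR ℓ c) : p • r * s = p • (r * s) := by
  ext1 k
  rw [smul_ap, mul_ap, mul_ap, Finset.mul_sum]
  refine Finset.sum_congr rfl fun i _ => ?_
  rw [smul_ap]
  ring

noncomputable instance : Algebra A[X] (RR ℓ c) :=
  Algebra.ofModule rr_smul_mul fun p r s => by
    rw [mul_comm, rr_smul_mul, mul_comm]

theorem algebraMap_ap (p : A[X]) (j : ZMod ℓ) :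
    (algebraMap A[X] (RR ℓ c) p) j = if j = 0 then p else 0 := by
  rw [Algebra.algebraMap_eq_smul_one, smul_ap, one_ap]
  split_ifs <;> simp

/-- the constant `a` -/
noncomputable def con : A →+* RR ℓ c := (algebraMap A[X] (RR ℓ c)).comp C

theorem con_ap (a : A) (j : ZMod ℓ) : (con a : RR ℓ c) j = if j = 0 then C a else 0 :=
  algebraMap_ap _ _

/-- the coordinate `x` -/
noncomputable def xx : RR ℓ c := algebraMap A[X] (RR ℓ c) X

theorem eq_sum_uu (r : RR ℓ c) : r = ∑ j : ZMod ℓ, r j • (uu j : RR ℓ c) := by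
  ext1 k
  rw [sum_ap, Finset.sum_eq_single k]
  · rw [smul_ap, uu_ap, if_pos rfl, mul_one]
  · intro i _ hi
    rw [smul_ap, uu_ap, if_neg (Ne.symm hi), mul_zero]
  · intro h
    exact absurd (Finset.mem_univ _) h

theorem uu_mul (i j : ZMod ℓ) :
    (uu i : RR ℓ c) * uu j = tau ℓ c i j • (uu (i + j) : RR ℓ c) := by
  ext1 k
  rw [mul_ap, smul_ap, Finset.sum_eq_single i]
  · rw [uu_ap, uu_ap, uu_ap, if_pos rfl, one_mul]
    by_cases h : k = i + j
    · subst h
      rw [if_pos rfl, add_sub_cancel_left, if_pos rfl]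
    · rw [if_neg h, if_neg (fun h2 => h (by rw [← h2]; ring)), mul_zero, mul_zero]
  · intro m _ hm
    rw [uu_ap, if_neg hm, zero_mul, mul_zero]
  · intro h
    exact absurd (Finset.mem_univ _) h

theorem uu_zero : (uu 0 : RR ℓ c) = 1 := rfl

end ring

section maps

variable [NeZero ℓ] {B : Type} [CommRing B] {d : Fin 3 → B}

theorem tau_map (φ : A →+* B) (h : ∀ i, φ (c i) = d i) (i j : ZMod ℓ) :
    (tau ℓ c i j).map φ = tau ℓ d i j := by
  unfold tau al be
  split_ifs <;> simp [h]

/-- functoriality: apply `φ` to the coefficients -/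
noncomputable def RR.map (φ : A →+* B) (h : ∀ i, φ (c i) = d i) : RR ℓ c →+* RR ℓ d where
  toFun r := ⟨fun j => (r j).map φ⟩
  map_one' := by
    ext1 j
    change ((1 : RR ℓ c) j).map φ = _
    rw [one_ap, one_ap]
    split_ifs <;> simp
  map_zero' := by
    ext1 j
    exact Polynomial.map_zero φ
  map_add' r s := by
    ext1 j
    exact Polynomial.map_add φ
  map_mul' r s := by
    ext1 j
    change ((r * s) j).map φ = _
    rw [mul_ap, mul_ap, Polynomial.map_sum]
    refine Finset.sum_congr rfl fun i _ => ?_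
    rw [Polynomial.map_mul, Polynomial.map_mul, tau_map φ h]

@[simp] theorem map_ap (φ : A →+* B) (h : ∀ i, φ (c i) = d i) (r : RR ℓ c) (j : ZMod ℓ) :
    (RR.map φ h r) j = (r j).map φ := rfl

/-- the action on the affine ring of an isomorphism of the coefficients -/
noncomputable def RR.mapEquiv (φ : A ≃+* B) (h : ∀ i, φ (c i) = d i) : RR ℓ c ≃+* RR ℓ d :=
  RingEquiv.ofRingHom (RR.map (φ : A →+* B) h)
    (RR.map (φ.symm : B →+* A) fun i => by rw [← h i]; exact φ.symm_apply_apply _)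
    (by
      ext1 r
      ext1 j
      change ((r j).map (φ.symm : B →+* A)).map (φ : A →+* B) = r j
      rw [Polynomial.map_map, RingEquiv.comp_symm, Polynomial.map_id])
    (by
      ext1 r
      ext1 j
      change ((r j).map (φ : A →+* B)).map (φ.symm : B →+* A) = r j
      rw [Polynomial.map_map, RingEquiv.symm_comp, Polynomial.map_id])

@[simp] theorem mapEquiv_ap (φ : A ≃+* B) (h : ∀ i, φ (c i) = d i) (r : RR ℓ c)
    (j : ZMod ℓ) : (RR.mapEquiv φ h r) j = (r j).map (φ : A →+* B) := rfl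

end maps

section rot

variable [NeZero ℓ]

/-- the endomorphism `y ↦ z y` -/
noncomputable def rotHom (z : A) (hz : z ^ ℓ = 1) : RR ℓ c →+* RR ℓ c where
  toFun r := ⟨fun j => C (z ^ j.val) * r j⟩
  map_one' := by
    ext1 j
    change C (z ^ j.val) * (1 : RR ℓ c) j = _
    rw [one_ap]
    split_ifs with h
    · simp [h]
    · simp
  map_zero' := by
    ext1 j
    exact mul_zero _
  map_add' r s := by
    ext1 j
    exact mul_add _ _ _
  map_mul' r s := by
    ext1 k
    change C (z ^ k.val) * (r * s) k = ∑ i : ZMod ℓ, tau ℓ c i (k - i) *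
      ((C (z ^ i.val) * r i) * (C (z ^ (k - i).val) * s (k - i)))
    rw [mul_ap, Finset.mul_sum]
    refine Finset.sum_congr rfl fun i _ => ?_
    have h := pow_val_add hz i (k - i)
    rw [add_sub_cancel] at h
    rw [h, C_mul]
    ring

/-- the automorphism `ρ : y ↦ z y` for an `ℓ`-th root of unity `z` -/
noncomputable def rot (z : A) (hz : z ^ ℓ = 1) : RR ℓ c ≃+* RR ℓ c :=
  RingEquiv.ofRingHom (rotHom z hz)
    (rotHom (z ^ (ℓ - 1)) (by rw [← pow_mul, mul_comm, pow_mul, hz, one_pow]))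
    (by
      ext1 r
      ext1 j
      change C (z ^ j.val) * (C ((z ^ (ℓ - 1)) ^ j.val) * r j) = r j
      rw [← mul_assoc, ← C_mul, ← mul_pow, ← pow_succ',
        Nat.sub_add_cancel (NeZero.one_le : 1 ≤ ℓ), hz, one_pow, C_1, one_mul])
    (by
      ext1 r
      ext1 j
      change C ((z ^ (ℓ - 1)) ^ j.val) * (C (z ^ j.val) * r j) = r j
      rw [← mul_assoc, ← C_mul, ← mul_pow, ← pow_succ,
        Nat.sub_add_cancel (NeZero.one_le : 1 ≤ ℓ), hz, one_pow, C_1, one_mul])

@[simp] theorem rot_ap (z : A) (hz : z ^ ℓ = 1) (r : RR ℓ c) (j : ZMod ℓ) :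
    (rot z hz r) j = C (z ^ j.val) * r j := rfl

end rot

section ev

variable [NeZero ℓ] {B : Type} [CommRing B]

/-- evaluation at the point `(x, y)` of the curve with values in `B` -/
noncomputable def ev (φ : A →+* B) (x y : B)
    (h : y ^ ℓ * (x - φ (c 1)) = (x - φ (c 0)) * (x - φ (c 2))) : RR ℓ c →+* B where
  toFun r := ∑ j : ZMod ℓ, (r j).eval₂ φ x * uval φ c x y j
  map_one' := by
    change ∑ j : ZMod ℓ, ((1 : RR ℓ c) j).eval₂ φ x * uval φ c x y j = 1
    rw [Finset.sum_eq_single (0 : ZMod ℓ)]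
    · rw [one_ap, if_pos rfl, eval₂_one, one_mul]
      simp [uval]
    · intro j _ hj
      rw [one_ap, if_neg hj, eval₂_zero, zero_mul]
    · intro h
      exact absurd (Finset.mem_univ _) h
  map_zero' := by
    simp
  map_add' r s := by
    simp [Polynomial.eval₂_add, add_mul, Finset.sum_add_distrib]
  map_mul' r s := by
    change ∑ k : ZMod ℓ, ((r * s) k).eval₂ φ x * uval φ c x y k =
      (∑ i : ZMod ℓ, (r i).eval₂ φ x * uval φ c x y i) *
        ∑ j : ZMod ℓ, (s j).eval₂ φ x * uval φ c x y j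
    have h1 : ∀ k : ZMod ℓ, ((r * s) k).eval₂ φ x * uval φ c x y k =
        ∑ i : ZMod ℓ, (tau ℓ c i (k - i) * (r i * s (k - i))).eval₂ φ x *
          uval φ c x y k := by
      intro k
      rw [mul_ap, eval₂_finsetSum, Finset.sum_mul]
    rw [Finset.sum_congr rfl fun k _ => h1 k, Finset.sum_comm, Finset.sum_mul]
    refine Finset.sum_congr rfl fun i _ => ?_
    rw [Finset.mul_sum]
    refine Fintype.sum_equiv (Equiv.subRight i) _ _ fun k => ?_
    simp only [Equiv.subRight_apply]
    have h2 := uval_mul φ x y h i (k - i)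
    rw [add_sub_cancel] at h2
    rw [eval₂_mul, eval₂_mul]
    linear_combination (-(r i).eval₂ φ x * (s (k - i)).eval₂ φ x) * h2

theorem ev_ap (φ : A →+* B) (x y : B)
    (h : y ^ ℓ * (x - φ (c 1)) = (x - φ (c 0)) * (x - φ (c 2))) (r : RR ℓ c) :
    ev φ x y h r = ∑ j : ZMod ℓ, (r j).eval₂ φ x * uval φ c x y j := rfl

/-- evaluation at the point `p_i` over `c i` (all `u_j`, `j ≠ 0`, vanish there) -/
noncomputable def evc (c : Fin 3 → A) (i : Fin 3) : RR ℓ c →+* A where
  toFun r := (r 0).eval (c i)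
  map_one' := by
    change ((1 : RR ℓ c) 0).eval (c i) = 1
    rw [one_ap, if_pos rfl, eval_one]
  map_zero' := eval_zero
  map_add' r s := eval_add
  map_mul' r s := by
    change ((r * s) 0).eval (c i) = (r 0).eval (c i) * (s 0).eval (c i)
    rw [mul_ap, eval_finsetSum, Finset.sum_eq_single (0 : ZMod ℓ)]
    · rw [sub_zero, tau_zero_left, one_mul, eval_mul]
    · intro j _ hj
      have hj' : (0 : ZMod ℓ) - j ≠ 0 := by
        rw [zero_sub]
        exact neg_ne_zero.2 hj
      have hv : j.val + ((0 : ZMod ℓ) - j).val = ℓ := by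
        rw [zero_sub, ZMod.neg_val, if_neg hj]
        have := ZMod.val_lt j
        omega
      have h0 : (tau ℓ c j (0 - j)).eval (c i) = 0 := by
        unfold tau
        rw [if_neg (by tauto), if_neg (by omega), if_pos hv]
        unfold al be
        fin_cases i <;> simp
      rw [eval_mul, h0, zero_mul]
    · intro h
      exact absurd (Finset.mem_univ _) h

@[simp] theorem evc_ap (i : Fin 3) (r : RR ℓ c) : evc c i r = (r 0).eval (c i) := rfl

/-- the ideal `p_i` of the point over `c i` -/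
noncomputable def pp (c : Fin 3 → A) (i : Fin 3) : Ideal (RR ℓ c) := RingHom.ker (evc c i)

end ev

section infinity

/-- the coefficient of `r` at the basis element of degree `d`: this is `X ^ (d / ℓ) u_0` if
`ℓ ∣ d` and `X ^ (d / ℓ - 1) u_j`, `j = d mod ℓ`, otherwise (`deg x = ℓ`, `deg u_j = ℓ + j`) -/
noncomputable def cf (d : ℕ) (r : RR ℓ c) : A :=
  if (d : ZMod ℓ) = 0 then (r 0).coeff (d / ℓ)
  else if d < ℓ then 0 else (r (d : ZMod ℓ)).coeff (d / ℓ - 1)

/-- the degree (pole order at infinity) -/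
noncomputable def dg (r : RR ℓ c) : ℕ := sSup {d | cf d r ≠ 0}

/-- the leading coefficient at infinity -/
noncomputable def lc (r : RR ℓ c) : A := cf (dg r) r

end infinity

/-- good data over a field -/
class Good (ℓ : ℕ) {f : Type} [Field f] (c : Fin 3 → f) : Prop where
  inj : Function.Injective c
  prim : ∃ ζ : f, IsPrimitiveRoot ζ ℓ

end Pool.Agent.Helper12.SN
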