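import Mathlib

set_option autoImplicit false

/-!
# SB-N-12: the two operators of the symbol algebra `(u, -(t0^ℓ - u) (t2^ℓ - u) / (t1^ℓ - u))`

PROOF.  `V := AdjoinRoot (X ^ ℓ - C u : K[X])`, a commutative `K`-algebra, `s := root`, `s^ℓ = u`,
dimension `ℓ` (`AdjoinRoot.powerBasis'` with the monic polynomial, `natDegree_X_pow_sub_C`;
`PowerBasis.finrank`).  `φ : V →ₐ[K] V` with `φ s = ζ s` (`AdjoinRoot.liftAlgHom`/`liftHom`:
`(ζ s)^ℓ - u = 0`).  For `t : K`: `∏ i ∈ range ℓ, (t - ζ^i s) = t^ℓ - s^ℓ = t^ℓ - u`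
(`IsPrimitiveRoot.pow_sub_pow_eq_prod_sub_mul` in `V`, or map the polynomial identity
`X^ℓ - a^ℓ = ∏ (X - ζ^i a)`; `V` need not be a domain: prove the identity in `K[X]`: for `t` and the
variable `X`, `∏ i, (C t - C (ζ^i) * X) = C (t^ℓ) - X^ℓ`, and map it to `V`), i.e.
`∏ i ∈ range ℓ, φ^i (t - s) = t^ℓ - u` with `φ^i s = ζ^i s`.
So `t1 - s` is a unit of `V` (it divides the nonzero constant `t1^ℓ - u`); let `z := κ * (t0 - s) *
(t2 - s) * (t1 - s)⁻¹` (`κ` a constant, `φ κ = κ`); precisely take `e : V` with `(t1 - s) e = 1`; then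
`∏ φ^i e = (t1^ℓ - u)⁻¹`.  `N(z) := ∏ i ∈ range ℓ, φ^i z = κ^ℓ (t0^ℓ - u) (t2^ℓ - u) / (t1^ℓ - u)`.
`S v := s * v`, `T v := z * φ v` (both `K`-linear).  `S^ℓ v = s^ℓ v = u v`.
`T^m v = (∏ i ∈ range m, φ^i z) * φ^m v` by induction, and `φ^ℓ = id` (it fixes `s`: `ζ^ℓ s = s`),
so `T^ℓ v = N(z) v`.  `T (S v) = z φ(s) φ(v) = ζ s z φ(v) = ζ S (T v)`.
-/

open Polynomial

namespace Pool.Agent.Helper12.SN

private theorem lnorm_prod {K : Type} [Field K] {ℓ : ℕ} (hℓ : 0 < ℓ) {ζ : K}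
    (hζ : IsPrimitiveRoot ζ ℓ) (t : K) :
    ∏ i ∈ Finset.range ℓ, (C t - C (ζ ^ i) * X : K[X]) = C (t ^ ℓ) - X ^ ℓ := by
  have hz : IsPrimitiveRoot (C ζ : K[X]) ℓ := hζ.map_of_injective C_injective
  rw [C_pow, hz.pow_sub_pow_eq_prod_sub_mul (C t) X hℓ]
  refine Finset.prod_nbij (fun i => (C ζ : K[X]) ^ i) ?_ ?_ ?_ ?_
  · intro i _
    rw [Polynomial.mem_nthRootsFinset hℓ]
    rw [← pow_mul, mul_comm, pow_mul, hz.pow_eq_one, one_pow]
  · intro i hi j hj hij
    exact hz.pow_inj (Finset.mem_range.mp hi) (Finset.mem_range.mp hj) hij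
  · intro x hx
    rw [Finset.mem_coe, Polynomial.mem_nthRootsFinset hℓ] at hx
    have : NeZero ℓ := ⟨hℓ.ne'⟩
    obtain ⟨i, hi, hix⟩ := hz.eq_pow_of_pow_eq_one hx
    exact ⟨i, Finset.mem_coe.mpr (Finset.mem_range.mpr hi), hix⟩
  · intro i _
    rw [C_pow]

theorem exists_ST {K : Type} [Field K] {ℓ : ℕ} (hℓ : 0 < ℓ) {ζ : K}
    (hζ : IsPrimitiveRoot ζ ℓ) (u κ t0 t1 t2 : K) (hκ : κ ^ ℓ = -1) (hu : u ≠ 0)
    (h1 : t1 ^ ℓ - u ≠ 0) :
    ∃ (V : Type) (_ : AddCommGroup V) (_ : Module K V) (S T : V →ₗ[K] V),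
      Module.finrank K V = ℓ ∧ (∀ v, (S ^ ℓ) v = u • v) ∧
      (∀ v, (T ^ ℓ) v = (-((t0 ^ ℓ - u) * (t2 ^ ℓ - u) / (t1 ^ ℓ - u))) • v) ∧
      (∀ v, T (S v) = ζ • S (T v)) := by
  set f : K[X] := X ^ ℓ - C u with hf
  have hmon : f.Monic := monic_X_pow_sub_C u hℓ.ne'
  set s : AdjoinRoot f := AdjoinRoot.root f with hs
  let c : K →+* AdjoinRoot f := algebraMap K (AdjoinRoot f)
  have hsl : s ^ ℓ = c u := by
    have h := AdjoinRoot.eval₂_root f
    rw [hf, eval₂_sub, eval₂_pow, eval₂_X, eval₂_C] at h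
    rw [sub_eq_zero] at h
    exact h
  have hroot : f.eval₂ ((Algebra.ofId K (AdjoinRoot f) : K →ₐ[K] AdjoinRoot f) : K →+* AdjoinRoot f)
      (c ζ * s) = 0 := by
    have h : ∀ (g : K →+* AdjoinRoot f) (x : AdjoinRoot f), f.eval₂ g x = x ^ ℓ - g u := by
      intro g x
      change (X ^ ℓ - C u : K[X]).eval₂ g x = _
      rw [eval₂_sub, eval₂_pow, eval₂_X, eval₂_C]
    rw [h, mul_pow, hsl, ← map_pow, hζ.pow_eq_one, map_one, one_mul]
    exact sub_self _
  let φ : AdjoinRoot f →ₐ[K] AdjoinRoot f :=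
    AdjoinRoot.liftAlgHom f (Algebra.ofId K (AdjoinRoot f)) (c ζ * s) hroot
  have hφs : φ s = c ζ * s := AdjoinRoot.liftAlgHom_root _ _ _ _
  have hφc : ∀ x : K, φ (c x) = c x := fun x => φ.commutes x
  have hφi : ∀ i : ℕ, (φ^[i]) s = c (ζ ^ i) * s := by
    intro i
    induction i with
    | zero => simp
    | succ i ih =>
      rw [Function.iterate_succ_apply', ih, map_mul, hφc, hφs, pow_succ, map_mul, mul_assoc]
  have hφmul : ∀ (i : ℕ) (x y : AdjoinRoot f), (φ^[i]) (x * y) = (φ^[i]) x * (φ^[i]) y := by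
    intro i
    induction i with
    | zero => intro x y; rfl
    | succ i ih =>
      intro x y
      rw [Function.iterate_succ_apply', Function.iterate_succ_apply', Function.iterate_succ_apply',
        ih, map_mul]
  have hφsub : ∀ (i : ℕ) (x y : AdjoinRoot f), (φ^[i]) (x - y) = (φ^[i]) x - (φ^[i]) y := by
    intro i
    induction i with
    | zero => intro x y; rfl
    | succ i ih =>
      intro x y
      rw [Function.iterate_succ_apply', Function.iterate_succ_apply', Function.iterate_succ_apply',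
        ih, map_sub]
  have hφci : ∀ (i : ℕ) (x : K), (φ^[i]) (c x) = c x := by
    intro i
    induction i with
    | zero => intro x; rfl
    | succ i ih =>
      intro x
      rw [Function.iterate_succ_apply', ih, hφc]
  have hφl : ∀ v : AdjoinRoot f, (φ^[ℓ]) v = v := by
    have hit : ∀ (m : ℕ) (v : AdjoinRoot f), (φ ^ m) v = (φ^[m]) v := by
      intro m
      induction m with
      | zero => intro v; rfl
      | succ m ih =>
        intro v
        rw [pow_succ', AlgHom.mul_apply, ih, Function.iterate_succ_apply']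
    have hid : φ ^ ℓ = AlgHom.id K (AdjoinRoot f) := by
      apply AdjoinRoot.algHom_ext
      rw [hit, ← hs, hφi, hζ.pow_eq_one, map_one, one_mul]
      rfl
    intro v
    rw [← hit, hid]
    rfl
  have hprod : ∀ t : K, ∏ i ∈ Finset.range ℓ, (φ^[i]) (c t - s) = c (t ^ ℓ - u) := by
    intro t
    have h := congrArg (AdjoinRoot.mk f) (lnorm_prod hℓ hζ t)
    rw [map_prod, map_sub, map_pow (AdjoinRoot.mk f) X, AdjoinRoot.mk_X, AdjoinRoot.mk_C] at h
    rw [map_sub, ← hsl]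
    refine Eq.trans ?_ h
    refine Finset.prod_congr rfl fun i _ => ?_
    rw [hφsub, hφci, hφi, map_sub, map_mul, AdjoinRoot.mk_C, AdjoinRoot.mk_C, AdjoinRoot.mk_X]
    rfl
  -- the inverse of t1 - s
  have hunit : ∃ e : AdjoinRoot f, (c t1 - s) * e = 1 := by
    have h := hprod t1
    obtain ⟨m, rfl⟩ : ∃ m, ℓ = m + 1 := ⟨ℓ - 1, by omega⟩
    rw [Finset.prod_range_succ'] at h
    refine ⟨(∏ k ∈ Finset.range m, (φ^[k + 1]) (c t1 - s)) * c (t1 ^ (m + 1) - u)⁻¹, ?_⟩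
    rw [← mul_assoc, mul_comm (c t1 - s)]
    have h0 : (φ^[0]) (c t1 - s) = c t1 - s := rfl
    rw [h0] at h
    rw [h, ← map_mul, mul_inv_cancel₀ h1, map_one]
  obtain ⟨e, he⟩ := hunit
  have hprode : ∏ i ∈ Finset.range ℓ, (φ^[i]) e = c (t1 ^ ℓ - u)⁻¹ := by
    have h2 : (∏ i ∈ Finset.range ℓ, (φ^[i]) (c t1 - s)) * ∏ i ∈ Finset.range ℓ, (φ^[i]) e = 1 := by
      rw [← Finset.prod_mul_distrib]
      refine Finset.prod_eq_one fun i _ => ?_
      rw [← hφmul, he, ← map_one c, hφci]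
    rw [hprod] at h2
    have h3 : c (t1 ^ ℓ - u)⁻¹ * c (t1 ^ ℓ - u) = 1 := by
      rw [← map_mul, inv_mul_cancel₀ h1, map_one]
    calc ∏ i ∈ Finset.range ℓ, (φ^[i]) e
        = c (t1 ^ ℓ - u)⁻¹ * c (t1 ^ ℓ - u) * ∏ i ∈ Finset.range ℓ, (φ^[i]) e := by
          rw [h3, one_mul]
      _ = c (t1 ^ ℓ - u)⁻¹ := by rw [mul_assoc, h2, mul_one]
  let z : AdjoinRoot f := c κ * (c t0 - s) * (c t2 - s) * e
  have hprodz : ∏ i ∈ Finset.range ℓ, (φ^[i]) z
      = c (-((t0 ^ ℓ - u) * (t2 ^ ℓ - u) / (t1 ^ ℓ - u))) := by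
    have h4 : ∀ i : ℕ, (φ^[i]) z = c κ * (φ^[i]) (c t0 - s) * (φ^[i]) (c t2 - s) * (φ^[i]) e := by
      intro i
      rw [hφmul, hφmul, hφmul, hφci]
    rw [Finset.prod_congr rfl fun i _ => h4 i, Finset.prod_mul_distrib, Finset.prod_mul_distrib,
      Finset.prod_mul_distrib, hprod, hprod, hprode, Finset.prod_const, Finset.card_range,
      ← map_pow, ← map_mul, ← map_mul, ← map_mul, hκ]
    congr 1
    rw [div_eq_mul_inv]
    ring
  let S : AdjoinRoot f →ₗ[K] AdjoinRoot f := LinearMap.mulLeft K s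
  let T : AdjoinRoot f →ₗ[K] AdjoinRoot f := (LinearMap.mulLeft K z).comp φ.toLinearMap
  have hS : ∀ v, S v = s * v := fun v => rfl
  have hT : ∀ v, T v = z * φ v := fun v => rfl
  refine ⟨AdjoinRoot f, inferInstance, inferInstance, S, T, ?_, ?_, ?_, ?_⟩
  · rw [(AdjoinRoot.powerBasis' hmon).finrank, AdjoinRoot.powerBasis'_dim, hf,
      natDegree_X_pow_sub_C]
  · intro v
    have hSm : ∀ m : ℕ, (S ^ m) v = s ^ m * v := by
      intro m
      induction m with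
      | zero => simp
      | succ m ih => rw [pow_succ', Module.End.mul_apply, ih, hS, pow_succ', mul_assoc]
    rw [hSm, hsl, Algebra.smul_def]
  · intro v
    have hTm : ∀ m : ℕ, (T ^ m) v = (∏ i ∈ Finset.range m, (φ^[i]) z) * (φ^[m]) v := by
      intro m
      induction m with
      | zero => simp
      | succ m ih =>
        rw [pow_succ', Module.End.mul_apply, ih, hT, map_mul, map_prod, Finset.prod_range_succ',
          Function.iterate_succ_apply']
        have h5 : (φ^[0]) z = z := rfl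
        rw [h5]
        have h6 : ∀ i : ℕ, φ ((φ^[i]) z) = (φ^[i + 1]) z := fun i =>
          (Function.iterate_succ_apply' φ i z).symm
        rw [Finset.prod_congr rfl fun i _ => h6 i]
        ring
    rw [hTm, hprodz, hφl, Algebra.smul_def]
  · intro v
    rw [hT, hS, hS, hT, map_mul, hφs, Algebra.smul_def]
    change z * (c ζ * s * φ v) = c ζ * (s * (z * φ v))
    ring

end Pool.Agent.Helper12.SN
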