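import Mathlib

set_option autoImplicit false

/-!
# SB-N-11: the symbol lemma

`K` contains a primitive `ℓ`-th root of unity `ζ`; `S, T` operators on a vector space of dimension
`ℓ` with `S^ℓ = u`, `T^ℓ = w`, `T S = ζ S T`, `Y^ℓ - w` irreducible.  Then `u` is a norm from
`K[Y] / (Y^ℓ - w)`.

PROOF.  For `p : K[X]` write `p(T) = aeval T p ∈ End V`.  `(X^ℓ - C w)(T) = 0`.
(1) Choose `v0 ≠ 0` in `V` (`ℓ > 0`).  If `p(T) v0 = 0` then `(X^ℓ - C w) ∣ p`: otherwise `p` and the
irreducible `X^ℓ - C w` are coprime, `a p + b (X^ℓ - C w) = 1`, and `v0 = a(T) p(T) v0 = 0`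
(polynomials in `T` commute).
(2) The linear map `Polynomial.degreeLT K ℓ → V`, `p ↦ p(T) v0`, is injective by (1) (a nonzero
polynomial of degree `< ℓ` is not divisible by `X^ℓ - C w`), and both sides have dimension `ℓ`, so
it is surjective.  Let `g` be a polynomial with `S v0 = g(T) v0`.
(3) `S (p(T) v) = (p.comp (C ζ⁻¹ * X))(T) (S v)` for all `p`, `v`: from `S T = ζ⁻¹ T S`; induction on
`p` (linear in `p`; for `X^n`: `S T^n v = ζ^(-n) T^n S v`).
(4) By induction on `m`: `S^m v0 = (∏ i ∈ range m, g.comp (C (ζ⁻¹ ^ i) * X))(T) v0`: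
`S^(m+1) v0 = S (S^m v0) = (∏ i ∈ range m, g.comp (C (ζ⁻¹ ^ (i+1)) * X))(T) (S v0)` and
`S v0 = g(T) v0`.
(5) For `m = ℓ`: `u v0 = (∏ i ∈ range ℓ, g.comp (C (ζ⁻¹ ^ i) * X))(T) v0`, so by (1)
`(X^ℓ - C w) ∣ ∏ i ∈ range ℓ, g.comp (C (ζ⁻¹ ^ i) * X) - C u`.
(6) `{ζ⁻¹ ^ i | i < ℓ} = {ζ ^ i | i < ℓ}`: `ζ⁻¹ ^ i = ζ ^ (ℓ - i)` for `0 < i`, so the product is the
same (`Finset.prod_bij` or split off `i = 0` and reflect, `Finset.prod_range_reflect`).
(Alternatively apply (1)-(5) after replacing `ζ` by `ζ⁻¹` and the roles accordingly.)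
-/

open Polynomial

namespace Pool.Agent.Helper12.SN

private theorem sym_aux {K : Type} [Field K] {ℓ : ℕ} (hℓ : 0 < ℓ) {ξ : K}
    {V : Type} [AddCommGroup V] [Module K V]
    (hV : Module.finrank K V = ℓ) (S T : V →ₗ[K] V) (u w : K)
    (hS : ∀ v, (S ^ ℓ) v = u • v) (hT : ∀ v, (T ^ ℓ) v = w • v)
    (hTS : ∀ v, S (T v) = ξ • T (S v)) (hirr : Irreducible (X ^ ℓ - C w : K[X])) :
    ∃ g : K[X], (X ^ ℓ - C w) ∣ (∏ i ∈ Finset.range ℓ, g.comp (C (ξ ^ i) * X)) - C u := by
  have hfin : Module.Finite K V := Module.finite_of_finrank_pos (by omega)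
  obtain ⟨v0, hv0⟩ : ∃ v0 : V, v0 ≠ 0 := by
    have : Nontrivial V := Module.nontrivial_of_finrank_pos (R := K) (by omega)
    exact exists_ne 0
  have hzero : aeval T (X ^ ℓ - C w : K[X]) = 0 := by
    ext v
    simp [hT v, Module.algebraMap_end_apply]
  have hinj : ∀ p : K[X], aeval T p v0 = 0 → (X ^ ℓ - C w) ∣ p := by
    intro p hp
    by_contra hnd
    obtain ⟨a, b, hab⟩ := (hirr.coprime_iff_not_dvd.2 hnd)
    apply hv0
    have h1 : aeval T (a * (X ^ ℓ - C w) + b * p) v0 = v0 := by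
      rw [hab]
      simp
    rw [← h1, map_add, map_mul, map_mul, hzero]
    simp [hp]
  have hdeg : (X ^ ℓ - C w : K[X]).natDegree = ℓ := natDegree_X_pow_sub_C
  -- surjectivity
  let Φ : Polynomial.degreeLT K ℓ →ₗ[K] V :=
    { toFun := fun p => aeval T (p : K[X]) v0
      map_add' := by intro p q; simp
      map_smul' := by intro a p; simp }
  have hΦ : Function.Injective Φ := by
    rw [← LinearMap.ker_eq_bot, LinearMap.ker_eq_bot']
    rintro ⟨p, hp⟩ h
    have h1 := hinj p h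
    ext1
    change p = 0
    by_contra hne
    have h2 := natDegree_le_of_dvd h1 hne
    rw [hdeg] at h2
    rw [mem_degreeLT] at hp
    have h3 := (natDegree_lt_iff_degree_lt hne).2 hp
    omega
  have hrank : Module.finrank K (Polynomial.degreeLT K ℓ) = Module.finrank K V := by
    rw [hV, LinearEquiv.finrank_eq (Polynomial.degreeLTEquiv K ℓ), Module.finrank_fin_fun]
  have hΦs : Function.Surjective Φ := by
    have : Module.Finite K (Polynomial.degreeLT K ℓ) :=
      Module.Finite.equiv (Polynomial.degreeLTEquiv K ℓ).symm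
    exact (LinearMap.injective_iff_surjective_of_finrank_eq_finrank hrank).1 hΦ
  obtain ⟨⟨g, _⟩, hg⟩ := hΦs (S v0)
  replace hg : aeval T g v0 = S v0 := hg
  -- commutation
  have hST : ∀ (n : ℕ) (v : V), S ((T ^ n) v) = ξ ^ n • (T ^ n) (S v) := by
    intro n
    induction n with
    | zero => intro v; simp
    | succ n ih =>
      intro v
      rw [pow_succ T, Module.End.mul_apply, ih, hTS, map_smul, smul_smul, Module.End.mul_apply,
        pow_succ]
  have hcomm : ∀ (p : K[X]) (v : V), S (aeval T p v) = aeval T (p.comp (C ξ * X)) (S v) := by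
    intro p v
    induction p using Polynomial.induction_on' with
    | add p q hp hq => simp [hp, hq]
    | monomial n a =>
      rw [← C_mul_X_pow_eq_monomial]
      simp only [map_mul, aeval_C, map_pow, aeval_X, mul_comp, C_comp, pow_comp, X_comp,
        Module.End.mul_apply, Module.algebraMap_end_apply, map_smul, hST, mul_pow]
      rw [← map_pow, Module.algebraMap_end_apply]
  refine ⟨g, hinj _ ?_⟩
  have hm : ∀ m : ℕ, (S ^ m) v0 = aeval T (∏ i ∈ Finset.range m, g.comp (C (ξ ^ i) * X)) v0 := by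
    intro m
    induction m with
    | zero => simp
    | succ m ih =>
      rw [pow_succ', Module.End.mul_apply, ih, hcomm, ← hg, ← Module.End.mul_apply, ← map_mul]
      congr 2
      rw [Finset.prod_range_succ', Polynomial.prod_comp]
      congr 1
      · refine Finset.prod_congr rfl fun i _ => ?_
        rw [comp_assoc]
        congr 1
        simp only [mul_comp, C_comp, X_comp]
        rw [← mul_assoc, ← C_mul, ← pow_succ]
      · simp
  rw [map_sub, LinearMap.sub_apply, ← hm, hS]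
  simp [Module.algebraMap_end_apply]

theorem symbol_lemma {K : Type} [Field K] {ℓ : ℕ} (hℓ : 0 < ℓ) {ζ : K}
    (hζ : IsPrimitiveRoot ζ ℓ) {V : Type} [AddCommGroup V] [Module K V]
    (hV : Module.finrank K V = ℓ) (S T : V →ₗ[K] V) (u w : K) (hu : u ≠ 0)
    (hS : ∀ v, (S ^ ℓ) v = u • v) (hT : ∀ v, (T ^ ℓ) v = w • v)
    (hTS : ∀ v, T (S v) = ζ • S (T v)) (hirr : Irreducible (X ^ ℓ - C w : K[X])) :
    ∃ g : K[X], (X ^ ℓ - C w) ∣ (∏ i ∈ Finset.range ℓ, g.comp (C (ζ ^ i) * X)) - C u := by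
  have hζ0 : ζ ≠ 0 := hζ.ne_zero (by omega)
  obtain ⟨g, hg⟩ := sym_aux hℓ hV S T u w hS hT (fun v => by
    rw [hTS, smul_smul, inv_mul_cancel₀ hζ0, one_smul]) hirr
  refine ⟨g, ?_⟩
  suffices hprod : (∏ i ∈ Finset.range ℓ, g.comp (C (ζ ^ i) * X)) =
      ∏ i ∈ Finset.range ℓ, g.comp (C (ζ⁻¹ ^ i) * X) by rw [hprod]; exact hg
  clear hg hT hS hV hirr
  obtain ⟨m, rfl⟩ : ∃ m, ℓ = m + 1 := ⟨ℓ - 1, by omega⟩
  rw [Finset.prod_range_succ', Finset.prod_range_succ', ← Finset.prod_range_reflect, pow_zero,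
    pow_zero]
  congr 1
  refine Finset.prod_congr rfl fun i hi => ?_
  rw [Finset.mem_range] at hi
  congr 3
  have h1 : ζ ^ (m - 1 - i + 1) * ζ ^ (i + 1) = 1 := by
    rw [← pow_add, show m - 1 - i + 1 + (i + 1) = m + 1 by omega, hζ.pow_eq_one]
  rw [inv_pow, ← mul_eq_one_iff_eq_inv₀ (pow_ne_zero _ hζ0)]
  exact h1

end Pool.Agent.Helper12.SN
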