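import Pool.Agent.Helper12.SN.ExPoly
import Pool.Agent.Helper12.SN.Sym
import Pool.Agent.Helper12.SN.LNorm

set_option autoImplicit false
set_option linter.unusedSectionVars false

/-!
# SB-N-34: `x - x0` is a norm from the function field

PROOF.  `K := RatFunc f`, `ζ := algebraMap f K z` (primitive, `IsPrimitiveRoot.map_of_injective`),
`u := algebraMap (X - C x0) ≠ 0`.  As `f` is algebraically closed choose `κ, t_0, t_1, t_2 : f` with
`κ^ℓ = -1`, `t_i^ℓ = c i - x0` (`IsAlgClosed.exists_pow_nat_eq`, `0 < ℓ`), mapped to `K`.  Then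
`t_i^ℓ - u = C (c i) - X` (in `K`), nonzero, and
`-((t_0^ℓ - u) (t_2^ℓ - u) / (t_1^ℓ - u)) = (X - C (c 0)) (X - C (c 2)) / (X - C (c 1)) = wK c`.
`exists_ST` gives `V, S, T`; `symbol_lemma` with `w = wK c` (`wK_irreducible`) gives `g : K[X]` with
`X^ℓ - C (wK c) ∣ ∏ g.comp (C (ζ^i) * X) - C u`; `exists_of_poly`.
-/

open Polynomial

namespace Pool.Agent.Helper12.SN

variable {ℓ : ℕ} [Fact ℓ.Prime] {f : Type} [Field f] {c : Fin 3 → f}

theorem exists_norm_eq [IsAlgClosed f] {z : f} (hζ : IsPrimitiveRoot z ℓ) (x0 : f) :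
    ∃ (r : RR ℓ c) (q : f[X]), q ≠ 0 ∧
      nm z hζ.pow_eq_one r = (X - C x0) * q ^ ℓ := by
  have hℓp : ℓ.Prime := Fact.out
  have hℓ0 : 0 < ℓ := hℓp.pos
  obtain ⟨κ, hκ⟩ := IsAlgClosed.exists_pow_nat_eq (-1 : f) hℓ0
  obtain ⟨t0, ht0⟩ := IsAlgClosed.exists_pow_nat_eq (c 0 - x0) hℓ0
  obtain ⟨t1, ht1⟩ := IsAlgClosed.exists_pow_nat_eq (c 1 - x0) hℓ0
  obtain ⟨t2, ht2⟩ := IsAlgClosed.exists_pow_nat_eq (c 2 - x0) hℓ0
  let m : f →+* RatFunc f := algebraMap f (RatFunc f)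
  let M : f[X] →+* RatFunc f := algebraMap f[X] (RatFunc f)
  have hmM : ∀ a : f, m a = M (C a) := fun a => rfl
  have hζ' : IsPrimitiveRoot (algebraMap f (RatFunc f) z) ℓ :=
    hζ.map_of_injective (algebraMap f (RatFunc f)).injective
  have hM : Function.Injective M := IsFractionRing.injective f[X] (RatFunc f)
  have hu : M (X - C x0) ≠ 0 := by
    rw [ne_eq, map_eq_zero_iff M hM]
    exact X_sub_C_ne_zero x0
  have key : ∀ (t a : f), t ^ ℓ = a - x0 → (m t) ^ ℓ - M (X - C x0) = -M (X - C a) := by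
    intro t a h
    rw [← map_pow, h, hmM, ← map_sub, ← map_neg]
    congr 1
    rw [C_sub]
    ring
  have h1 : (m t1) ^ ℓ - M (X - C x0) ≠ 0 := by
    rw [key t1 (c 1) ht1, neg_ne_zero, ne_eq, map_eq_zero_iff M hM]
    exact X_sub_C_ne_zero (c 1)
  have hκ' : (m κ) ^ ℓ = -1 := by
    rw [← map_pow, hκ, map_neg, map_one]
  obtain ⟨V, hV1, hV2, S, T, hfin, hS, hT, hTS⟩ :=
    exists_ST hℓ0 hζ' (M (X - C x0)) (m κ) (m t0) (m t1) (m t2) hκ' hu h1
  have hw : -(((m t0) ^ ℓ - M (X - C x0)) * ((m t2) ^ ℓ - M (X - C x0)) /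
      ((m t1) ^ ℓ - M (X - C x0))) = wK c := by
    rw [key t0 (c 0) ht0, key t1 (c 1) ht1, key t2 (c 2) ht2, neg_mul_neg, div_neg, neg_neg]
    rw [← map_mul]
    rfl
  rw [hw] at hT
  obtain ⟨g, hg⟩ := symbol_lemma hℓ0 hζ' hfin S T (M (X - C x0)) (wK c) hu hS hT hTS
    (wK_irreducible ℓ hℓp c)
  exact exists_of_poly hζ (X - C x0) g hg

end Pool.Agent.Helper12.SN
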