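import Pool.Agent.Helper12.SN.NormCl
import Pool.Agent.Helper12.SN.XNorm

set_option autoImplicit false
set_option linter.unusedSectionVars false

/-!
# SB-N-35: N11, `1 - ρ` is surjective on the class group

PROOF.  Let `H := (pi1 z _).range`, a subgroup of the class group; write `ρ = clm rot`.
(1) For every ideal `I ≠ ⊥`: `cl (I.map (rot^k)) ∈ cl I * H`: `cl I / cl (I.map (rot^k))` is
`∏ i ∈ range k, ρ^i (π (cl I)) ∈ H` (`ρ` maps `H` to `H`; induction on `k`:
`cl (I.map rot) = ρ (cl I) = cl I / π (cl I)`).  So by `exists_rot_eq`: if `P, Q` are maximal over the same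
`x0`, `cl P / cl Q ∈ H`.
(2) `y^ℓ ∈ H` for every class `y` (`exists_pi1_eq_pow`).
(3) Claim: for every monic `n : f[X]` and every ideal `I ≠ ⊥` with `nI I = span {algebraMap n}` and every
function `P : f → Ideal` choosing a maximal ideal `P x0` over each `x0` (exists: the ideal
`span {algebraMap (X - C x0)}` is proper, e.g. because its norm is; `Ideal.exists_le_maximal`):
`cl I / (n.roots.map (fun x0 => cl (P x0))).prod ∈ H`.  Induction on the prime factors of `I`
(`UniqueFactorizationMonoid.induction_on_prime`): `I = ⊤`: `n = 1` (monic and a unit in `RR`, so a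
constant: `unit_eq_con`).  `I = Q * J`, `Q` maximal over `x1`, `nI J = span {algebraMap m}`, `m` monic
(`exists_nI`): `span {algebraMap n} = span {algebraMap ((X - C x1) * m)}`, both monic, so equal (they differ by
a unit of `RR`, a constant; compare `lc_algebraMap`); `roots_mul`, `roots_X_sub_C`, (1).
(4) Let `x0 : f`; `exists_norm_eq`: `r`, `q ≠ 0`, `nm r = (X - C x0) * q^ℓ`; `r ≠ 0`.  `I := span {r}`,
`nI I = span {algebraMap (nm r)}` (`nI_span`).  Let `n := C (lc)⁻¹ * nm r` be the monic associate,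
`n.roots = {x0} + ℓ • q.roots`.  By (3) and (2), with `cl I = 1`: `cl (P x0) ∈ H`.
(5) Every class is `cl I`, `I ≠ ⊥`, a product of classes of maximal ideals `Q` (induction on prime
factors); `Q` is over some `x0` (`exists_xc`), `cl Q ∈ cl (P x0) * H = H` (1), (4).  So `H = ⊤`.
-/

open Polynomial

namespace Pool.Agent.Helper12.SN

variable {ℓ : ℕ} [Fact ℓ.Prime] {f : Type} [Field f] {c : Fin 3 → f} [IsAlgClosed f] [Good ℓ c]

private theorem div_dvd {a b : f[X]}
    (h : algebraMap f[X] (RR ℓ c) a ∣ algebraMap f[X] (RR ℓ c) b) : a ∣ b := by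
  obtain ⟨r, hr⟩ := h
  refine ⟨r 0, ?_⟩
  rw [← Algebra.smul_def] at hr
  have h1 := congrArg (fun s : RR ℓ c => s 0) hr
  simpa only [smul_ap, algebraMap_ap, if_true] using h1

private theorem div_roots {a b : f[X]} (ha : a ≠ 0) (hb : b ≠ 0)
    (h : Ideal.span {algebraMap f[X] (RR ℓ c) a} = Ideal.span {algebraMap f[X] (RR ℓ c) b}) :
    a.roots = b.roots :=
  le_antisymm (roots.le_of_dvd hb (div_dvd (Ideal.span_singleton_le_span_singleton.1 h.ge)))
    (roots.le_of_dvd ha (div_dvd (Ideal.span_singleton_le_span_singleton.1 h.le)))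

private theorem div_rot {z : f} (hζ : IsPrimitiveRoot z ℓ) (k : ℕ) {I : Ideal (RR ℓ c)}
    (hI : I ≠ ⊥) : cl I / cl (I.map (rot z hζ.pow_eq_one ^ k : RR ℓ c ≃+* RR ℓ c)) ∈
      (pi1 z hζ.pow_eq_one : ClassGroup (RR ℓ c) →* _).range := by
  induction k with
  | zero =>
    have h1 : I.map (rot z hζ.pow_eq_one ^ 0 : RR ℓ c ≃+* RR ℓ c) = I := by
      rw [pow_zero]
      exact Ideal.map_id I
    rw [h1, div_self']
    exact one_mem _
  | succ k ih =>
    set J := I.map (rot z hζ.pow_eq_one ^ k : RR ℓ c ≃+* RR ℓ c) with hJ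
    have hJne : J ≠ ⊥ := map_ne_bot _ hI
    have h1 : I.map (rot z hζ.pow_eq_one ^ (k + 1) : RR ℓ c ≃+* RR ℓ c) =
        J.map (rot z hζ.pow_eq_one) := by
      rw [hJ, pow_succ']
      exact (Ideal.map_map (rot z hζ.pow_eq_one ^ k : RR ℓ c ≃+* RR ℓ c).toRingHom
        (rot z hζ.pow_eq_one : RR ℓ c ≃+* RR ℓ c).toRingHom).symm
    rw [h1, ← clm_cl _ hJne, ← div_mul_div_cancel (cl I) (cl J), ← pi1_ap]
    exact mul_mem ih ⟨cl J, rfl⟩

private theorem div_max {z : f} (hζ : IsPrimitiveRoot z ℓ) {P Q : Ideal (RR ℓ c)}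
    (hP : P.IsMaximal) (hQ : Q.IsMaximal) {x0 : f}
    (h0 : algebraMap f[X] (RR ℓ c) (X - C x0) ∈ P)
    (h1 : algebraMap f[X] (RR ℓ c) (X - C x0) ∈ Q) :
    cl P / cl Q ∈ (pi1 z hζ.pow_eq_one : ClassGroup (RR ℓ c) →* _).range := by
  obtain ⟨k, rfl⟩ := exists_rot_eq hζ hP hQ h0 h1
  exact div_rot hζ k (ne_bot_of_isMaximal hP)

private theorem div_exists (x0 : f) : ∃ P : Ideal (RR ℓ c), P.IsMaximal ∧
    algebraMap f[X] (RR ℓ c) (X - C x0) ∈ P := by
  have h : Ideal.span {algebraMap f[X] (RR ℓ c) (X - C x0)} ≠ ⊤ := by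
    intro h
    have h1 : algebraMap f[X] (RR ℓ c) (X - C x0) ∣ algebraMap f[X] (RR ℓ c) 1 := by
      rw [map_one]
      exact isUnit_iff_dvd_one.1 (Ideal.span_singleton_eq_top.1 h)
    exact (not_isUnit_X_sub_C x0) (isUnit_iff_dvd_one.2 (div_dvd h1))
  obtain ⟨P, hP, hle⟩ := Ideal.exists_le_maximal _ h
  exact ⟨P, hP, hle (Ideal.mem_span_singleton_self _)⟩

private theorem div_claim {z : f} (hζ : IsPrimitiveRoot z ℓ) (P : f → Ideal (RR ℓ c))
    (hP : ∀ x0, (P x0).IsMaximal)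
    (hP' : ∀ x0, algebraMap f[X] (RR ℓ c) (X - C x0) ∈ P x0) {I : Ideal (RR ℓ c)} (hI : I ≠ ⊥) :
    ∃ n : f[X], n.Monic ∧ nI z hζ.pow_eq_one I = Ideal.span {algebraMap f[X] (RR ℓ c) n} ∧
      cl I / (n.roots.map (fun x0 => cl (P x0))).prod ∈
        (pi1 z hζ.pow_eq_one : ClassGroup (RR ℓ c) →* _).range := by
  revert hI
  induction I using UniqueFactorizationMonoid.induction_on_prime with
  | h₁ => exact fun h => absurd rfl h
  | h₂ I hI =>
    intro _
    refine ⟨1, monic_one, ?_, ?_⟩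
    · rw [Ideal.isUnit_iff.1 hI, nI_top, map_one, Ideal.span_singleton_one]
    · rw [Ideal.isUnit_iff.1 hI, cl_top, roots_one, Multiset.empty_eq_zero, Multiset.map_zero,
        Multiset.prod_zero, div_self']
      exact one_mem _
  | h₃ J Q hJ hQ ih =>
    intro _
    obtain ⟨n, hn, hnJ, hnc⟩ := ih hJ
    have hQne : Q ≠ ⊥ := hQ.ne_zero
    have hQm : Q.IsMaximal := (Ideal.isPrime_of_prime hQ).isMaximal hQne
    obtain ⟨x0, hx0⟩ := exists_xc hQm
    refine ⟨(X - C x0) * n, (monic_X_sub_C x0).mul hn, ?_, ?_⟩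
    · rw [nI_mul, nI_point hζ hQm hx0, hnJ, Ideal.span_singleton_mul_span_singleton, ← map_mul]
    · rw [roots_mul (mul_ne_zero (X_sub_C_ne_zero x0) hn.ne_zero), roots_X_sub_C, Multiset.map_add,
        Multiset.map_singleton, Multiset.prod_add, Multiset.prod_singleton, cl_mul hQne hJ,
        mul_div_mul_comm]
      exact mul_mem (div_max hζ hQm (hP x0) hx0 (hP' x0)) hnc

/-- N11: `1 - ρ` is surjective -/
theorem pi1_surjective {z : f} (hζ : IsPrimitiveRoot z ℓ) :
    Function.Surjective (pi1 z hζ.pow_eq_one : ClassGroup (RR ℓ c) →* _) := by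
  have hℓ : ℓ.Prime := Fact.out
  choose P hP hP' using fun x0 : f => div_exists (ℓ := ℓ) (c := c) x0
  set H := (pi1 z hζ.pow_eq_one : ClassGroup (RR ℓ c) →* _).range with hH
  -- the classes of the points
  have hpt : ∀ x0 : f, cl (P x0) ∈ H := by
    intro x0
    obtain ⟨r, q, hq, hr⟩ := exists_norm_eq (c := c) hζ x0
    have hne : nm z hζ.pow_eq_one r ≠ 0 := by
      rw [hr]
      exact mul_ne_zero (X_sub_C_ne_zero x0) (pow_ne_zero _ hq)
    have hr0 : r ≠ 0 := by
      rintro rfl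
      apply hne
      have h0 := nm_algebraMap (c := c) hζ (0 : f[X])
      rwa [map_zero, zero_pow hℓ.ne_zero] at h0
    obtain ⟨n, hn, hnI, hc⟩ := div_claim hζ P hP hP' (I := Ideal.span {r})
      (by rwa [Ne, Ideal.span_singleton_eq_bot])
    rw [nI_span hζ] at hnI
    have hroots := div_roots hne hn.ne_zero hnI
    rw [hr, roots_mul (by rw [← hr]; exact hne), roots_X_sub_C, roots_pow] at hroots
    rw [← hroots, cl_span hr0, Multiset.map_add, Multiset.map_singleton, Multiset.prod_add,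
      Multiset.prod_singleton, Multiset.map_nsmul, Multiset.prod_nsmul, one_div] at hc
    obtain ⟨y, hy⟩ := exists_pi1_eq_pow hζ (q.roots.map fun x0 => cl (P x0)).prod
    have h2 := H.inv_mem hc
    rw [inv_inv] at h2
    have h3 := H.div_mem h2 ⟨y, hy⟩
    rwa [mul_div_cancel_right] at h3
  intro x
  obtain ⟨I, hI, rfl⟩ := cl_surj x
  suffices h : cl I ∈ H from h
  revert hI
  induction I using UniqueFactorizationMonoid.induction_on_prime with
  | h₁ => exact fun h => absurd rfl h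
  | h₂ I hI =>
    intro _
    rw [Ideal.isUnit_iff.1 hI, cl_top]
    exact one_mem _
  | h₃ J Q hJ hQ ih =>
    intro _
    have hQne : Q ≠ ⊥ := hQ.ne_zero
    have hQm : Q.IsMaximal := (Ideal.isPrime_of_prime hQ).isMaximal hQne
    obtain ⟨x0, hx0⟩ := exists_xc hQm
    rw [cl_mul hQne hJ]
    refine mul_mem ?_ (ih hJ)
    have h1 := mul_mem (div_max hζ hQm (hP x0) hx0 (hP' x0)) (hpt x0)
    rwa [div_mul_cancel] at h1

end Pool.Agent.Helper12.SN
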