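import Pool.Agent.Helper12.SN.NIpt

set_option autoImplicit false
set_option linter.unusedSectionVars false

/-!
# SB-N-23: the norm of an ideal is generated by a polynomial; the divisor of `(x - c 1) y`

`exists_nI`: induction on the prime factors of `I ≠ ⊥` (`UniqueFactorizationMonoid.induction_on_prime`):
`I = ⊤`: `nI_top`, `n = 1`.  `I = P * J`, `P` prime, nonzero, hence maximal: `exists_xc`, `nI_point`,
`nI_mul`, `Ideal.span_singleton_mul_span_singleton`, product of monic polynomials.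
`span_uu_one`: the `ℓ`-th powers agree: `(uu 1)^ℓ = algebraMap (al^(ℓ-1) * be)` (`uu_pow_ell`, `1 ≠ 0`
in `ZMod ℓ`, `(1 : ZMod ℓ).val = 1`) and `al = X - C (c 1)`, `be = (X - C (c 0)) (X - C (c 2))`, `pp_pow`.
Two nonzero ideals `I, J` of a Dedekind domain with `I^ℓ = J^ℓ`, `ℓ ≠ 0`, are equal
(`normalizedFactors_pow`, `nsmul` on multisets is injective; or `pow_dvd_pow_iff`).
-/

open Polynomial

namespace Pool.Agent.Helper12.SN

variable {ℓ : ℕ} [Fact ℓ.Prime] {f : Type} [Field f] {c : Fin 3 → f}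

open UniqueFactorizationMonoid in
private theorem exNI_pow_inj {R : Type} [CommRing R] [IsDedekindDomain R] {I J : Ideal R} (hI : I ≠ ⊥)
    (hJ : J ≠ ⊥) {n : ℕ} (hn : n ≠ 0) (h : I ^ n = J ^ n) : I = J := by
  classical
  have h1 : n • normalizedFactors I = n • normalizedFactors J := by
    rw [← normalizedFactors_pow, ← normalizedFactors_pow, h]
  have h2 : normalizedFactors I = normalizedFactors J := by
    ext a
    have h3 := congrArg (Multiset.count a) h1
    rw [Multiset.count_nsmul, Multiset.count_nsmul] at h3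
    exact Nat.eq_of_mul_eq_mul_left (Nat.pos_of_ne_zero hn) h3
  rw [← Ideal.prod_normalizedFactors_eq_self hI, h2, Ideal.prod_normalizedFactors_eq_self hJ]

/-- `((x - c 1) y) = p_0 p_2 p_1 ^ (ℓ - 1)` -/
theorem span_uu_one [IsAlgClosed f] [Good ℓ c] :
    Ideal.span {(uu 1 : RR ℓ c)} = pp c 0 * pp c 2 * pp c 1 ^ (ℓ - 1) := by
  have hℓ : ℓ.Prime := Fact.out
  have hval : (1 : ZMod ℓ).val = 1 := by
    rw [ZMod.val_one_eq_one_mod]
    exact Nat.mod_eq_of_lt hℓ.one_lt
  have h10 : (1 : ZMod ℓ) ≠ 0 := one_ne_zero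
  have hinj := algebraMap_injective (ℓ := ℓ) (c := c)
  have hne : ∀ i, (algebraMap f[X] (RR ℓ c)) (X - C (c i)) ≠ 0 := fun i h => by
    rw [← map_zero (algebraMap f[X] (RR ℓ c))] at h
    exact X_sub_C_ne_zero (c i) (hinj h)
  have hpp : ∀ i, (pp c i : Ideal (RR ℓ c)) ≠ ⊥ := fun i => ne_bot_of_isMaximal (pp_isMaximal i)
  have hpow := uu_pow_ell (c := c) h10
  rw [hval, pow_one] at hpow
  have huu : (uu 1 : RR ℓ c) ≠ 0 := by
    intro h
    rw [h, zero_pow hℓ.ne_zero, ← map_zero (algebraMap f[X] (RR ℓ c))] at hpow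
    have h1 := hinj hpow
    unfold al be at h1
    exact mul_ne_zero (pow_ne_zero _ (X_sub_C_ne_zero _)) (mul_ne_zero (X_sub_C_ne_zero _) (X_sub_C_ne_zero _))
      h1.symm
  refine exNI_pow_inj ?_ ?_ hℓ.ne_zero ?_
  · rw [Ne, Ideal.span_singleton_eq_bot]
    exact huu
  · rw [← Ideal.zero_eq_bot]
    refine mul_ne_zero (mul_ne_zero ?_ ?_) (pow_ne_zero _ ?_)
    · exact hpp 0
    · exact hpp 2
    · exact hpp 1
  · rw [Ideal.span_singleton_pow, hpow, mul_pow, mul_pow, ← pow_mul, mul_comm (ℓ - 1) ℓ, pow_mul, pp_pow, pp_pow,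
      pp_pow, Ideal.span_singleton_pow, Ideal.span_singleton_mul_span_singleton,
      Ideal.span_singleton_mul_span_singleton, ← map_pow, ← map_mul, ← map_mul]
    congr 2
    unfold al be
    rw [mul_comm]

/-- the norm of an ideal is generated by a polynomial in `x` -/
theorem exists_nI [IsAlgClosed f] [Good ℓ c] {z : f} (hζ : IsPrimitiveRoot z ℓ)
    {I : Ideal (RR ℓ c)} (hI : I ≠ ⊥) : ∃ n : f[X], n.Monic ∧
      nI z hζ.pow_eq_one I = Ideal.span {algebraMap f[X] (RR ℓ c) n} := by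
  revert hI
  induction I using UniqueFactorizationMonoid.induction_on_prime with
  | h₁ => exact fun h => absurd rfl h
  | h₂ I hI =>
    intro _
    refine ⟨1, monic_one, ?_⟩
    rw [Ideal.isUnit_iff.1 hI, nI_top, map_one, Ideal.span_singleton_one]
  | h₃ J P hJ hP ih =>
    intro _
    obtain ⟨n, hn, hnJ⟩ := ih hJ
    have hPne : P ≠ ⊥ := hP.ne_zero
    have hPm : P.IsMaximal := (Ideal.isPrime_of_prime hP).isMaximal hPne
    obtain ⟨x0, hx0⟩ := exists_xc hPm
    refine ⟨(X - C x0) * n, (monic_X_sub_C x0).mul hn, ?_⟩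
    rw [nI_mul, nI_point hζ hPm hx0, hnJ, Ideal.span_singleton_mul_span_singleton, ← map_mul]

end Pool.Agent.Helper12.SN
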