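import Pool.Agent.Helper12.SN.Tau

set_option autoImplicit false
set_option linter.unusedSectionVars false

/-!
# SB-N-32: `w = (x - c 0) (x - c 2) / (x - c 1)` is no `ℓ`-th power in `f(x)`

`X_pow_sub_C_irreducible_of_prime`: it is enough that `b ^ ℓ ≠ wK c` for all `b : RatFunc f`.  If
`b ^ ℓ = wK c` then `b ≠ 0` and `ℓ * intDegree b = intDegree (wK c) = 2 - 1 = 1`
(`RatFunc.intDegree_mul`, `intDegree_polynomial`, `intDegree_inv`; `natDegree (be c) = 2`,
`natDegree (al c) = 1`), impossible for `ℓ ≥ 2`.  (Or with numerators and denominators: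
`b = p / q`: `p^ℓ * al c = q^ℓ * be c`, degrees `ℓ deg p + 1 = ℓ deg q + 2`.)
-/

open Polynomial

namespace Pool.Agent.Helper12.SN

variable {f : Type} [Field f]

/-- `w = (x - c 0) (x - c 2) / (x - c 1)` as a rational function -/
noncomputable def wK (c : Fin 3 → f) : RatFunc f :=
  algebraMap f[X] (RatFunc f) (be c) / algebraMap f[X] (RatFunc f) (al c)

/-- `w` is no `ℓ`-th power -/
theorem wK_irreducible (ℓ : ℕ) (hℓ : ℓ.Prime) (c : Fin 3 → f) :
    Irreducible (X ^ ℓ - C (wK c) : (RatFunc f)[X]) := by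
  apply X_pow_sub_C_irreducible_of_prime hℓ
  intro b hb
  have hal : (al c) ≠ 0 := by
    unfold al
    exact X_sub_C_ne_zero _
  have hbe : (be c) ≠ 0 := by
    unfold be
    exact mul_ne_zero (X_sub_C_ne_zero _) (X_sub_C_ne_zero _)
  have hal' : algebraMap f[X] (RatFunc f) (al c) ≠ 0 := by
    rw [Ne, map_eq_zero_iff _ (RatFunc.algebraMap_injective f)]
    exact hal
  have hbe' : algebraMap f[X] (RatFunc f) (be c) ≠ 0 := by
    rw [Ne, map_eq_zero_iff _ (RatFunc.algebraMap_injective f)]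
    exact hbe
  have hda : (al c).natDegree = 1 := by
    unfold al
    exact natDegree_X_sub_C _
  have hdb : (be c).natDegree = 2 := by
    unfold be
    rw [natDegree_mul (X_sub_C_ne_zero _) (X_sub_C_ne_zero _), natDegree_X_sub_C,
      natDegree_X_sub_C]
  have hb0 : b ≠ 0 := by
    rintro rfl
    rw [zero_pow hℓ.ne_zero] at hb
    exact div_ne_zero hbe' hal' hb.symm
  have hw : RatFunc.intDegree (wK c) = 1 := by
    unfold wK
    rw [div_eq_mul_inv, RatFunc.intDegree_mul hbe' (inv_ne_zero hal'), RatFunc.intDegree_inv,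
      RatFunc.intDegree_polynomial, RatFunc.intDegree_polynomial, hda, hdb]
    norm_num
  have hp : ∀ n : ℕ, RatFunc.intDegree (b ^ n) = n * RatFunc.intDegree b := by
    intro n
    induction n with
    | zero => rw [pow_zero, RatFunc.intDegree_one, Nat.cast_zero, zero_mul]
    | succ n ih =>
      rw [pow_succ, RatFunc.intDegree_mul (pow_ne_zero n hb0) hb0, ih]
      push_cast
      ring
  have h1 := hp ℓ
  rw [hb, hw] at h1
  have h2 : (ℓ : ℤ) ∣ 1 := ⟨_, h1⟩
  have h3 : ℓ ∣ 1 := by exact_mod_cast h2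
  exact hℓ.one_lt.ne' (Nat.dvd_one.1 h3)

end Pool.Agent.Helper12.SN
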