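import Pool.Agent.Helper12.SN.Norm
import Pool.Agent.Helper12.SN.WIrr

set_option autoImplicit false
set_option linter.unusedSectionVars false

/-!
# SB-N-33: from a polynomial in `y` with norm `u` to an element of `RR ℓ c`

PROOF.  `K := RatFunc f`, `L := AdjoinRoot (X ^ ℓ - C (wK c) : K[X])`, `y := root`, `x :=` image of
`RatFunc.X`.  `y^ℓ = wK c`, so `y^ℓ (x - c 1) = (x - c 0) (x - c 2)` in `L` (`al c ≠ 0`).  `L` is a field
(`wK_irreducible`), `K → L` injective.
(1) For every `i`: `(z^i y)^ℓ (x - c 1) = (x - c 0) (x - c 2)`, so there is the ring homomorphism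
`e_i := ev φ x (z^i y) _ : RR ℓ c →+* L` with `φ : f →+* L`, and `e_0 (rot^i r) = e_i r`
(`ev_ap`, `rot_pow_ap`, `uval φ c x (z^i y) j = z^(i j.val) uval φ c x y j`).  On `algebraMap p`,
`p : f[X]`, `e_0` is `p ↦ p(x)`, the composite of the injective maps `f[X] → K → L`.
(2) Replace `g` by its remainder modulo `X^ℓ - C (wK c)` (monic): `g ≡ g'` implies
`g.comp (C (z^i) X) ≡ g'.comp (C (z^i) X)` because `(z^i X)^ℓ - w = X^ℓ - w`.  Or avoid this: only the
values `g(z^i y) ∈ L` matter, and every element of `L` is `∑ j : ZMod ℓ, a_j y^(j.val)`, `a_j ∈ K`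
(power basis; `(g %ₘ (X^ℓ - C w))`).  Note `g(z^i y) = ∑ j, a_j z^(i j.val) y^(j.val)` if
`g(y) = ∑ a_j y^(j.val)` (same remainder).
(3) Common denominator: `q0 ∈ f[X]`, `q0 ≠ 0`, with `q0 a_j ∈ f[X]` for all `j`, say `q0 a_j = p_j`.
Put `r : RR ℓ c`, `r 0 = al c * p_0`, `r j = p_j` for `j ≠ 0`.  Then
`e_i r = ∑ j, r_j(x) uval j = al(x) * q0(x) * g(z^i y)` (`uval j = (x - c 1) (z^i y)^(j.val)` for
`j ≠ 0`, `uval 0 = 1`).
(4) `algebraMap (nm r) = ∏ i ∈ range ℓ, rot^i r` (`algebraMap_nm`); apply `e_0`: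
`nm r (x) = ∏ e_i r = (al(x) q0(x))^ℓ ∏ g(z^i y) = (al(x) q0(x))^ℓ u(x)` by the hypothesis `hg`
(evaluate at `y`: `X^ℓ - C w` vanishes; `g.comp (C (z^i) * X)` at `y` is `g(z^i y)`).  By injectivity
`nm r = u * (al c * q0)^ℓ`; `q := al c * q0 ≠ 0`.
-/

open Polynomial

namespace Pool.Agent.Helper12.SN

variable {ℓ : ℕ} [Fact ℓ.Prime] {f : Type} [Field f] {c : Fin 3 → f}

private theorem exPoly_sum {M : Type} [AddCommMonoid M] (F : ℕ → M) :
    ∑ j : ZMod ℓ, F j.val = ∑ m ∈ Finset.range ℓ, F m := by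
  have hne : NeZero ℓ := inferInstance
  refine Finset.sum_nbij' (fun j => j.val) (fun m => (m : ZMod ℓ)) ?_ ?_ ?_ ?_ ?_
  · exact fun j _ => Finset.mem_range.2 (ZMod.val_lt j)
  · exact fun m _ => Finset.mem_univ _
  · exact fun j _ => ZMod.natCast_zmod_val j
  · exact fun m hm => ZMod.val_natCast_of_lt (Finset.mem_range.1 hm)
  · exact fun j _ => rfl

/-- The abstract computation: `L` is a field with a point `(x, y)`. -/
private theorem exPoly_core {z : f} (hζ : IsPrimitiveRoot z ℓ) (u : f[X]) (g : (RatFunc f)[X])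
    {L : Type} [Field L] [Algebra (RatFunc f) L] (y : L) (hy : y ^ ℓ = algebraMap (RatFunc f) L (wK c))
    (hg : ∏ i ∈ Finset.range ℓ, g.eval₂ (algebraMap (RatFunc f) L)
      (algebraMap (RatFunc f) L (algebraMap f (RatFunc f) z) ^ i * y) =
        algebraMap (RatFunc f) L (algebraMap f[X] (RatFunc f) u)) :
    ∃ (r : RR ℓ c) (q : f[X]), q ≠ 0 ∧ nm z hζ.pow_eq_one r = u * q ^ ℓ := by
  classical
  have hℓ : ℓ.Prime := Fact.out
  -- the maps
  obtain ⟨T, hT⟩ : ∃ T : f[X] →+* L, T = (algebraMap (RatFunc f) L).comp (algebraMap f[X] (RatFunc f)) := ⟨_, rfl⟩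
  have hTap : ∀ p, algebraMap (RatFunc f) L (algebraMap f[X] (RatFunc f) p) = T p := fun p => by rw [hT]; rfl
  have hTinj : Function.Injective T := by
    rw [hT]
    exact (algebraMap (RatFunc f) L).injective.comp (IsFractionRing.injective f[X] (RatFunc f))
  obtain ⟨φ, hφ⟩ : ∃ φ : f →+* L, φ = T.comp C := ⟨_, rfl⟩
  have hφap : ∀ a, T (C a) = φ a := fun a => by rw [hφ]; rfl
  have hev : ∀ p : f[X], p.eval₂ φ (T X) = T p := by
    intro p
    have h1 : (Polynomial.eval₂RingHom φ (T X)) = T := by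
      apply Polynomial.ringHom_ext
      · intro a
        rw [Polynomial.coe_eval₂RingHom, Polynomial.eval₂_C, hφap]
      · rw [Polynomial.coe_eval₂RingHom, Polynomial.eval₂_X]
    exact congrArg (fun h : f[X] →+* L => h p) h1
  have hal0 : al c ≠ 0 := X_sub_C_ne_zero _
  have hTal : T (al c) = T X - φ (c 1) := by
    unfold al
    rw [map_sub, hφap]
  have hTbe : T (be c) = (T X - φ (c 0)) * (T X - φ (c 2)) := by
    unfold be
    rw [map_mul, map_sub, map_sub, hφap, hφap]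
  have hwal : algebraMap (RatFunc f) L (wK c) * T (al c) = T (be c) := by
    rw [← hTap, ← hTap, ← map_mul]
    congr 1
    unfold wK
    rw [div_mul_cancel₀]
    intro h
    rw [← map_zero (algebraMap f[X] (RatFunc f))] at h
    exact hal0 (IsFractionRing.injective f[X] (RatFunc f) h)
  -- the root of unity
  have hz : algebraMap (RatFunc f) L (algebraMap f (RatFunc f) z) = φ z := by
    rw [← hφap, ← hTap, IsScalarTower.algebraMap_apply f f[X] (RatFunc f) z]
    rfl
  rw [hz] at hg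
  have hzl : φ z ^ ℓ = 1 := by rw [← map_pow, hζ.pow_eq_one, map_one]
  have hYl : ∀ i : ℕ, (φ z ^ i * y) ^ ℓ = algebraMap (RatFunc f) L (wK c) := by
    intro i
    rw [mul_pow, ← pow_mul, mul_comm i ℓ, pow_mul, hzl, one_pow, one_mul, hy]
  have hpt : ∀ i : ℕ, (φ z ^ i * y) ^ ℓ * (T X - φ (c 1)) = (T X - φ (c 0)) * (T X - φ (c 2)) := by
    intro i
    rw [hYl, ← hTal, hwal, hTbe]
  -- the polynomial
  have hWm : (X ^ ℓ - C (wK c) : (RatFunc f)[X]).Monic := monic_X_pow_sub_C _ hℓ.ne_zero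
  obtain ⟨g', hg'⟩ : ∃ g' : (RatFunc f)[X], g' = g %ₘ (X ^ ℓ - C (wK c) : (RatFunc f)[X]) := ⟨_, rfl⟩
  have hgdeg : g'.natDegree < ℓ := by
    rw [hg']
    have h1 := Polynomial.natDegree_modByMonic_lt g hWm (by
      intro h
      have h2 := congrArg Polynomial.natDegree h
      rw [Polynomial.natDegree_X_pow_sub_C, Polynomial.natDegree_one] at h2
      exact hℓ.ne_zero h2)
    rwa [Polynomial.natDegree_X_pow_sub_C] at h1
  have hgY : ∀ i : ℕ, g.eval₂ (algebraMap (RatFunc f) L) (φ z ^ i * y) =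
      ∑ m ∈ Finset.range ℓ, algebraMap (RatFunc f) L (g'.coeff m) * (φ z ^ i * y) ^ m := by
    intro i
    rw [← Polynomial.eval₂_eq_sum_range' _ hgdeg]
    have h1 := Polynomial.modByMonic_add_div g (X ^ ℓ - C (wK c) : (RatFunc f)[X])
    rw [← hg'] at h1
    conv_lhs => rw [← h1]
    rw [Polynomial.eval₂_add, Polynomial.eval₂_mul, Polynomial.eval₂_sub, Polynomial.eval₂_X_pow,
      Polynomial.eval₂_C, hYl, sub_self, zero_mul, add_zero]
  obtain ⟨b, hb, hP⟩ := IsLocalization.integerNormalization_spec (nonZeroDivisors f[X]) g'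
  set P := IsLocalization.integerNormalization (nonZeroDivisors f[X]) g' with hPdef
  have hPc : ∀ m, T (P.coeff m) = T b * algebraMap (RatFunc f) L (g'.coeff m) := by
    intro m
    have h1 := congrArg (fun p : (RatFunc f)[X] => p.coeff m) hP
    simp only [Polynomial.coeff_map, Polynomial.coeff_smul] at h1
    rw [← hTap, h1, Algebra.smul_def, map_mul, hTap]
  -- the element
  obtain ⟨r, hr⟩ : ∃ r : RR ℓ c, r = ⟨fun j => if j = 0 then al c * P.coeff 0 else P.coeff j.val⟩ := ⟨_, rfl⟩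
  have hrj : ∀ j, r j = if j = 0 then al c * P.coeff 0 else P.coeff j.val := fun j => by rw [hr]
  have hA : ∀ (k : ℕ) (s : RR ℓ c), ev φ (T X) (φ z ^ 0 * y) (hpt 0)
      ((rot z hζ.pow_eq_one ^ k : RR ℓ c ≃+* RR ℓ c) s) = ev φ (T X) (φ z ^ k * y) (hpt k) s := by
    intro k s
    rw [ev_ap, ev_ap]
    refine Finset.sum_congr rfl fun j _ => ?_
    rw [rot_pow_ap, hev, hev, map_mul, hφap]
    unfold uval
    split_ifs with h
    · rw [h, ZMod.val_zero, pow_zero, map_one, one_mul]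
    · rw [map_pow, map_pow, pow_zero, one_mul, mul_pow]
      ring
  have hB : ∀ p : f[X], ev φ (T X) (φ z ^ 0 * y) (hpt 0) (algebraMap f[X] (RR ℓ c) p) = T p := by
    intro p
    rw [ev_ap, Finset.sum_eq_single (0 : ZMod ℓ)]
    · rw [algebraMap_ap, if_pos rfl, hev]
      unfold uval
      rw [if_pos rfl, mul_one]
    · intro j _ hj
      rw [algebraMap_ap, if_neg hj, Polynomial.eval₂_zero, zero_mul]
    · intro h
      exact absurd (Finset.mem_univ _) h
  have hC : ∀ k : ℕ, ev φ (T X) (φ z ^ k * y) (hpt k) r =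
      T (al c * b) * g.eval₂ (algebraMap (RatFunc f) L) (φ z ^ k * y) := by
    intro k
    rw [ev_ap, hgY, map_mul, Finset.mul_sum, ← exPoly_sum (fun m => T (al c) * T b *
      (algebraMap (RatFunc f) L (g'.coeff m) * (φ z ^ k * y) ^ m))]
    refine Finset.sum_congr rfl fun j _ => ?_
    rw [hev, hrj]
    unfold uval
    split_ifs with h
    · rw [h, ZMod.val_zero, pow_zero, map_mul, hPc]
      ring
    · rw [hPc, ← hTal]
      ring
  refine ⟨r, al c * b, mul_ne_zero hal0 (nonZeroDivisors.ne_zero hb), ?_⟩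
  apply hTinj
  rw [← hB (nm z hζ.pow_eq_one r), algebraMap_nm hζ, map_prod, Finset.prod_congr rfl fun k _ => hA k r,
    Finset.prod_congr rfl fun k _ => hC k, Finset.prod_mul_distrib, Finset.prod_const, Finset.card_range, hg,
    hTap, ← map_pow, ← map_mul, mul_comm]

/-- from a polynomial `g` in `y` over `f(x)` with norm `u` to an element of `RR ℓ c` -/
theorem exists_of_poly {z : f} (hζ : IsPrimitiveRoot z ℓ) (u : f[X]) (g : (RatFunc f)[X])
    (hg : (X ^ ℓ - C (wK c) : (RatFunc f)[X]) ∣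
      (∏ i ∈ Finset.range ℓ, g.comp (C ((algebraMap f (RatFunc f) z) ^ i) * X)) -
        C (algebraMap f[X] (RatFunc f) u)) :
    ∃ (r : RR ℓ c) (q : f[X]), q ≠ 0 ∧ nm z hζ.pow_eq_one r = u * q ^ ℓ := by
  have hirr := wK_irreducible ℓ Fact.out c
  have hfact : Fact (Irreducible (X ^ ℓ - C (wK c) : (RatFunc f)[X])) := ⟨hirr⟩
  have hroot : (X ^ ℓ - C (wK c) : (RatFunc f)[X]).eval₂ (algebraMap (RatFunc f) (AdjoinRoot (X ^ ℓ - C (wK c) : (RatFunc f)[X])))
      (AdjoinRoot.root (X ^ ℓ - C (wK c) : (RatFunc f)[X])) = 0 := AdjoinRoot.eval₂_root _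
  refine exPoly_core hζ u g (L := AdjoinRoot (X ^ ℓ - C (wK c) : (RatFunc f)[X]))
    (AdjoinRoot.root (X ^ ℓ - C (wK c) : (RatFunc f)[X])) ?_ ?_
  · rw [Polynomial.eval₂_sub, Polynomial.eval₂_X_pow, Polynomial.eval₂_C, sub_eq_zero] at hroot
    exact hroot
  · obtain ⟨h, hh⟩ := hg
    have h1 := congrArg (Polynomial.eval₂ (algebraMap (RatFunc f) (AdjoinRoot (X ^ ℓ - C (wK c) : (RatFunc f)[X])))
      (AdjoinRoot.root (X ^ ℓ - C (wK c) : (RatFunc f)[X]))) hh
    rw [Polynomial.eval₂_mul, hroot, zero_mul, Polynomial.eval₂_sub, Polynomial.eval₂_C, sub_eq_zero,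
      Polynomial.eval₂_finsetProd] at h1
    rw [← h1]
    refine Finset.prod_congr rfl fun i _ => ?_
    rw [Polynomial.eval₂_comp, Polynomial.eval₂_mul, Polynomial.eval₂_C, Polynomial.eval₂_X, map_pow]

end Pool.Agent.Helper12.SN
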