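import Mathlib

set_option autoImplicit false

/-!
# SB-N-10: Hilbert 90 for an automorphism of a field, locally of order `n`

Let `K₀ := {z | τ^n z = z}` (a subfield, or just a submonoid of `K`).  The monoid homomorphisms
`χ_i : K₀ →* K`, `χ_i z = τ^i z`, `i < n`, are pairwise distinct: `χ_i z0 = χ_j z0` with `i < j < n`
would give `τ^i (τ^(j-i) z0) = τ^i z0`, so `τ^(j-i) z0 = z0`.  By `linearIndependent_monoidHom`
they are linearly independent over `K`.  Put `b_i := ∏ j ∈ range i, τ^j h`; `b_0 = 1` and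
`b_n = 1`.  As `b_0 ≠ 0` there is `z ∈ K₀` with `g := ∑ i ∈ range n, b_i * τ^i z ≠ 0`.  Since
`h * τ b_i = b_(i+1)`:
`h * τ g = ∑ i ∈ range n, b_(i+1) * τ^(i+1) z = g - b_0 z + b_n τ^n z = g`.
Finally `τ g = g / h` gives `τ^n g = g / ∏ i ∈ range n, τ^i h = g` (`h ≠ 0`; by induction
`(∏ i ∈ range m, τ^i h) * τ^m g = g`).
-/

namespace Pool.Agent.Helper12.SN

/-- the fixed points of `τ ^ n` -/
private def hilK {K : Type} [Field K] (τ : K ≃+* K) (n : ℕ) : Submonoid K where
  carrier := {z | (τ ^ n : K ≃+* K) z = z}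
  mul_mem' := fun {a b} ha hb => by
    show (τ ^ n : K ≃+* K) (a * b) = a * b
    rw [map_mul, show (τ ^ n : K ≃+* K) a = a from ha, show (τ ^ n : K ≃+* K) b = b from hb]
  one_mem' := map_one _

private theorem hil_succ {K : Type} [Field K] (τ : K ≃+* K) (i : ℕ) (z : K) :
    τ ((τ ^ i : K ≃+* K) z) = (τ ^ (i + 1) : K ≃+* K) z := by
  rw [pow_succ']
  rfl

private theorem hil_add {K : Type} [Field K] (τ : K ≃+* K) (i j : ℕ) (z : K) :
    (τ ^ i : K ≃+* K) ((τ ^ j : K ≃+* K) z) = (τ ^ (i + j) : K ≃+* K) z := by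
  rw [pow_add]
  rfl

theorem hilbert90 {K : Type} [Field K] (τ : K ≃+* K) (n : ℕ) (hn : 0 < n) (z0 : K)
    (hz0 : (τ ^ n : K ≃+* K) z0 = z0)
    (hz1 : ∀ i, 0 < i → i < n → (τ ^ i : K ≃+* K) z0 ≠ z0) (h : K)
    (hh : ∏ i ∈ Finset.range n, (τ ^ i : K ≃+* K) h = 1) :
    ∃ g : K, g ≠ 0 ∧ h * τ g = g ∧ (τ ^ n : K ≃+* K) g = g := by
  let χ : Fin n → (hilK τ n →* K) := fun i =>
    { toFun := fun z => (τ ^ (i : ℕ) : K ≃+* K) (z : K)
      map_one' := map_one _
      map_mul' := fun a b => map_mul _ _ _ }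
  have hχ : Function.Injective χ := by
    intro i j hij
    by_contra hne
    have key : ∀ i j : Fin n, i < j → χ i = χ j → False := by
      intro i j hlt hij
      have h1 : (τ ^ (i : ℕ) : K ≃+* K) z0 = (τ ^ (j : ℕ) : K ≃+* K) z0 :=
        congrArg (fun f : hilK τ n →* K => f ⟨z0, hz0⟩) hij
      have h2 : (j : ℕ) = i + (j - i) := by
        have : (i : ℕ) < j := hlt
        omega
      rw [h2, ← hil_add] at h1
      have h3 := (τ ^ (i : ℕ) : K ≃+* K).injective h1
      have h4 : (i : ℕ) < j := hlt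
      exact hz1 (j - i) (by omega) (by have := j.2; omega) h3.symm
    rcases lt_or_gt_of_ne hne with h1 | h1
    · exact key i j h1 hij
    · exact key j i h1 hij.symm
  have hind : LinearIndependent K (fun i : Fin n => (χ i : hilK τ n → K)) :=
    (linearIndependent_monoidHom (hilK τ n) K).comp χ hχ
  let b : ℕ → K := fun i => ∏ j ∈ Finset.range i, (τ ^ j : K ≃+* K) h
  have hb0 : b 0 = 1 := Finset.prod_range_zero _
  have hbn : b n = 1 := hh
  have hbs : ∀ i, h * τ (b i) = b (i + 1) := by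
    intro i
    simp only [b]
    rw [map_prod, Finset.prod_range_succ', mul_comm]
    congr 1
    apply Finset.prod_congr rfl
    intro j _
    exact hil_succ τ j h
  have h0 : h ≠ 0 := by
    intro h1
    have h2 := Finset.prod_eq_zero (f := fun i => (τ ^ i : K ≃+* K) h) (Finset.mem_range.2 hn)
      (by rw [h1, map_zero])
    rw [hh] at h2
    exact one_ne_zero h2
  obtain ⟨z, hz, hgz⟩ : ∃ z : K, (τ ^ n : K ≃+* K) z = z ∧
      ∑ i ∈ Finset.range n, b i * (τ ^ i : K ≃+* K) z ≠ 0 := by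
    by_contra hcon
    push Not at hcon
    have h1 : ∑ i : Fin n, b i • (χ i : hilK τ n → K) = 0 := by
      funext z
      have h2 := hcon (z : K) z.2
      rw [Finset.sum_apply, Pi.zero_apply, ← h2]
      exact Fin.sum_univ_eq_sum_range (fun i => b i * (τ ^ i : K ≃+* K) (z : K)) n
    have h3 := Fintype.linearIndependent_iff.1 hind (fun i => b i) h1 ⟨0, hn⟩
    change b 0 = 0 at h3
    rw [hb0] at h3
    exact one_ne_zero h3
  have hg : h * τ (∑ i ∈ Finset.range n, b i * (τ ^ i : K ≃+* K) z) =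
      ∑ i ∈ Finset.range n, b i * (τ ^ i : K ≃+* K) z := by
    rw [map_sum, Finset.mul_sum]
    have h1 : ∀ i ∈ Finset.range n, h * τ (b i * (τ ^ i : K ≃+* K) z) =
        b (i + 1) * (τ ^ (i + 1) : K ≃+* K) z := by
      intro i _
      rw [map_mul, ← mul_assoc, hbs, hil_succ]
    rw [Finset.sum_congr rfl h1]
    have h2 := Finset.sum_range_succ' (fun i => b i * (τ ^ i : K ≃+* K) z) n
    have h3 := Finset.sum_range_succ (fun i => b i * (τ ^ i : K ≃+* K) z) n
    rw [h3] at h2
    simp only [hb0, hbn, hz, pow_zero, one_mul] at h2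
    exact (add_right_cancel h2).symm
  refine ⟨_, hgz, hg, ?_⟩
  generalize (∑ i ∈ Finset.range n, b i * (τ ^ i : K ≃+* K) z) = g at hg
  have h1 : ∀ m, b m * (τ ^ m : K ≃+* K) g = g := by
    intro m
    induction m with
    | zero => rw [hb0, one_mul]; rfl
    | succ m ih =>
      have h2 := congrArg τ ih
      rw [map_mul] at h2
      rw [← hbs, ← hil_succ, mul_assoc, h2, hg]
  have h2 := h1 n
  rwa [hbn, one_mul] at h2

end Pool.Agent.Helper12.SN
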