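import Pool.Agent.Helper12.SN.InfA

set_option autoImplicit false
set_option linter.unusedSectionVars false

/-!
# SB-N-06: the place at infinity of the ring `RR ℓ c`, further properties

`cf d (algebraMap p) = if (d : ZMod ℓ) = 0 then p.coeff (d / ℓ) else 0` (`algebraMap_ap`), so for
`p ≠ 0` `dg_eq` with `d = ℓ * p.natDegree` gives `dg_algebraMap`, `lc_algebraMap` (`p = 0`: both
sides `0`; `(ℓ * n) / ℓ = n`).  `lc_con`, `lc_one`: `p = C a`.
`dg_eq_zero`: `cf d r = 0` for `d ≥ 1` (`dg_spec`), so `cf d r = cf d (con (cf 0 r))` for all `d`;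
`cf_ext`.
`unit_eq_con`: `r * s = 1` gives `dg r + dg s = dg 1 = 0`, so `dg r = 0`, and
`lc r * lc s = 1`.
`dg_rot`, `lc_rot`: `cf d (rot z hz r) = z ^ d * cf d r` by the definition of `cf` and
`z ^ (d : ZMod ℓ).val = z ^ (d % ℓ) = z ^ d` (`ZMod.val_natCast`, `z ^ ℓ = 1`), and `z ^ d` is a
unit (`r = 0` trivial).
`cf_map`: `Polynomial.coeff_map`.  `dg_map`, `lc_map`: same sets `{d | cf d _ ≠ 0}`.
`map_injective`: `Polynomial.map_injective`.
-/

open Polynomial

namespace Pool.Agent.Helper12.SN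

variable {ℓ : ℕ} [NeZero ℓ] {A : Type} [CommRing A] {c : Fin 3 → A}

private theorem cf_algebraMap (p : A[X]) (d : ℕ) :
    cf d (algebraMap A[X] (RR ℓ c) p) = if (d : ZMod ℓ) = 0 then p.coeff (d / ℓ) else 0 := by
  unfold cf
  by_cases h : (d : ZMod ℓ) = 0
  · rw [if_pos h, if_pos h, algebraMap_ap, if_pos rfl]
  · rw [if_neg h, if_neg h, algebraMap_ap, if_neg h]
    simp

private theorem cf_zero (d : ℕ) : cf d (0 : RR ℓ c) = 0 := by
  unfold cf
  simp

private theorem dg_zero : dg (0 : RR ℓ c) = 0 := by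
  unfold dg
  have h : {d | cf d (0 : RR ℓ c) ≠ 0} = ∅ := by
    ext d
    simp [cf_zero]
  rw [h]
  simp

private theorem dglc_algebraMap (p : A[X]) (hp : p ≠ 0) :
    dg (algebraMap A[X] (RR ℓ c) p) = ℓ * p.natDegree ∧
      lc (algebraMap A[X] (RR ℓ c) p) = p.leadingCoeff := by
  have hl : 0 < ℓ := Nat.pos_of_ne_zero (NeZero.ne ℓ)
  have h1 : cf (ℓ * p.natDegree) (algebraMap A[X] (RR ℓ c) p) = p.leadingCoeff := by
    rw [cf_algebraMap, if_pos (by simp), Nat.mul_div_cancel_left _ hl]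
    rfl
  have h2 := dg_eq (r := algebraMap A[X] (RR ℓ c) p) (d := ℓ * p.natDegree)
    (by rw [h1]; exact leadingCoeff_ne_zero.2 hp) ?_
  · rw [h1] at h2
    exact h2
  · intro n hn
    rw [cf_algebraMap]
    split_ifs with h
    · obtain ⟨k, rfl⟩ := (ZMod.natCast_eq_zero_iff n ℓ).1 h
      rw [Nat.mul_div_cancel_left _ hl]
      exact coeff_eq_zero_of_natDegree_lt (lt_of_mul_lt_mul_left hn (Nat.zero_le _))
    · rfl

theorem dg_algebraMap (p : A[X]) : dg (algebraMap A[X] (RR ℓ c) p) = ℓ * p.natDegree := by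
  by_cases hp : p = 0
  · subst hp
    rw [map_zero, dg_zero, natDegree_zero, mul_zero]
  · exact (dglc_algebraMap p hp).1

theorem lc_algebraMap (p : A[X]) : lc (algebraMap A[X] (RR ℓ c) p) = p.leadingCoeff := by
  by_cases hp : p = 0
  · subst hp
    rw [map_zero, lc_zero, leadingCoeff_zero]
  · exact (dglc_algebraMap p hp).2

@[simp] theorem lc_con (a : A) : lc (con a : RR ℓ c) = a := by
  have h : (con a : RR ℓ c) = algebraMap A[X] (RR ℓ c) (C a) := rfl
  rw [h, lc_algebraMap, leadingCoeff_C]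

@[simp] theorem lc_one : lc (1 : RR ℓ c) = 1 := by
  rw [← map_one (con (ℓ := ℓ) (c := c)), lc_con]

/-- elements of degree `0` are constants -/
theorem dg_eq_zero {r : RR ℓ c} (h : dg r = 0) : r = con (lc r) := by
  have hl : 0 < ℓ := Nat.pos_of_ne_zero (NeZero.ne ℓ)
  have hc : (con (lc r) : RR ℓ c) = algebraMap A[X] (RR ℓ c) (C (lc r)) := rfl
  have h0 : lc r = cf 0 r := by
    unfold lc
    rw [h]
  apply cf_ext
  intro d
  rw [hc, cf_algebraMap]
  rcases Nat.eq_zero_or_pos d with rfl | hd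
  · rw [if_pos (by simp), Nat.zero_div, coeff_C_zero, h0]
  · rw [dg_spec d (by rw [h]; exact hd)]
    split_ifs with h3
    · obtain ⟨k, rfl⟩ := (ZMod.natCast_eq_zero_iff d ℓ).1 h3
      rw [Nat.mul_div_cancel_left _ hl, coeff_C_of_ne_zero]
      rintro rfl
      simp at hd
    · rfl

/-- units are constants -/
theorem unit_eq_con [IsDomain A] {r : RR ℓ c} (h : IsUnit r) : r = con (lc r) ∧ IsUnit (lc r) := by
  obtain ⟨s, hs⟩ := h.exists_right_inv
  have hr0 : r ≠ 0 := h.ne_zero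
  have hs0 : s ≠ 0 := by
    rintro rfl
    rw [mul_zero] at hs
    exact zero_ne_one hs
  have h1 : dg (1 : RR ℓ c) = 0 := by
    rw [← map_one (algebraMap A[X] (RR ℓ c)), dg_algebraMap, natDegree_one, mul_zero]
  have h2 := dg_mul hr0 hs0
  rw [hs, h1] at h2
  refine ⟨dg_eq_zero (by omega), ?_⟩
  have h3 := lc_mul r s
  rw [hs, lc_one] at h3
  exact IsUnit.of_mul_eq_one _ h3.symm

private theorem cf_rot (z : A) (hz : z ^ ℓ = 1) (r : RR ℓ c) (d : ℕ) :
    cf d (rot z hz r) = z ^ d * cf d r := by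
  have h1 : z ^ ((d : ZMod ℓ)).val = z ^ d := by
    rw [ZMod.val_natCast]
    conv_rhs => rw [← Nat.div_add_mod d ℓ, pow_add, pow_mul, hz, one_pow, one_mul]
  unfold cf
  by_cases h : (d : ZMod ℓ) = 0
  · rw [if_pos h, if_pos h, rot_ap, coeff_C_mul]
    rw [← h1, h]
  · rw [if_neg h, if_neg h]
    split_ifs with h2
    · rw [mul_zero]
    · rw [rot_ap, coeff_C_mul, h1]

theorem dg_rot [IsDomain A] (z : A) (hz : z ^ ℓ = 1) (r : RR ℓ c) : dg (rot z hz r) = dg r := by
  have hu : IsUnit z := IsUnit.of_pow_eq_one hz (NeZero.ne ℓ)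
  unfold dg
  congr 1
  ext d
  simp only [Set.mem_ofPred_eq, cf_rot, ne_eq, (hu.pow d).mul_right_eq_zero]

theorem lc_rot [IsDomain A] (z : A) (hz : z ^ ℓ = 1) (r : RR ℓ c) :
    lc (rot z hz r) = z ^ dg r * lc r := by
  unfold lc
  rw [dg_rot, cf_rot]

section map

variable {B : Type} [CommRing B] {d : Fin 3 → B}

theorem cf_map (φ : A →+* B) (h : ∀ i, φ (c i) = d i) (n : ℕ) (r : RR ℓ c) :
    cf n (RR.map φ h r) = φ (cf n r) := by
  unfold cf
  split_ifs
  · rw [map_ap, coeff_map]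
  · rw [map_zero]
  · rw [map_ap, coeff_map]

theorem dg_map (φ : A →+* B) (hφ : Function.Injective φ) (h : ∀ i, φ (c i) = d i)
    (r : RR ℓ c) : dg (RR.map φ h r) = dg r := by
  unfold dg
  congr 1
  ext d
  simp only [Set.mem_ofPred_eq, cf_map, ne_eq, map_eq_zero_iff φ hφ]

theorem lc_map (φ : A →+* B) (hφ : Function.Injective φ) (h : ∀ i, φ (c i) = d i)
    (r : RR ℓ c) : lc (RR.map φ h r) = φ (lc r) := by
  unfold lc
  rw [dg_map φ hφ h, cf_map]

theorem map_injective (φ : A →+* B) (hφ : Function.Injective φ) (h : ∀ i, φ (c i) = d i) :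
    Function.Injective (RR.map φ h : RR ℓ c →+* RR ℓ d) := by
  intro r s hrs
  ext1 j
  apply Polynomial.map_injective φ hφ
  have h1 := congrArg (fun t : RR ℓ d => t j) hrs
  simpa only [map_ap] using h1

end map

end Pool.Agent.Helper12.SN
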