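import Pool.Agent.Helper12.SN.CfMul

set_option autoImplicit false
set_option linter.unusedSectionVars false

/-!
# SB-N-05: degree and leading coefficient at infinity, multiplicativity

`dg r = sSup {d | cf d r ≠ 0}`, `lc r = cf (dg r) r`; the set is finite (`cf_fin`), nonempty iff
`r ≠ 0` (`cf_ext`; `cf d 0 = 0` from `cf_con_mul` with `a = 0` or by definition).
`dg_spec`, `le_dg`: `le_csSup` with `cf_fin.bddAbove`.  `lc_ne_zero`: `Nat.sSup_mem` (nonempty,
bounded above).  `dg_eq`: antisymmetry.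
`IsDomain`: nontrivial: `(1 : RR) 0 = 1 ≠ 0`; no zero divisors: for `r, s ≠ 0`,
`cf (dg r + dg s) (r * s) = lc r * lc s ≠ 0` by `cf_mul_top` (with `dg_spec`), and
`cf _ 0 = 0`.
`dg_mul`, `lc_mul`: `cf_mul_top` and `dg_eq`; `lc_mul` is trivial if `r = 0` or `s = 0`.
-/

open Polynomial

namespace Pool.Agent.Helper12.SN

variable {ℓ : ℕ} [NeZero ℓ] {A : Type} [CommRing A] {c : Fin 3 → A}

private theorem infa_cf_zero (d : ℕ) : cf d (0 : RR ℓ c) = 0 := by
  unfold cf
  simp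

theorem le_dg {r : RR ℓ c} {d : ℕ} (h : cf d r ≠ 0) : d ≤ dg r :=
  le_csSup (cf_fin r).bddAbove h

theorem dg_spec {r : RR ℓ c} : ∀ n, dg r < n → cf n r = 0 := by
  intro n hn
  by_contra h
  exact absurd (le_dg h) (not_le.2 hn)

theorem lc_ne_zero {r : RR ℓ c} (hr : r ≠ 0) : lc r ≠ 0 := by
  have hne : {d | cf d r ≠ 0}.Nonempty := by
    by_contra h
    rw [Set.not_nonempty_iff_eq_empty] at h
    apply hr
    apply cf_ext
    intro d
    rw [infa_cf_zero]
    by_contra hd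
    have h1 : d ∈ {d | cf d r ≠ 0} := hd
    rw [h] at h1
    exact h1
  exact Nat.sSup_mem hne (cf_fin r).bddAbove

@[simp] theorem lc_zero : lc (0 : RR ℓ c) = 0 := infa_cf_zero _

theorem dg_eq {r : RR ℓ c} {d : ℕ} (h : cf d r ≠ 0) (h' : ∀ n, d < n → cf n r = 0) :
    dg r = d ∧ lc r = cf d r := by
  have hr : r ≠ 0 := by
    rintro rfl
    exact h (infa_cf_zero _)
  have h1 : dg r = d := by
    refine le_antisymm ?_ (le_dg h)
    by_contra h2
    exact lc_ne_zero hr (h' _ (not_le.1 h2))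
  refine ⟨h1, ?_⟩
  unfold lc
  rw [h1]

private theorem infa_top [IsDomain A] {r s : RR ℓ c} (hr : r ≠ 0) (hs : s ≠ 0) :
    dg (r * s) = dg r + dg s ∧ lc (r * s) = lc r * lc s := by
  obtain ⟨h1, h2⟩ := cf_mul_top (dg_spec (r := r)) (dg_spec (r := s))
  have h3 : cf (dg r + dg s) (r * s) = lc r * lc s := h2
  have h4 : cf (dg r + dg s) (r * s) ≠ 0 := by
    rw [h3]
    exact mul_ne_zero (lc_ne_zero hr) (lc_ne_zero hs)
  obtain ⟨h5, h6⟩ := dg_eq h4 h1
  exact ⟨h5, h6.trans h3⟩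

private theorem infa_mul_ne [IsDomain A] {r s : RR ℓ c} (hr : r ≠ 0) (hs : s ≠ 0) :
    r * s ≠ 0 := by
  intro h
  have h1 := (infa_top hr hs).2
  rw [h, lc_zero] at h1
  exact mul_ne_zero (lc_ne_zero hr) (lc_ne_zero hs) h1.symm

instance [IsDomain A] : IsDomain (RR ℓ c) := by
  haveI : Nontrivial (RR ℓ c) := by
    refine ⟨⟨1, 0, ?_⟩⟩
    intro h
    have h1 : (1 : RR ℓ c) 0 = (0 : RR ℓ c) 0 := by rw [h]
    rw [one_ap, if_pos rfl, zero_ap] at h1
    exact one_ne_zero h1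
  haveI : NoZeroDivisors (RR ℓ c) := by
    refine ⟨?_⟩
    intro a b hab
    by_contra h
    rw [not_or] at h
    exact infa_mul_ne h.1 h.2 hab
  exact NoZeroDivisors.to_isDomain _

theorem dg_mul [IsDomain A] {r s : RR ℓ c} (hr : r ≠ 0) (hs : s ≠ 0) :
    dg (r * s) = dg r + dg s := (infa_top hr hs).1

theorem lc_mul [IsDomain A] (r s : RR ℓ c) : lc (r * s) = lc r * lc s := by
  by_cases hr : r = 0
  · rw [hr, zero_mul, lc_zero, zero_mul]
  by_cases hs : s = 0
  · rw [hs, mul_zero, lc_zero, mul_zero]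
  exact (infa_top hr hs).2

end Pool.Agent.Helper12.SN
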