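import Pool.Agent.Helper12.SN.Tau

set_option autoImplicit false
set_option linter.unusedSectionVars false

/-!
# SB-N-13: a divisibility of polynomials

PROOF.  If `p = 0` trivial.  `d = gcd p q` (`EuclideanDomain.gcd`), `p = d p'`, `q = d q'`,
`IsCoprime p' q'`, `d ≠ 0`.  Cancelling `d^ℓ`: `q'^ℓ ∣ p'^ℓ * m`, `m = al ^ (ℓ - j) * be ^ j`, so
`q'^ℓ ∣ m` (`IsCoprime.pow`, `IsCoprime.dvd_of_dvd_mul_left`).  If `q'` is a unit, `q ∣ p`.  Otherwise
let `π` be an irreducible factor of `q'` (`WfDvdMonoid.exists_irreducible_factor`), prime in `f[X]`;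
`π^ℓ ∣ m = (X - C (c 1))^(ℓ-j) (X - C (c 0))^j (X - C (c 2))^j`.  `π` divides, hence is associated to,
one `X - C (c i)`; so `(X - C (c i))^ℓ ∣ m`.  It is coprime to the other two factors
(`Polynomial.isCoprime_X_sub_C_of_isUnit_sub`, `c` injective), so `(X - C (c i))^ℓ` divides
`(X - C (c i))^k` with `k = ℓ - j` or `k = j`, `k < ℓ`: contradiction (degrees, `natDegree_le_of_dvd`).
-/

open Polynomial

namespace Pool.Agent.Helper12.SN

private theorem polyRoot_no_dvd {f : Type} [Field f] {r : f[X]} (hr : Prime r) {k ℓ : ℕ}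
    (hk : k < ℓ) (a : f) (h : r ^ ℓ ∣ (X - C a) ^ k) : False := by
  have h1 := natDegree_le_of_dvd h (pow_ne_zero _ (X_sub_C_ne_zero a))
  rw [natDegree_pow, natDegree_pow, natDegree_X_sub_C, mul_one] at h1
  have h2 : 0 < r.natDegree := hr.irreducible.natDegree_pos
  nlinarith

private theorem polyRoot_not_both {f : Type} [Field f] {r : f[X]} (hr : Prime r) {a b : f}
    (hab : a ≠ b) (ha : r ∣ X - C a) (hb : r ∣ X - C b) : False := by
  have h1 : r ∣ C (b - a) := by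
    have := dvd_sub ha hb
    have he : (X - C a) - (X - C b) = C (b - a) := by
      rw [C_sub]
      ring
    rwa [he] at this
  exact hr.not_isUnit (isUnit_of_dvd_unit h1 (isUnit_C.2 (sub_ne_zero.2 (Ne.symm hab)).isUnit))

private theorem polyRoot_prime {f : Type} [Field f] {r : f[X]} (hr : Prime r) {a b d : f}
    (hab : a ≠ b) (had : a ≠ d) (hbd : b ≠ d) {k j ℓ : ℕ} (hk : k < ℓ) (hj : j < ℓ)
    (h : r ^ ℓ ∣ (X - C a) ^ k * ((X - C b) * (X - C d)) ^ j) : False := by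
  by_cases h1 : r ∣ X - C a
  · have h2 : ¬ r ∣ ((X - C b) * (X - C d)) ^ j := fun h3 => by
      rcases hr.dvd_or_dvd (hr.dvd_of_dvd_pow h3) with h4 | h4
      · exact polyRoot_not_both hr hab h1 h4
      · exact polyRoot_not_both hr had h1 h4
    exact polyRoot_no_dvd hr hk a (hr.pow_dvd_of_dvd_mul_right _ h2 h)
  · have h2 : ¬ r ∣ (X - C a) ^ k := fun h3 => h1 (hr.dvd_of_dvd_pow h3)
    have h3 := hr.pow_dvd_of_dvd_mul_left _ h2 h
    rw [mul_pow] at h3
    by_cases h4 : r ∣ X - C b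
    · have h5 : ¬ r ∣ (X - C d) ^ j := fun h6 =>
        polyRoot_not_both hr hbd h4 (hr.dvd_of_dvd_pow h6)
      exact polyRoot_no_dvd hr hj b (hr.pow_dvd_of_dvd_mul_right _ h5 h3)
    · have h5 : ¬ r ∣ (X - C b) ^ j := fun h6 => h4 (hr.dvd_of_dvd_pow h6)
      exact polyRoot_no_dvd hr hj d (hr.pow_dvd_of_dvd_mul_left _ h5 h3)

theorem dvd_of_pow_dvd {f : Type} [Field f] {c : Fin 3 → f} (hc : Function.Injective c)
    {ℓ j : ℕ} (hj : 0 < j) (hjl : j < ℓ) {p q : f[X]} (hq : q ≠ 0)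
    (h : q ^ ℓ ∣ p ^ ℓ * (al c ^ (ℓ - j) * be c ^ j)) : q ∣ p := by
  obtain ⟨d, p', q', hd0, hp', hq', hcop⟩ : ∃ d p' q' : f[X], d ≠ 0 ∧ p = d * p' ∧ q = d * q' ∧
      IsCoprime p' q' := by
    classical
    have hg0 : EuclideanDomain.gcd p q ≠ 0 := fun h0 => hq (EuclideanDomain.gcd_eq_zero_iff.1 h0).2
    obtain ⟨p', hp'⟩ := EuclideanDomain.gcd_dvd_left p q
    obtain ⟨q', hq'⟩ := EuclideanDomain.gcd_dvd_right p q
    refine ⟨EuclideanDomain.gcd p q, p', q', hg0, hp', hq',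
      EuclideanDomain.gcdA p q, EuclideanDomain.gcdB p q, ?_⟩
    have h1 := EuclideanDomain.gcd_eq_gcd_ab p q
    have h2 : EuclideanDomain.gcd p q * 1 = EuclideanDomain.gcd p q *
        (EuclideanDomain.gcdA p q * p' + EuclideanDomain.gcdB p q * q') := by
      rw [mul_one]
      conv_lhs => rw [h1]
      linear_combination (EuclideanDomain.gcdA p q) * hp' + (EuclideanDomain.gcdB p q) * hq'
    exact (mul_left_cancel₀ hg0 h2).symm
  have hdvd : q' ^ ℓ ∣ p' ^ ℓ * (al c ^ (ℓ - j) * be c ^ j) := by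
    have h1 : d ^ ℓ * q' ^ ℓ ∣ d ^ ℓ * (p' ^ ℓ * (al c ^ (ℓ - j) * be c ^ j)) := by
      rw [← mul_pow, ← mul_assoc, ← mul_pow, ← hp', ← hq']
      exact h
    exact (mul_dvd_mul_iff_left (pow_ne_zero _ hd0)).1 h1
  have hdvd2 : q' ^ ℓ ∣ al c ^ (ℓ - j) * be c ^ j :=
    IsCoprime.dvd_of_dvd_mul_left (IsCoprime.pow hcop.symm) hdvd
  by_cases hu : IsUnit q'
  · rw [hq', hp']
    exact mul_dvd_mul_left _ (hu.dvd)
  · exfalso
    have hq0 : q' ≠ 0 := fun h0 => hq (by rw [hq', h0, mul_zero])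
    obtain ⟨r, hr, hrq⟩ := WfDvdMonoid.exists_irreducible_factor hu hq0
    have h1 : r ^ ℓ ∣ (X - C (c 1)) ^ (ℓ - j) * ((X - C (c 0)) * (X - C (c 2))) ^ j :=
      (pow_dvd_pow_of_dvd hrq ℓ).trans hdvd2
    exact polyRoot_prime hr.prime (fun h => by simpa using hc h) (fun h => by simpa using hc h)
      (fun h => by simpa using hc h) (by omega) hjl h1

end Pool.Agent.Helper12.SN
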