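import Pool.Agent.Helper12.SN.Inf

set_option autoImplicit false
set_option linter.unusedSectionVars false

/-!
# SB-N-14: powers of `u_j`

`uu_mul` and `tau`.  For `1 ≤ m`, `m + 1 < ℓ`: `u_1 u_m = al u_(m+1)`, so by induction
`u_1^m = al^(m-1) u_m` for `1 ≤ m < ℓ` (here `1 < ℓ`; `(m : ZMod ℓ).val = m`); this is `uu_one_pow`.
`u_1^ℓ = u_1^(ℓ-1) u_1 = al^(ℓ-2) u_(ℓ-1) u_1 = al^(ℓ-2) (al be)` (`ℓ ≥ 2`; for `ℓ = 2`:
`u_1 u_1 = al be`).
`uu_pow_ell`: with `m = j.val`: `al^((m-1) ℓ) u_j^ℓ = u_1^(m ℓ) = (al^(ℓ-1) be)^m`, cancel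
`al^((m-1) ℓ)` (`RR ℓ c` is a domain, `al` monic so nonzero, `algebraMap` injective):
`(ℓ - 1) m - (m - 1) ℓ = ℓ - m`.
-/

open Polynomial

namespace Pool.Agent.Helper12.SN

variable {ℓ : ℕ} [Fact ℓ.Prime] {A : Type} [CommRing A] [IsDomain A] {c : Fin 3 → A}

private theorem tau_nat (m : ℕ) (hm : 0 < m) (hm' : m < ℓ) :
    tau ℓ c (m : ZMod ℓ) 1 = if m + 1 < ℓ then al c else al c * be c := by
  have hp : ℓ.Prime := Fact.out
  have h1 : Fact (1 < ℓ) := ⟨hp.one_lt⟩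
  have hv : (m : ZMod ℓ).val = m := by rw [ZMod.val_natCast, Nat.mod_eq_of_lt hm']
  have hv1 : (1 : ZMod ℓ).val = 1 := ZMod.val_one ℓ
  have h0 : (m : ZMod ℓ) ≠ 0 := by
    intro h
    rw [h, ZMod.val_zero] at hv
    omega
  unfold tau
  rw [hv, hv1, if_neg (not_or.2 ⟨h0, one_ne_zero⟩)]
  split_ifs with h2 h3
  · rfl
  · rfl
  · omega

theorem uu_one_pow (m : ℕ) (hm : 0 < m) (hm' : m < ℓ) :
    (uu 1 : RR ℓ c) ^ m = (al c ^ (m - 1)) • (uu (m : ZMod ℓ) : RR ℓ c) := by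
  induction m with
  | zero => omega
  | succ m ih =>
    rcases Nat.eq_zero_or_pos m with h0 | h0
    · subst h0
      rw [zero_add, pow_one, Nat.sub_self, pow_zero, one_smul, Nat.cast_one]
    · rw [pow_succ, ih h0 (by omega), smul_mul_assoc, uu_mul, tau_nat m h0 (by omega),
        if_pos (by omega), smul_smul, ← pow_succ, Nat.cast_succ]
      congr 2
      omega

private theorem uu_one_pow_ell :
    (uu 1 : RR ℓ c) ^ ℓ = algebraMap A[X] (RR ℓ c) (al c ^ (ℓ - 1) * be c) := by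
  have hp : ℓ.Prime := Fact.out
  have h2 := hp.two_le
  have h3 : (uu 1 : RR ℓ c) ^ ℓ = uu 1 ^ (ℓ - 1) * uu 1 := by
    rw [← pow_succ]
    congr 1
    omega
  rw [h3, uu_one_pow (ℓ - 1) (by omega) (by omega), smul_mul_assoc, uu_mul,
    tau_nat (ℓ - 1) (by omega) (by omega), if_neg (by omega), smul_smul]
  have h4 : ((ℓ - 1 : ℕ) : ZMod ℓ) + 1 = 0 := by
    have h5 : ((ℓ - 1 + 1 : ℕ) : ZMod ℓ) = 0 := by
      rw [Nat.sub_add_cancel (by omega)]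
      exact ZMod.natCast_self ℓ
    rw [Nat.cast_add, Nat.cast_one] at h5
    exact h5
  rw [h4, uu_zero, Algebra.algebraMap_eq_smul_one, ← mul_assoc, ← pow_succ]
  congr 3
  omega

private theorem algMap_inj : Function.Injective (algebraMap A[X] (RR ℓ c)) := by
  intro p q hpq
  have h1 := congrArg (fun r : RR ℓ c => r 0) hpq
  simp only [algebraMap_ap, if_true] at h1
  exact h1

theorem uu_pow_ell {j : ZMod ℓ} (hj : j ≠ 0) :
    (uu j : RR ℓ c) ^ ℓ = algebraMap A[X] (RR ℓ c) (al c ^ (ℓ - j.val) * be c ^ j.val) := by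
  have hp : ℓ.Prime := Fact.out
  have hlt := ZMod.val_lt j
  have hpos : 0 < j.val := Nat.pos_of_ne_zero fun h => hj ((ZMod.val_eq_zero j).1 h)
  have hcast : ((j.val : ℕ) : ZMod ℓ) = j := ZMod.natCast_zmod_val j
  have h1 := uu_one_pow (c := c) j.val hpos hlt
  rw [hcast] at h1
  have h2 : ((uu 1 : RR ℓ c) ^ j.val) ^ ℓ =
      algebraMap A[X] (RR ℓ c) ((al c ^ (ℓ - 1) * be c) ^ j.val) := by
    rw [← pow_mul, mul_comm, pow_mul, uu_one_pow_ell, map_pow]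
  rw [h1, Algebra.smul_def, mul_pow, ← map_pow] at h2
  have h3 : (al c ^ (ℓ - 1) * be c) ^ j.val =
      (al c ^ (j.val - 1)) ^ ℓ * (al c ^ (ℓ - j.val) * be c ^ j.val) := by
    rw [mul_pow, ← mul_assoc, ← pow_mul, ← pow_mul, ← pow_add]
    congr 2
    obtain ⟨m, hm⟩ : ∃ m, j.val = m + 1 := ⟨j.val - 1, by omega⟩
    obtain ⟨n, hn⟩ : ∃ n, ℓ = m + 1 + n := ⟨ℓ - (m + 1), by omega⟩
    rw [hm, Nat.add_sub_cancel, show ℓ - (m + 1) = n by omega, show ℓ - 1 = m + n by omega]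
    rw [hn]
    ring
  rw [h3, map_mul] at h2
  have h4 : algebraMap A[X] (RR ℓ c) ((al c ^ (j.val - 1)) ^ ℓ) ≠ 0 := by
    rw [ne_eq, map_eq_zero_iff _ algMap_inj]
    exact pow_ne_zero _ (pow_ne_zero _ (X_sub_C_ne_zero _))
  exact mul_left_cancel₀ h4 h2

end Pool.Agent.Helper12.SN
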