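import Pool.Agent.Helper12.SN.Norm
import Pool.Agent.Helper12.SN.PolyRoot
import Pool.Agent.Helper12.SN.UuPow

set_option autoImplicit false
set_option linter.unusedSectionVars false

/-!
# SB-N-15: `RR ℓ c` is integrally closed

`algebraMap_injective`: `algebraMap_ap` at `j = 0`.  `isIntegral_RR`: `Module.Finite`.
`isIntegrallyClosed_RR`: let `E = FractionRing (RR ℓ c)`, `z : E` integral over `RR ℓ c`, hence over
`f[X]` (`isIntegral_trans`).  `z = a / b`; `b` divides `algebraMap (nm b)`, `nm b ≠ 0`, so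
`z = s / q` with `s : RR ℓ c`, `q : f[X]`, `q ≠ 0`.  Let `ζ` be a primitive root (`Good.prim`).
(1) For every `k`: `(rot^k s) / q` is integral over `f[X]`: apply the field automorphism of `E`
induced by `rot^k` (`IsFractionRing.ringEquivOfRingEquiv` or an algebra map over `f[X]`), which fixes
the image of `f[X]`, to the integral equation of `z`.
(2) For `j : ZMod ℓ`: `∑ k ∈ range ℓ, ζ^(-(k j.val)) rot^k s = ℓ (s j) u_j` (coefficientwise:
`∑ k, ζ^(k (i - j)) = 0` for `i ≠ j`; use `ζ⁻¹` in the field `f`), and `(ℓ : f) ≠ 0`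
(`IsPrimitiveRoot.neZero'` or: otherwise `X^ℓ - 1 = (X - 1)^ℓ`), so `(s j) u_j / q` is integral over
`f[X]`.
(3) `j = 0`: `(s 0) / q` is integral over `f[X]`, which is integrally closed, so `q ∣ s 0`.
`j ≠ 0`: the `ℓ`-th power `(s j)^ℓ (al^(ℓ - j.val) be^(j.val)) / q^ℓ` (`uu_pow_ell`) is integral over
`f[X]`, so `q^ℓ ∣ (s j)^ℓ al^(ℓ - j.val) be^(j.val)`; `dvd_of_pow_dvd` gives `q ∣ s j`.
(For both: if `P, Q : f[X]`, `Q ≠ 0`, and `P / Q` in `E` is integral over `f[X]`, then `Q ∣ P`: the map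
`RatFunc f → E` or `FractionRing f[X] → E` is injective, `IsIntegrallyClosed f[X]`.)
(4) So `s = q • s'` and `z = s'`.
-/

open Polynomial

namespace Pool.Agent.Helper12.SN

variable {ℓ : ℕ} [Fact ℓ.Prime] {f : Type} [Field f] {c : Fin 3 → f}

theorem algebraMap_injective : Function.Injective (algebraMap f[X] (RR ℓ c)) := by
  intro p q h
  have h1 := congrArg (fun r : RR ℓ c => r 0) h
  simp only [algebraMap_ap, if_true] at h1
  exact h1

instance isIntegral_RR : Algebra.IsIntegral f[X] (RR ℓ c) := by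
  exact Algebra.IsIntegral.of_finite f[X] (RR ℓ c)

private theorem ic_dvd {E : Type} [Field E] [Algebra f[X] E]
    (hinj : Function.Injective (algebraMap f[X] E)) {P Q : f[X]} (hQ : Q ≠ 0)
    (h : IsIntegral f[X] (algebraMap f[X] E P / algebraMap f[X] E Q)) : Q ∣ P := by
  have hg : Function.Injective (Algebra.ofId f[X] E) := hinj
  let ψ : FractionRing f[X] →ₐ[f[X]] E :=
    IsFractionRing.liftAlgHom (A := f[X]) (K := FractionRing f[X]) (g := Algebra.ofId f[X] E) hg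
  have h1 : ψ (algebraMap f[X] (FractionRing f[X]) P / algebraMap f[X] (FractionRing f[X]) Q) =
      algebraMap f[X] E P / algebraMap f[X] E Q := by
    rw [map_div₀, AlgHom.commutes, AlgHom.commutes]
  rw [← h1, isIntegral_algHom_iff ψ ψ.toRingHom.injective] at h
  obtain ⟨y, hy⟩ := (isIntegrallyClosed_iff (FractionRing f[X])).mp inferInstance h
  refine ⟨y, ?_⟩
  have hQ' : algebraMap f[X] (FractionRing f[X]) Q ≠ 0 := by
    intro h0
    exact hQ ((map_eq_zero_iff _ (IsFractionRing.injective f[X] (FractionRing f[X]))).mp h0)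
  apply IsFractionRing.injective f[X] (FractionRing f[X])
  rw [map_mul, hy, mul_div_cancel₀ _ hQ']

private theorem ic_con_mul (a : f) (r : RR ℓ c) (j : ZMod ℓ) :
    (con a * r : RR ℓ c) j = C a * r j := by
  have h4 : (con a : RR ℓ c) * r = (C a : f[X]) • r := (Algebra.smul_def (C a : f[X]) r).symm
  rw [h4, smul_ap]

private theorem ic_sum {z : f} (hz : IsPrimitiveRoot z ℓ) (s : RR ℓ c) (j : ZMod ℓ) :
    ∑ k ∈ Finset.range ℓ, con (z⁻¹ ^ (k * j.val)) *
      (rot z hz.pow_eq_one ^ k : RR ℓ c ≃+* RR ℓ c) s =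
      (C (ℓ : f) * s j) • (uu j : RR ℓ c) := by
  have hℓ : ℓ.Prime := Fact.out
  have hz0 : z ≠ 0 := hz.ne_zero hℓ.ne_zero
  ext1 i
  rw [sum_ap, smul_ap, uu_ap]
  have h1 : ∀ k ∈ Finset.range ℓ, (con (z⁻¹ ^ (k * j.val)) *
      (rot z hz.pow_eq_one ^ k : RR ℓ c ≃+* RR ℓ c) s : RR ℓ c) i =
      C ((z⁻¹ ^ j.val * z ^ i.val) ^ k) * s i := by
    intro k _
    rw [ic_con_mul, rot_pow_ap, ← mul_assoc, ← C_mul]
    congr 2
    rw [mul_pow, ← pow_mul, ← pow_mul, ← pow_mul, mul_comm k, mul_comm k]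
  rw [Finset.sum_congr rfl h1, ← Finset.sum_mul, ← map_sum]
  by_cases hij : i = j
  · subst hij
    have h2 : z⁻¹ ^ i.val * z ^ i.val = 1 := by
      rw [← mul_pow, inv_mul_cancel₀ hz0, one_pow]
    rw [if_pos rfl, h2]
    simp
  · rw [if_neg hij, mul_zero]
    have hw : z⁻¹ ^ j.val * z ^ i.val ≠ 1 := by
      intro h3
      apply hij
      have h4 : z ^ i.val = z ^ j.val := by
        rw [inv_pow, inv_mul_eq_one₀ (pow_ne_zero _ hz0)] at h3
        exact h3.symm
      exact ZMod.val_injective ℓ (hz.pow_inj (ZMod.val_lt i) (ZMod.val_lt j) h4)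
    have hw1 : (z⁻¹ ^ j.val * z ^ i.val) ^ ℓ = 1 := by
      rw [mul_pow, ← pow_mul, ← pow_mul, mul_comm j.val, mul_comm i.val, pow_mul, pow_mul,
        inv_pow, hz.pow_eq_one, inv_one, one_pow, one_pow, one_mul]
    have h5 := geom_sum_mul (z⁻¹ ^ j.val * z ^ i.val) ℓ
    rw [hw1, sub_self] at h5
    rcases mul_eq_zero.mp h5 with h6 | h6
    · rw [h6, C_0, zero_mul]
    · exact absurd (sub_eq_zero.mp h6) hw

private theorem ic_rot_alg (z : f) (hz : z ^ ℓ = 1) (k : ℕ) (p : f[X]) :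
    (rot z hz ^ k : RR ℓ c ≃+* RR ℓ c) (algebraMap f[X] (RR ℓ c) p) =
      algebraMap f[X] (RR ℓ c) p := by
  ext1 j
  rw [rot_pow_ap, algebraMap_ap]
  split_ifs with h
  · rw [h, ZMod.val_zero, pow_zero, C_1, one_mul]
  · rw [mul_zero]

section field

variable {E : Type} [Field E] [Algebra (RR ℓ c) E] [IsFractionRing (RR ℓ c) E]
  [Algebra f[X] E] [IsScalarTower f[X] (RR ℓ c) E]

omit [Algebra (RR ℓ c) E] [IsFractionRing (RR ℓ c) E] [Algebra f[X] E]
  [IsScalarTower f[X] (RR ℓ c) E] in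
private theorem ic_inj (ℓ : ℕ) [Fact ℓ.Prime] (c : Fin 3 → f) [Algebra (RR ℓ c) E]
    [IsFractionRing (RR ℓ c) E] [Algebra f[X] E] [IsScalarTower f[X] (RR ℓ c) E] :
    Function.Injective (algebraMap f[X] E) := by
  rw [IsScalarTower.algebraMap_eq f[X] (RR ℓ c) E]
  exact (IsFractionRing.injective (RR ℓ c) E).comp algebraMap_injective

private theorem ic_rot {z : f} (hz : z ^ ℓ = 1) (k : ℕ) {s : RR ℓ c} {q : f[X]}
    (h : IsIntegral f[X] (algebraMap (RR ℓ c) E s / algebraMap f[X] E q)) :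
    IsIntegral f[X] (algebraMap (RR ℓ c) E ((rot z hz ^ k : RR ℓ c ≃+* RR ℓ c) s) /
      algebraMap f[X] E q) := by
  have hj : Function.Injective
      (((rot z hz ^ k : RR ℓ c ≃+* RR ℓ c) : RR ℓ c →+* RR ℓ c)) :=
    (rot z hz ^ k : RR ℓ c ≃+* RR ℓ c).injective
  let ψ : E →+* E := IsFractionRing.map hj
  have h1 : ∀ r : RR ℓ c, ψ (algebraMap (RR ℓ c) E r) =
      algebraMap (RR ℓ c) E ((rot z hz ^ k : RR ℓ c ≃+* RR ℓ c) r) := by
    intro r
    exact IsLocalization.map_eq _ r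
  have h2 : ∀ p : f[X], ψ (algebraMap f[X] E p) = algebraMap f[X] E p := by
    intro p
    rw [IsScalarTower.algebraMap_apply f[X] (RR ℓ c) E, h1, ic_rot_alg]
  have h3 := IsIntegral.map_of_comp_eq (RingHom.id f[X]) ψ (by
    apply RingHom.ext
    intro p
    exact (h2 p).symm) h
  rw [map_div₀, h1, h2] at h3
  exact h3

private theorem ic_comp {z : f} (hz : IsPrimitiveRoot z ℓ) {s : RR ℓ c} {q : f[X]}
    (h : IsIntegral f[X] (algebraMap (RR ℓ c) E s / algebraMap f[X] E q)) (j : ZMod ℓ) :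
    IsIntegral f[X] (algebraMap (RR ℓ c) E (s j • (uu j : RR ℓ c)) / algebraMap f[X] E q) := by
  have hl : ((ℓ : ℕ) : f) ≠ 0 := by
    have := hz.neZero'
    exact NeZero.ne _
  have h1 : IsIntegral f[X] (algebraMap f[X] E (C (((ℓ : ℕ) : f)⁻¹)) *
      ∑ k ∈ Finset.range ℓ, algebraMap f[X] E (C (z⁻¹ ^ (k * j.val))) *
        (algebraMap (RR ℓ c) E ((rot z hz.pow_eq_one ^ k : RR ℓ c ≃+* RR ℓ c) s) /
          algebraMap f[X] E q)) := by
    refine IsIntegral.mul isIntegral_algebraMap (IsIntegral.sum _ fun k _ => ?_)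
    exact IsIntegral.mul isIntegral_algebraMap (ic_rot hz.pow_eq_one k h)
  have h2 : algebraMap f[X] E (C (((ℓ : ℕ) : f)⁻¹)) *
      ∑ k ∈ Finset.range ℓ, algebraMap f[X] E (C (z⁻¹ ^ (k * j.val))) *
        (algebraMap (RR ℓ c) E ((rot z hz.pow_eq_one ^ k : RR ℓ c ≃+* RR ℓ c) s) /
          algebraMap f[X] E q) =
      algebraMap (RR ℓ c) E (s j • (uu j : RR ℓ c)) / algebraMap f[X] E q := by
    have h3 : ∀ k ∈ Finset.range ℓ, algebraMap f[X] E (C (z⁻¹ ^ (k * j.val))) *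
        (algebraMap (RR ℓ c) E ((rot z hz.pow_eq_one ^ k : RR ℓ c ≃+* RR ℓ c) s) /
          algebraMap f[X] E q) = algebraMap (RR ℓ c) E (con (z⁻¹ ^ (k * j.val)) *
            (rot z hz.pow_eq_one ^ k : RR ℓ c ≃+* RR ℓ c) s) / algebraMap f[X] E q := by
      intro k _
      rw [map_mul, mul_div_assoc, IsScalarTower.algebraMap_apply f[X] (RR ℓ c) E]
      rfl
    rw [Finset.sum_congr rfl h3, ← Finset.sum_div, ← map_sum, ic_sum hz s j, mul_smul,
      Algebra.smul_def, map_mul, ← IsScalarTower.algebraMap_apply f[X] (RR ℓ c) E, mul_div_assoc,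
      ← mul_assoc, ← map_mul, ← C_mul, inv_mul_cancel₀ hl, C_1, map_one, one_mul]
  rw [h2] at h1
  exact h1

private theorem ic_main [Good ℓ c] {s : RR ℓ c} {q : f[X]} (hq : q ≠ 0)
    (h : IsIntegral f[X] (algebraMap (RR ℓ c) E s / algebraMap f[X] E q)) :
    ∃ t : RR ℓ c, s = q • t := by
  obtain ⟨z, hz⟩ := Good.prim (ℓ := ℓ) (c := c)
  have hinj : Function.Injective (algebraMap f[X] E) := ic_inj ℓ c
  have hq' : algebraMap f[X] E q ≠ 0 := by
    intro h0
    exact hq ((map_eq_zero_iff _ hinj).mp h0)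
  have hdv : ∀ j : ZMod ℓ, q ∣ s j := by
    intro j
    have h1 := ic_comp hz h j
    rw [Algebra.smul_def, map_mul, ← IsScalarTower.algebraMap_apply f[X] (RR ℓ c) E] at h1
    by_cases hj : j = 0
    · subst hj
      rw [uu_zero, map_one, mul_one] at h1
      exact ic_dvd hinj hq h1
    · have h2 := h1.pow ℓ
      rw [div_pow, mul_pow, ← map_pow, ← map_pow, uu_pow_ell hj,
        ← IsScalarTower.algebraMap_apply f[X] (RR ℓ c) E, ← map_mul, ← map_pow] at h2
      have h3 := ic_dvd hinj (pow_ne_zero ℓ hq) h2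
      have hj0 : 0 < j.val := by
        rw [Nat.pos_iff_ne_zero]
        intro h0
        exact hj ((ZMod.val_eq_zero j).mp h0)
      exact dvd_of_pow_dvd (Good.inj (ℓ := ℓ)) hj0 (ZMod.val_lt j) hq h3
  choose t ht using hdv
  refine ⟨⟨t⟩, ?_⟩
  ext1 j
  rw [smul_ap]
  exact ht j

end field

/-- `RR ℓ c` is integrally closed -/
instance isIntegrallyClosed_RR [Good ℓ c] : IsIntegrallyClosed (RR ℓ c) := by
  obtain ⟨z, hz⟩ := Good.prim (ℓ := ℓ) (c := c)
  rw [isIntegrallyClosed_iff (FractionRing (RR ℓ c))]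
  intro x hx
  have hx1 : IsIntegral f[X] x := isIntegral_trans x hx
  obtain ⟨a, b, hb, rfl⟩ := IsFractionRing.div_surjective (A := RR ℓ c) x
  have hb0 : b ≠ 0 := nonZeroDivisors.ne_zero hb
  obtain ⟨b', hb'⟩ := dvd_nm hz b
  have hq : nm z hz.pow_eq_one b ≠ 0 := nm_ne_zero hz hb0
  have hinj : Function.Injective (algebraMap f[X] (FractionRing (RR ℓ c))) :=
    ic_inj ℓ c
  have hq' : algebraMap f[X] (FractionRing (RR ℓ c)) (nm z hz.pow_eq_one b) ≠ 0 := by
    intro h0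
    exact hq ((map_eq_zero_iff _ hinj).mp h0)
  have hqe : algebraMap f[X] (FractionRing (RR ℓ c)) (nm z hz.pow_eq_one b) =
      algebraMap (RR ℓ c) (FractionRing (RR ℓ c)) b *
        algebraMap (RR ℓ c) (FractionRing (RR ℓ c)) b' := by
    rw [IsScalarTower.algebraMap_apply f[X] (RR ℓ c) (FractionRing (RR ℓ c)), hb', map_mul]
  have hb1 : algebraMap (RR ℓ c) (FractionRing (RR ℓ c)) b ≠ 0 := by
    intro h0
    rw [hqe, h0, zero_mul] at hq'
    exact hq' rfl
  have hb2 : algebraMap (RR ℓ c) (FractionRing (RR ℓ c)) b' ≠ 0 := by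
    intro h0
    rw [hqe, h0, mul_zero] at hq'
    exact hq' rfl
  have he : algebraMap (RR ℓ c) (FractionRing (RR ℓ c)) a /
      algebraMap (RR ℓ c) (FractionRing (RR ℓ c)) b =
      algebraMap (RR ℓ c) (FractionRing (RR ℓ c)) (a * b') /
        algebraMap f[X] (FractionRing (RR ℓ c)) (nm z hz.pow_eq_one b) := by
    rw [hqe, map_mul, mul_div_mul_right _ _ hb2]
  rw [he] at hx1 ⊢
  obtain ⟨t, ht⟩ := ic_main hq hx1
  refine ⟨t, ?_⟩
  rw [ht, Algebra.smul_def, map_mul, ← IsScalarTower.algebraMap_apply f[X] (RR ℓ c),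
    mul_div_cancel_left₀ _ hq']

end Pool.Agent.Helper12.SN
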