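import Pool.Agent.Helper12.SN.JacDefs

set_option autoImplicit false
set_option linter.unusedSectionVars false

/-!
# SB-N-28: the norm of a class is trivial; `π`-power torsion is `ℓ`-power torsion

`norm_class`: `x = cl I`, `(clm rot)^[k] (cl I) = cl (I.map (rot^k))` by induction (`clm_cl`,
`Ideal.map_map`, `pow_succ'`; `I.map (rot^(k+1)) = (I.map (rot^k)).map rot`), so the product is `cl (nI I)`
(`cl_mul`, induction on the number of factors), and `nI I = span {algebraMap n}`, `n` monic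
(`exists_nI`), `cl_span`.
`pow_ell_of_pi1`: write `ρ = clm rot`.  In the commutative group, for every `x`:
`x^ℓ = x^ℓ / ∏ k ∈ range ℓ, ρ^k x = ∏ k ∈ range ℓ, (x / ρ^k x)`, and
`x / ρ^k x = ∏ i ∈ range k, ρ^i (π x)` (telescoping, `ρ π = π ρ`).  So `x^ℓ = ψ (π x)` with the
endomorphism `ψ y = ∏ k ∈ range ℓ, ∏ i ∈ range k, ρ^i y`, which commutes with `π`.  Induction on `n`:
if `π^[n+1] x = 1` then `π^[n] (π x) = 1`, so `π^[n] (x^ℓ) = π^[n] (ψ (π x)) = ψ (π^[n] (π x)) = 1`, so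
`(x^ℓ)^(ℓ^n) = 1`.
-/

open Polynomial

namespace Pool.Agent.Helper12.SN

variable {ℓ : ℕ} [Fact ℓ.Prime] {f : Type} [Field f] {c : Fin 3 → f} [IsAlgClosed f] [Good ℓ c]

private theorem h86_abs {C : Type} [CommGroup C] (ρ : C →* C) (ℓ : ℕ)
    (hN : ∀ x : C, ∏ k ∈ Finset.range ℓ, ρ^[k] x = 1) (π : C → C) (hπ : ∀ x, π x = x / ρ x) :
    (∀ x, ∃ y, π y = x ^ ℓ) ∧ ∀ (n : ℕ) (x : C), π^[n] x = 1 → x ^ ℓ ^ n = 1 := by
  obtain ⟨ψ, hψ⟩ : ∃ ψ : C → C, ∀ x, ψ x = ∏ k ∈ Finset.range ℓ, ∏ i ∈ Finset.range k, ρ^[i] x :=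
    ⟨_, fun _ => rfl⟩
  have h0 : ∀ x : C, ∏ k ∈ Finset.range ℓ, ∏ i ∈ Finset.range k, (ρ^[i] x / ρ^[i + 1] x) = x ^ ℓ := by
    intro x
    have h1 : ∀ k ∈ Finset.range ℓ, ∏ i ∈ Finset.range k, (ρ^[i] x / ρ^[i + 1] x) = x / ρ^[k] x :=
      fun k _ => Finset.prod_range_div' (fun i => ρ^[i] x) k
    rw [Finset.prod_congr rfl h1, Finset.prod_div_distrib, hN, Finset.prod_const, Finset.card_range,
      div_one]
  have h1 : ∀ x, π (ψ x) = x ^ ℓ := by
    intro x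
    rw [hπ, hψ, map_prod, ← Finset.prod_div_distrib, ← h0 x]
    refine Finset.prod_congr rfl fun k _ => ?_
    rw [map_prod, ← Finset.prod_div_distrib]
    refine Finset.prod_congr rfl fun i _ => ?_
    rw [Function.iterate_succ_apply']
  have h2 : ∀ x, ψ (π x) = x ^ ℓ := by
    intro x
    rw [hπ, hψ, ← h0 x]
    refine Finset.prod_congr rfl fun k _ => Finset.prod_congr rfl fun i _ => ?_
    rw [iterate_map_div, Function.iterate_succ_apply]
  have h3 : Function.Semiconj ψ π π := fun x => by rw [h1, h2]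
  have h4 : ψ 1 = 1 := by
    rw [hψ]
    refine Finset.prod_eq_one fun k _ => Finset.prod_eq_one fun i _ => ?_
    exact iterate_map_one ρ i
  refine ⟨fun x => ⟨ψ x, h1 x⟩, fun n => ?_⟩
  induction n with
  | zero =>
    intro x hx
    rw [pow_zero, pow_one]
    exact hx
  | succ n ih =>
    intro x hx
    rw [Function.iterate_succ_apply] at hx
    have h5 : π^[n] (x ^ ℓ) = 1 := by
      rw [← h2 x, ← (h3.iterate_right n).eq, hx, h4]
    have h6 := ih _ h5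
    rw [pow_succ', pow_mul]
    exact h6

private theorem h86_map_one {R : Type} [CommRing R] (I : Ideal R) : I.map (1 : R ≃+* R) = I := by
  rw [← Ideal.map_coe]
  exact Ideal.map_id I

private theorem h86_map_mul {R : Type} [CommRing R] (g h : R ≃+* R) (I : Ideal R) :
    (I.map h).map g = I.map (g * h) := by
  rw [← Ideal.map_coe g, ← Ideal.map_coe h, ← Ideal.map_coe (g * h), Ideal.map_map]
  rfl

private theorem h86_iter {R : Type} [CommRing R] [IsDedekindDomain R] (g : R ≃+* R) {I : Ideal R}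
    (hI : I ≠ ⊥) (k : ℕ) : (clm g)^[k] (cl I) = cl (I.map (g ^ k : R ≃+* R)) := by
  induction k with
  | zero => rw [Function.iterate_zero, id, pow_zero, h86_map_one]
  | succ k ih =>
    rw [Function.iterate_succ_apply', ih, clm_cl g (map_ne_bot _ hI), h86_map_mul, ← pow_succ']

private theorem h86_prod {R : Type} [CommRing R] [IsDedekindDomain R] (J : ℕ → Ideal R)
    (hJ : ∀ k, J k ≠ ⊥) (n : ℕ) :
    (∏ k ∈ Finset.range n, J k) ≠ ⊥ ∧
      ∏ k ∈ Finset.range n, cl (J k) = cl (∏ k ∈ Finset.range n, J k) := by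
  induction n with
  | zero =>
    rw [Finset.prod_range_zero, Finset.prod_range_zero, Ideal.one_eq_top, cl_top]
    exact ⟨top_ne_bot, rfl⟩
  | succ n ih =>
    rw [Finset.prod_range_succ, Finset.prod_range_succ, ih.2, cl_mul ih.1 (hJ n)]
    exact ⟨mul_ne_zero ih.1 (hJ n), rfl⟩

/-- the norm of a class is trivial -/
theorem norm_class {z : f} (hζ : IsPrimitiveRoot z ℓ) (x : ClassGroup (RR ℓ c)) :
    ∏ k ∈ Finset.range ℓ, (clm (rot z hζ.pow_eq_one))^[k] x = 1 := by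
  obtain ⟨I, hI, rfl⟩ := cl_surj x
  obtain ⟨n, hn, hnI⟩ := exists_nI hζ hI
  have h1 : ∀ k ∈ Finset.range ℓ, (clm (rot z hζ.pow_eq_one))^[k] (cl I) =
      cl (I.map (rot z hζ.pow_eq_one ^ k : RR ℓ c ≃+* RR ℓ c)) := fun k _ => h86_iter _ hI k
  rw [Finset.prod_congr rfl h1, (h86_prod _ (fun k => map_ne_bot _ hI) ℓ).2]
  have h2 : ∏ k ∈ Finset.range ℓ, I.map (rot z hζ.pow_eq_one ^ k : RR ℓ c ≃+* RR ℓ c) =
      Ideal.span {algebraMap f[X] (RR ℓ c) n} := hnI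
  rw [h2]
  refine cl_span fun h => ?_
  rw [← map_zero (algebraMap f[X] (RR ℓ c))] at h
  exact hn.ne_zero (algebraMap_injective (ℓ := ℓ) (c := c) h)

/-- `ℓ` is divisible by `π` -/
theorem exists_pi1_eq_pow {z : f} (hζ : IsPrimitiveRoot z ℓ) (x : ClassGroup (RR ℓ c)) :
    ∃ y : ClassGroup (RR ℓ c), pi1 z hζ.pow_eq_one y = x ^ ℓ := by
  exact (h86_abs (clm (rot z hζ.pow_eq_one)).toMonoidHom ℓ (norm_class hζ)
    (pi1 z hζ.pow_eq_one) (fun x => rfl)).1 x

/-- N7: the `π`-power torsion is `ℓ`-power torsion -/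
theorem pow_ell_of_pi1 {z : f} (hζ : IsPrimitiveRoot z ℓ) (x : ClassGroup (RR ℓ c)) (n : ℕ)
    (hx : (pi1 z hζ.pow_eq_one)^[n] x = 1) : x ^ ℓ ^ n = 1 := by
  exact (h86_abs (clm (rot z hζ.pow_eq_one)).toMonoidHom ℓ (norm_class hζ)
    (pi1 z hζ.pow_eq_one) (fun x => rfl)).2 n x hx

end Pool.Agent.Helper12.SN
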