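import Pool.Agent.Helper12.SN.JacDefs

set_option autoImplicit false
set_option linter.unusedSectionVars false

/-!
# SB-N-31: N6, the relations between the classes of the `p_i`

PROOF.  `cl (p_0^i * p_2^j) = 1` (`cl_mul`, `cl_pow`), so `p_0^i * p_2^j = span {g}`, `g ≠ 0`
(`cl_eq_one_iff`).  Let `z` be a primitive root (`Good.prim`).
(1) `rot g` generates the same ideal (`map_rot_pp`, `Ideal.map_mul`, `Ideal.map_pow`,
`Ideal.map_span`), so `rot g = u g`, `u` a unit, `u = con ε` (`unit_eq_con`); comparing leading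
coefficients (`lc_rot`, `lc_mul`): `ε = z^(dg g)`.  `rot_eigen` with `t = dg g`:
`g = p • u_τ`, `τ := (dg g : ZMod ℓ)`, `p := g τ ≠ 0`.
(2) If `τ ≠ 0`: the coefficient of `g` at `u_0` is `0`, so `evc c 1 g = 0`, i.e. `g ∈ pp c 1`, so
`p_0^i * p_2^j ≤ p_1`, `p_1` prime: `p_0 ≤ p_1` or `p_2 ≤ p_1` (or `⊤ ≤ p_1` if `i = j = 0`, false);
but `X - C (c 0) ∈ p_0` has value `c 1 - c 0 ≠ 0` at `p_1` (`Good.inj`): contradiction.
(3) So `τ = 0`, `g = algebraMap p`.  If `i > 0`: `g ∈ p_0`, `p.eval (c 0) = 0`, `X - C (c 0) ∣ p`, so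
`p_0^ℓ = span {algebraMap (X - C (c 0))} ∣ p_0^i * p_2^j` (`pp_pow`, `Ideal.dvd_iff_le`), and
`i < ℓ`: cancel `p_0^i`: `p_0^(ℓ-i) ∣ p_2^j`, so `p_0 ∣ p_2^j`, `p_2^j ≤ p_0`, `p_2 ≤ p_0` (or `⊤ ≤ p_0`),
contradiction as in (2) (`X - C (c 2)` has value `c 0 - c 2 ≠ 0` at `p_0`).  Same for `j > 0` with the
roles of `0` and `2` exchanged.
-/

open Polynomial

namespace Pool.Agent.Helper12.SN

variable {ℓ : ℕ} [Fact ℓ.Prime] {f : Type} [Field f] {c : Fin 3 → f} [IsAlgClosed f] [Good ℓ c]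

omit [IsAlgClosed f] in
private theorem rel_not_le {i j : Fin 3} (hij : i ≠ j) : ¬ (pp c i : Ideal (RR ℓ c)) ≤ pp c j := by
  intro h
  have h1 := h (xc_mem_pp i)
  rw [pp, RingHom.mem_ker, evc_ap, algebraMap_ap, if_pos rfl, eval_sub, eval_X, eval_C,
    sub_eq_zero] at h1
  exact hij (Good.inj (ℓ := ℓ) h1.symm)

omit [IsAlgClosed f] in
private theorem rel_not_pow_le {i j : Fin 3} (hij : i ≠ j) (n : ℕ) :
    ¬ (pp c i : Ideal (RR ℓ c)) ^ n ≤ pp c j := by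
  intro h
  have hp : (pp c j : Ideal (RR ℓ c)).IsMaximal := pp_isMaximal j
  rcases Nat.eq_zero_or_pos n with rfl | hn
  · rw [pow_zero, Ideal.one_eq_top] at h
    exact hp.ne_top (top_le_iff.1 h)
  · have hp' := hp.isPrime
    exact rel_not_le hij ((Ideal.IsPrime.pow_le_iff hn.ne').1 h)

private theorem rel_zero {a b : Fin 3} (hab : a ≠ b) {i j : ℕ} (hi : i < ℓ) {q : f[X]}
    (hg : (pp c a : Ideal (RR ℓ c)) ^ i * pp c b ^ j = Ideal.span {algebraMap f[X] (RR ℓ c) q}) :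
    i = 0 := by
  by_contra hi0
  have hpa : (pp c a : Ideal (RR ℓ c)) ≠ ⊥ := ne_bot_of_isMaximal (pp_isMaximal a)
  have h1 : algebraMap f[X] (RR ℓ c) q ∈ (pp c a : Ideal (RR ℓ c)) := by
    have h2 : Ideal.span {algebraMap f[X] (RR ℓ c) q} ≤ pp c a := by
      rw [← hg]
      exact Ideal.mul_le_left.trans (Ideal.pow_le_self hi0)
    exact h2 (Ideal.mem_span_singleton_self _)
  rw [pp, RingHom.mem_ker, evc_ap, algebraMap_ap, if_pos rfl] at h1
  have h3 : X - C (c a) ∣ q := dvd_iff_isRoot.2 h1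
  have h4 : Ideal.span {algebraMap f[X] (RR ℓ c) q} ≤ (pp c a : Ideal (RR ℓ c)) ^ ℓ := by
    rw [pp_pow, Ideal.span_singleton_le_span_singleton]
    exact map_dvd _ h3
  obtain ⟨m, hm⟩ := Nat.exists_eq_add_of_lt hi
  have hpow : (pp c a : Ideal (RR ℓ c)) ^ ℓ = pp c a ^ i * pp c a ^ (m + 1) := by
    rw [← pow_add]
    congr 1
  rw [← hg, hpow] at h4
  have h5 := (mul_dvd_mul_iff_left (pow_ne_zero i hpa)).1 (Ideal.dvd_iff_le.2 h4)
  have h6 : (pp c a : Ideal (RR ℓ c)) ∣ pp c b ^ j :=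
    (dvd_pow_self _ (Nat.succ_ne_zero m)).trans h5
  exact rel_not_pow_le hab.symm j (Ideal.dvd_iff_le.1 h6)

/-- N6: the relations -/
theorem rel_pp (i j : ℕ) (hi : i < ℓ) (hj : j < ℓ)
    (h : cl (pp c 0 : Ideal (RR ℓ c)) ^ i * cl (pp c 2) ^ j = 1) : i = 0 ∧ j = 0 := by
  have hpp : ∀ i, (pp c i : Ideal (RR ℓ c)) ≠ ⊥ := fun i => ne_bot_of_isMaximal (pp_isMaximal i)
  have hne : (pp c 0 : Ideal (RR ℓ c)) ^ i * pp c 2 ^ j ≠ ⊥ :=
    mul_ne_zero (pow_ne_zero _ (hpp 0)) (pow_ne_zero _ (hpp 2))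
  rw [← cl_pow (hpp 0), ← cl_pow (hpp 2), ← cl_mul (pow_ne_zero _ (hpp 0)) (pow_ne_zero _ (hpp 2)),
    cl_eq_one_iff hne] at h
  obtain ⟨g, hg0, hg⟩ := h
  obtain ⟨z, hz⟩ := Good.prim (ℓ := ℓ) (c := c)
  have hspan : Ideal.span {rot z hz.pow_eq_one g} = Ideal.span {g} := by
    have h1 : (Ideal.span {g}).map (rot z hz.pow_eq_one) = Ideal.span {rot z hz.pow_eq_one g} := by
      rw [Ideal.map_span, Set.image_singleton]
    rw [← h1, ← hg, Ideal.map_mul, Ideal.map_pow, Ideal.map_pow, map_rot_pp, map_rot_pp]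
  obtain ⟨u, hu⟩ := (Ideal.span_singleton_eq_span_singleton.1 hspan).symm
  have hlg := lc_ne_zero hg0
  have hlu : lc (u : RR ℓ c) = z ^ dg g := by
    have h1 := congrArg lc hu
    rw [lc_mul, lc_rot, mul_comm] at h1
    exact mul_right_cancel₀ hlg h1
  have hrot : rot z hz.pow_eq_one g = con (z ^ dg g) * g := by
    rw [← hu, ← hlu, ← (unit_eq_con u.isUnit).1, mul_comm]
  have heig := rot_eigen hz hrot
  by_cases hτ : ((dg g : ℕ) : ZMod ℓ) = 0
  · rw [hτ, uu_zero, ← Algebra.algebraMap_eq_smul_one] at heig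
    rw [heig] at hg
    refine ⟨rel_zero (by decide) hi hg, ?_⟩
    rw [mul_comm] at hg
    exact rel_zero (by decide) hj hg
  · exfalso
    have h1 : g 0 = 0 := by
      have h2 := congrArg (fun r : RR ℓ c => r 0) heig
      simp only [smul_ap] at h2
      rw [uu_ap, if_neg (Ne.symm hτ), mul_zero] at h2
      exact h2
    have h3 : g ∈ (pp c 1 : Ideal (RR ℓ c)) := by
      rw [pp, RingHom.mem_ker, evc_ap, h1, eval_zero]
    have h4 : (pp c 0 : Ideal (RR ℓ c)) ^ i * pp c 2 ^ j ≤ pp c 1 := by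
      rw [hg, Ideal.span_singleton_le_iff_mem]
      exact h3
    have hp' : (pp c 1 : Ideal (RR ℓ c)).IsPrime := (pp_isMaximal 1).isPrime
    rcases (Ideal.IsPrime.mul_le hp').1 h4 with h5 | h5
    · exact rel_not_pow_le (by decide) i h5
    · exact rel_not_pow_le (by decide) j h5

end Pool.Agent.Helper12.SN
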