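import Pool.Agent.Helper12.SN.Ker
import Pool.Agent.Helper12.SN.Rel
import Pool.Agent.Helper12.SN.NormCl
import Pool.Agent.Helper12.SN.Div

/-!
# SB-N: the class group of `RR ℓ c` (collects JacDefs, NormCl, Stab, Ker, Rel, Div)
-/
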