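import Pool.Agent.Helper12.SN.Pts
import Pool.Agent.Helper12.SN.Cls

set_option autoImplicit false
set_option linter.unusedSectionVars false

/-!
# SB-N-27: the endomorphism `π = 1 - ρ` of the class group; the classes of the `p_i`

`cl_pp_pow`: `cl_pow`, `pp_pow`, `cl_span` (`algebraMap (X - C _) ≠ 0`).
`cl_pp_rel`: `span_uu_one`, `cl_mul`, `cl_pow`, `cl_span` (`uu 1 ≠ 0`):
`cl p_0 * cl p_2 * (cl p_1)^(ℓ-1) = 1`, and `(cl p_1)^ℓ = 1`.
`clm_pp`: `clm_cl`, `map_rot_pp`.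
-/

open Polynomial

namespace Pool.Agent.Helper12.SN

variable {ℓ : ℕ} [Fact ℓ.Prime] {f : Type} [Field f] {c : Fin 3 → f}

/-- `π = 1 - ρ` -/
noncomputable def pi1 [Good ℓ c] (z : f) (hz : z ^ ℓ = 1) :
    ClassGroup (RR ℓ c) →* ClassGroup (RR ℓ c) :=
  MonoidHom.id _ / (clm (rot z hz)).toMonoidHom

theorem pi1_ap [Good ℓ c] (z : f) (hz : z ^ ℓ = 1) (x : ClassGroup (RR ℓ c)) :
    pi1 z hz x = x / clm (rot z hz) x := rfl

variable [IsAlgClosed f] [Good ℓ c]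

private theorem jd_ne (i : Fin 3) : algebraMap f[X] (RR ℓ c) (X - C (c i)) ≠ 0 := by
  intro h
  rw [map_eq_zero_iff _ algebraMap_injective] at h
  exact X_sub_C_ne_zero _ h

private theorem jd_bot (i : Fin 3) : (pp c i : Ideal (RR ℓ c)) ≠ ⊥ :=
  ne_bot_of_isMaximal (pp_isMaximal i)

theorem cl_pp_pow (i : Fin 3) : cl (pp c i : Ideal (RR ℓ c)) ^ ℓ = 1 := by
  rw [← cl_pow (jd_bot i), pp_pow, cl_span (jd_ne i)]

theorem cl_pp_rel : cl (pp c 0 : Ideal (RR ℓ c)) * cl (pp c 2) = cl (pp c 1) := by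
  have hl : ℓ.Prime := Fact.out
  have hu : (uu 1 : RR ℓ c) ≠ 0 := by
    intro h
    have h1 := congrArg (fun r : RR ℓ c => r 1) h
    simp only [zero_ap] at h1
    rw [uu_ap, if_pos rfl] at h1
    exact one_ne_zero h1
  have h2 : cl (pp c 0 : Ideal (RR ℓ c)) * cl (pp c 2) * cl (pp c 1) ^ (ℓ - 1) = 1 := by
    rw [← cl_pow (jd_bot 1), ← cl_mul (jd_bot 0) (jd_bot 2),
      ← cl_mul (mul_ne_zero (jd_bot 0) (jd_bot 2)) (pow_ne_zero _ (jd_bot 1)), ← span_uu_one,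
      cl_span hu]
  have h3 : cl (pp c 1 : Ideal (RR ℓ c)) * cl (pp c 1) ^ (ℓ - 1) = 1 := by
    rw [← pow_succ', Nat.sub_add_cancel hl.one_lt.le, cl_pp_pow]
  exact mul_right_cancel (h2.trans h3.symm)

theorem clm_pp (z : f) (hz : z ^ ℓ = 1) (i : Fin 3) :
    clm (rot z hz) (cl (pp c i : Ideal (RR ℓ c))) = cl (pp c i) := by
  rw [clm_cl _ (jd_bot i), map_rot_pp]

end Pool.Agent.Helper12.SN
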