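import Pool.Agent.Helper12.SN.TwA

set_option autoImplicit false
set_option linter.unusedSectionVars false

/-!
# SB-N-25: the relation `J = h I`, second part

`tw_self`: `I` is invertible (Dedekind domain, `I ≠ ⊥`), so `spanSingleton h = 1`, and `h` and `h⁻¹`
are in the image of `R` (`FractionalIdeal.spanSingleton_eq_one...` or `mem_one_iff`, applied to
`h` and `h⁻¹`; `h ≠ 0` by `tw_ne`); they multiply to `1`.  Or: `h = b / a`, `span {a} * I =
span {b} * I` (`tw_iff`), cancel `I` (`Ideal` cancellation in a Dedekind domain), `span {a} = span {b}`,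
`Ideal.span_singleton_eq_span_singleton`.
`tw_unit`: `spanSingleton (u h) = spanSingleton h` for a unit `u` (`span {u} = ⊤`).
`tw_unique`: `h ≠ 0`; `tw_symm` and `tw_trans` give `Tw J J (h⁻¹ * h')`; `tw_self`.
`cl_eq_iff_tw`: `cl_eq_iff` and `tw_iff` with `h = b / a` ; conversely `h = b / a`
(`IsFractionRing.div_surjective`), `b ≠ 0` because `h ≠ 0`.
`tw_map`: `h = b / a` with `a ≠ 0`; `tw_iff`, apply `Ideal.map g` (`Ideal.map_mul`, `Ideal.map_span`) to
`span {a} * J = span {b} * I`; `fE E g (b / a) = g b / g a`.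
-/

open scoped nonZeroDivisors

namespace Pool.Agent.Helper12.SN

variable {R : Type} [CommRing R] [IsDedekindDomain R] {E : Type} [Field E] [Algebra R E]
  [IsFractionRing R E]

theorem tw_self {I : Ideal R} (hI : I ≠ ⊥) {h : E} (h1 : Tw I I h) :
    ∃ u : Rˣ, h = algebraMap R E u := by
  obtain ⟨b, a, ha, rfl⟩ := IsFractionRing.div_surjective (A := R) h
  have ha0 : a ≠ 0 := nonZeroDivisors.ne_zero ha
  have h2 := (tw_iff I I a b ha0).1 h1
  have h3 : Ideal.span {a} = Ideal.span {b} := mul_right_cancel₀ (b := I) hI h2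
  obtain ⟨u, hu⟩ := Ideal.span_singleton_eq_span_singleton.1 h3
  refine ⟨u, ?_⟩
  have ha1 : algebraMap R E a ≠ 0 := by
    intro h0
    exact ha0 ((IsFractionRing.injective R E) (by rw [h0, map_zero]))
  rw [← hu, map_mul]
  field_simp

theorem tw_unique {I J : Ideal R} (hJ : J ≠ ⊥) {h h' : E} (h1 : Tw I J h) (h2 : Tw I J h') :
    ∃ u : Rˣ, h' = algebraMap R E u * h := by
  have hh : h ≠ 0 := tw_ne hJ h1
  have h3 : Tw J J (h⁻¹ * h') := tw_trans (tw_symm hh h1) h2
  obtain ⟨u, hu⟩ := tw_self hJ h3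
  refine ⟨u, ?_⟩
  rw [← hu]
  field_simp

theorem tw_unit {I J : Ideal R} {h : E} (h1 : Tw I J h) (u : Rˣ) :
    Tw I J (algebraMap R E u * h) := by
  have h2 : Tw I I (algebraMap R E u / algebraMap R E 1) := by
    rw [tw_iff I I 1 (u : R) one_ne_zero]
    congr 1
    rw [Ideal.span_singleton_eq_span_singleton]
    exact ⟨u, one_mul _⟩
  rw [map_one, div_one] at h2
  exact tw_trans h2 h1

theorem cl_eq_iff_tw {I J : Ideal R} (hI : I ≠ ⊥) (hJ : J ≠ ⊥) :
    cl I = cl J ↔ ∃ h : E, h ≠ 0 ∧ Tw I J h := by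
  rw [cl_eq_iff hI hJ]
  have hinj : ∀ r : R, r ≠ 0 → algebraMap R E r ≠ 0 := by
    intro r hr h0
    exact hr ((IsFractionRing.injective R E) (by rw [h0, map_zero]))
  constructor
  · rintro ⟨a, b, ha, hb, hab⟩
    exact ⟨algebraMap R E a / algebraMap R E b, div_ne_zero (hinj a ha) (hinj b hb),
      (tw_iff I J b a hb).2 hab.symm⟩
  · rintro ⟨h, hh, h1⟩
    obtain ⟨b, a, ha, rfl⟩ := IsFractionRing.div_surjective (A := R) h
    have ha0 : a ≠ 0 := nonZeroDivisors.ne_zero ha
    have hb0 : b ≠ 0 := by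
      rintro rfl
      rw [map_zero, zero_div] at hh
      exact hh rfl
    exact ⟨b, a, hb0, ha0, ((tw_iff I J a b ha0).1 h1).symm⟩

/-- the automorphism of the fraction field induced by an automorphism of the ring -/
noncomputable def fE (E : Type) [Field E] [Algebra R E] [IsFractionRing R E] (g : R ≃+* R) :
    E ≃+* E := IsFractionRing.ringEquivOfRingEquiv g

theorem fE_algebraMap (g : R ≃+* R) (r : R) : fE E g (algebraMap R E r) = algebraMap R E (g r) :=
  IsFractionRing.ringEquivOfRingEquiv_algebraMap g r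

theorem tw_map {I J : Ideal R} {h : E} (g : R ≃+* R) (h1 : Tw I J h) :
    Tw (I.map g) (J.map g) (fE E g h) := by
  obtain ⟨b, a, ha, rfl⟩ := IsFractionRing.div_surjective (A := R) h
  have ha0 : a ≠ 0 := nonZeroDivisors.ne_zero ha
  have h2 := (tw_iff I J a b ha0).1 h1
  have ha1 : g a ≠ 0 := fun h0 => ha0 (g.injective (by rw [h0, map_zero]))
  rw [map_div₀, fE_algebraMap, fE_algebraMap, tw_iff _ _ _ _ ha1]
  have h3 := congrArg (Ideal.map g) h2
  rw [Ideal.map_mul, Ideal.map_mul, Ideal.map_span, Ideal.map_span, Set.image_singleton,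
    Set.image_singleton] at h3
  exact h3

theorem fE_pow (g : R ≃+* R) (k : ℕ) (z : E) :
    (fE E g ^ k : E ≃+* E) z = fE E (g ^ k : R ≃+* R) z := by
  have h1 : ∀ r : R, (fE E g ^ k : E ≃+* E) (algebraMap R E r) =
      algebraMap R E ((g ^ k : R ≃+* R) r) := by
    induction k with
    | zero => intro r; rfl
    | succ k ih =>
      intro r
      rw [pow_succ, pow_succ]
      show (fE E g ^ k : E ≃+* E) (fE E g (algebraMap R E r)) =
        algebraMap R E ((g ^ k : R ≃+* R) (g r))
      rw [fE_algebraMap, ih]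
  obtain ⟨b, a, ha, rfl⟩ := IsFractionRing.div_surjective (A := R) z
  rw [map_div₀, map_div₀, h1, h1, fE_algebraMap, fE_algebraMap]

end Pool.Agent.Helper12.SN
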