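import Pool.Agent.Helper12.SN.Inf
import Pool.Agent.Helper12.SN.Tw
import Pool.Agent.Helper12.SN.Ded

set_option autoImplicit false
set_option linter.unusedSectionVars false

/-!
# SB-N-26: the leading coefficient at infinity on the function field

`exists_lcE`: define `F z := lc a / lc b` for `z = a / b`, `b ≠ 0` (choose `a, b` with
`IsFractionRing.div_surjective`, or `IsLocalization.sec`).  If `a / b = a' / b'` then `a b' = a' b`, so
`lc a lc b' = lc a' lc b` (`lc_mul`), and `lc b, lc b' ≠ 0` (`lc_ne_zero`): `F` is well defined: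
`F (a / b) = lc a / lc b` for ALL `a, b` with `b ≠ 0`.  Multiplicativity, `F 0 = 0`, `F 1 = 1`,
`F (algebraMap r) = lc r` (`b = 1`, `lc_one`).
`lcE_ne_zero`: a monoid-with-zero homomorphism of fields (`map_ne_zero`).
`lcE_mapEquiv`: `h = a / b`, `fE_algebraMap`, `lcE_algebraMap`, `lc_map` (the map `RR.mapEquiv γ` is
`RR.map (γ : f →+* f)` on elements: `rfl` or `ext`).
`lcE_rot`: `h = a / b`, `lc_rot`.  `lcE_con`: `lc_con`.
`exists_tw_lc`: `cl_eq_iff_tw` gives `g0 ≠ 0` with `Tw I J g0`; `α := lcE g0 ≠ 0`; `con α⁻¹` is a unit of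
`RR ℓ c`; `g := algebraMap (con α⁻¹) * g0`, `tw_unit`.
`tw_lc_unique`: `tw_unique`: `g' = u g`, `u` a unit, `u = con (lc u)` (`unit_eq_con`), and
`1 = lcE g' = lc u * 1`.
-/

open Polynomial

namespace Pool.Agent.Helper12.SN

variable (ℓ : ℕ) [Fact ℓ.Prime] {f : Type} [Field f] (c : Fin 3 → f)
  (E : Type) [Field E] [Algebra (RR ℓ c) E] [IsFractionRing (RR ℓ c) E]

theorem exists_lcE : ∃ F : E →*₀ f, ∀ r : RR ℓ c, F (algebraMap (RR ℓ c) E r) = lc r := by
  have hinj : Function.Injective (algebraMap (RR ℓ c) E) := IsFractionRing.injective _ _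
  have hex : ∀ z : E, ∃ a b : RR ℓ c, b ≠ 0 ∧ algebraMap (RR ℓ c) E a / algebraMap (RR ℓ c) E b = z := by
    intro z
    obtain ⟨a, b, hb, rfl⟩ := IsFractionRing.div_surjective (A := RR ℓ c) z
    exact ⟨a, b, nonZeroDivisors.ne_zero hb, rfl⟩
  choose u v hv huv using hex
  have hne : ∀ b : RR ℓ c, b ≠ 0 → algebraMap (RR ℓ c) E b ≠ 0 := fun b hb h0 =>
    hb (hinj (by rw [h0, map_zero]))
  have key : ∀ a b : RR ℓ c, b ≠ 0 → lc (u (algebraMap (RR ℓ c) E a / algebraMap (RR ℓ c) E b)) /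
      lc (v (algebraMap (RR ℓ c) E a / algebraMap (RR ℓ c) E b)) = lc a / lc b := by
    intro a b hb
    generalize hz : algebraMap (RR ℓ c) E a / algebraMap (RR ℓ c) E b = z
    have h1 := huv z
    rw [← hz, div_eq_div_iff (hne _ (by rw [hz]; exact hv z)) (hne b hb), hz, ← map_mul, ← map_mul] at h1
    have h2 := congrArg lc (hinj h1)
    rw [lc_mul, lc_mul] at h2
    rw [div_eq_div_iff (lc_ne_zero (hv z)) (lc_ne_zero hb)]
    exact h2
  have keyr : ∀ r : RR ℓ c, lc (u (algebraMap (RR ℓ c) E r)) / lc (v (algebraMap (RR ℓ c) E r)) =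
      lc r := by
    intro r
    have h1 := key r 1 one_ne_zero
    rwa [map_one, div_one, lc_one, div_one] at h1
  refine ⟨{ toFun := fun z => lc (u z) / lc (v z), map_zero' := ?_, map_one' := ?_, map_mul' := ?_ },
    keyr⟩
  · have h1 := keyr 0
    rwa [map_zero, lc_zero] at h1
  · have h1 := keyr 1
    rwa [map_one, lc_one] at h1
  · intro x y
    change lc (u (x * y)) / lc (v (x * y)) = lc (u x) / lc (v x) * (lc (u y) / lc (v y))
    have h1 : x * y = algebraMap (RR ℓ c) E (u x * u y) / algebraMap (RR ℓ c) E (v x * v y) := by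
      rw [map_mul, map_mul, ← div_mul_div_comm, huv, huv]
    rw [h1, key _ _ (mul_ne_zero (hv x) (hv y)), lc_mul, lc_mul, div_mul_div_comm]

/-- the leading coefficient at infinity of an element of the function field -/
noncomputable def lcE : E →*₀ f := (exists_lcE ℓ c E).choose

theorem lcE_algebraMap (r : RR ℓ c) : lcE ℓ c E (algebraMap (RR ℓ c) E r) = lc r :=
  (exists_lcE ℓ c E).choose_spec r

variable {E}

theorem lcE_ne_zero {h : E} (hh : h ≠ 0) : lcE ℓ c E h ≠ 0 :=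
  (map_ne_zero (lcE ℓ c E)).2 hh

theorem lcE_con (a : f) : lcE ℓ c E (algebraMap (RR ℓ c) E (con a)) = a := by
  rw [lcE_algebraMap, lc_con]

/-- equivariance for the automorphisms of the constants -/
theorem lcE_mapEquiv (γ : f ≃+* f) (hγ : ∀ i, γ (c i) = c i) (h : E) :
    lcE ℓ c E (fE E (RR.mapEquiv γ hγ : RR ℓ c ≃+* RR ℓ c) h) = γ (lcE ℓ c E h) := by
  obtain ⟨a, b, hb, rfl⟩ := IsFractionRing.div_surjective (A := RR ℓ c) h
  have h1 : ∀ r : RR ℓ c, lc (RR.mapEquiv γ hγ r : RR ℓ c) = γ (lc r) := fun r =>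
    lc_map (γ : f →+* f) γ.injective hγ r
  have h2 : ∀ r : RR ℓ c, fE E (RR.mapEquiv γ hγ : RR ℓ c ≃+* RR ℓ c) (algebraMap (RR ℓ c) E r) =
      algebraMap (RR ℓ c) E (RR.mapEquiv γ hγ r) := fun r =>
    IsFractionRing.ringEquivOfRingEquiv_algebraMap _ r
  rw [map_div₀, h2, h2, map_div₀, lcE_algebraMap, lcE_algebraMap, map_div₀,
    lcE_algebraMap, lcE_algebraMap, map_div₀, h1, h1]

variable {ℓ c} [Good ℓ c]

/-- normalised twist -/
theorem exists_tw_lc {I J : Ideal (RR ℓ c)} (hI : I ≠ ⊥) (hJ : J ≠ ⊥) (h : cl I = cl J) :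
    ∃ g : E, g ≠ 0 ∧ lcE ℓ c E g = 1 ∧ Tw I J g := by
  obtain ⟨g0, hg0, h0⟩ := (cl_eq_iff_tw (E := E) hI hJ).1 h
  have hα : lcE ℓ c E g0 ≠ 0 := lcE_ne_zero ℓ c hg0
  have hu : IsUnit (con (lcE ℓ c E g0)⁻¹ : RR ℓ c) := (IsUnit.mk0 _ (inv_ne_zero hα)).map con
  obtain ⟨u, hu⟩ := hu
  have h1 := tw_unit h0 u
  rw [hu] at h1
  have h2 : lcE ℓ c E (algebraMap (RR ℓ c) E (con (lcE ℓ c E g0)⁻¹) * g0) = 1 := by
    rw [map_mul, lcE_con, inv_mul_cancel₀ hα]
  refine ⟨_, ?_, h2, h1⟩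
  intro h3
  rw [h3, map_zero] at h2
  exact zero_ne_one h2

theorem tw_lc_unique {I J : Ideal (RR ℓ c)} (hJ : J ≠ ⊥) {g g' : E} (h1 : Tw I J g)
    (h2 : Tw I J g') (h3 : lcE ℓ c E g = 1) (h4 : lcE ℓ c E g' = 1) : g = g' := by
  obtain ⟨u, hu⟩ := tw_unique hJ h1 h2
  obtain ⟨h5, -⟩ := unit_eq_con u.isUnit
  rw [hu, map_mul, h3, mul_one, lcE_algebraMap] at h4
  rw [h4, map_one] at h5
  rw [hu, h5, map_one, one_mul]

end Pool.Agent.Helper12.SN
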