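import Pool.Agent.Helper12.SN.Stab
import Pool.Agent.Helper12.SN.LcE
import Pool.Agent.Helper12.SN.Hil

/-!
# SB-N-30: N5, the kernel of `1 - ρ`

`E := FractionRing (RR ℓ c)`, `τ := fE E (rot z _)`, `x = cl I`, `I ≠ ⊥` (`cl_surj`).  `pi1 x = 1` means
`cl I = clm rot (cl I) = cl (I.map rot)`, so (`exists_tw_lc`) there is `h : E` with `Tw I (I.map rot) h`
and `lcE h = 1`.
(1) `Tw (I.map (rot^k)) (I.map (rot^(k+1))) (τ^k h)` (`tw_map`, `fE_pow`), so by induction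
`Tw I (I.map (rot^m)) (∏ k ∈ range m, τ^k h)`; `m = ℓ`: `Tw I I N`, `N := ∏ k ∈ range ℓ, τ^k h`.  So
`N = algebraMap u`, `u` a unit (`tw_self`), `u = con ε`, `ε = lc u` (`unit_eq_con`).
(2) Write `h = β / α`.  `τ^k h = rot^k β / rot^k α`, so
`∏ rot^k β = con ε * ∏ rot^k α`.  Degrees (`dg_mul`, `dg_rot`, `dg (con ε) = 0`): `ℓ dg β = ℓ dg α`, so
`dg β = dg α =: d`.  `lcE (τ^k h) = (z^k)^d lc β / ((z^k)^d lc α) = lcE h = 1` (`lc_rot` iterated; or for
`k = 1`, induction: `lcE (τ h') = lcE h'` for `h' = b / a` with `dg b = dg a`).  So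
`ε = lcE N = 1`, `N = 1`.
(3) Hilbert 90 (`hilbert90`, `n = ℓ`, `z0 := algebraMap (uu 1)`: `rot^i (uu 1) = z^i • uu 1`,
`(1 : ZMod ℓ).val = 1`, so `τ^ℓ z0 = z0` and `τ^i z0 ≠ z0` for `0 < i < ℓ`): `g ≠ 0`, `h * τ g = g`.
(4) `g = b / a` with `a, b : RR ℓ c` nonzero.  Put `t := algebraMap (nm a) = a * a'` (`dvd_nm`), `t ≠ 0`,
fixed by `rot` (`rot_algebraMap`), and `g' := b * a'`, so `algebraMap g' = t g` and
`h * τ (algebraMap g') = algebraMap g'`.  `I' := span {g'} * I`: nonzero, and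
`I'.map rot = span {rot g'} * I.map rot`, with `Tw I I' g'`, `Tw I (I.map rot) h`,
`Tw (I.map rot) (I'.map rot) (rot g')`, so `Tw I (I'.map rot) (h * rot g') = Tw I (I'.map rot) g'`, and
by the definition of `Tw` (`coeIdeal` injective) `I'.map rot = I'`.
(5) `cl_of_stable` for `I'`, `cl I' = cl (span {g'}) * cl I = cl I`.
-/

set_option autoImplicit false
set_option linter.unusedSectionVars false

open Polynomial

namespace Pool.Agent.Helper12.SN

private theorem ker_map_one {R : Type} [CommRing R] (I : Ideal R) : I.map (1 : R ≃+* R) = I := by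
  rw [← Ideal.map_coe]
  exact Ideal.map_id I

private theorem ker_map_mul {R : Type} [CommRing R] (g h : R ≃+* R) (I : Ideal R) :
    (I.map h).map g = I.map (g * h) := by
  rw [← Ideal.map_coe g, ← Ideal.map_coe h, ← Ideal.map_coe (g * h), Ideal.map_map]
  rfl

/-- iterated twist -/
private theorem ker_tw_pow {R : Type} [CommRing R] [IsDedekindDomain R] {E : Type} [Field E]
    [Algebra R E] [IsFractionRing R E] (g : R ≃+* R) {I : Ideal R} {h : E}
    (h1 : Tw I (I.map g) h) (k : ℕ) :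
    Tw I (I.map (g ^ k : R ≃+* R)) (∏ j ∈ Finset.range k, (fE E g ^ j : E ≃+* E) h) := by
  induction k with
  | zero =>
    rw [Finset.prod_range_zero, pow_zero, ker_map_one]
    exact tw_refl I
  | succ k ih =>
    rw [Finset.prod_range_succ, fE_pow, pow_succ, ← ker_map_mul]
    exact tw_trans ih (tw_map (g ^ k : R ≃+* R) h1)

/-- from a solution `h τ(g') = g'` to a stable ideal -/
private theorem ker_stable {R : Type} [CommRing R] [IsDedekindDomain R] {E : Type} [Field E]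
    [Algebra R E] [IsFractionRing R E] (g : R ≃+* R) {I : Ideal R} {h : E}
    (h1 : Tw I (I.map g) h) (r : R) (hr : h * algebraMap R E (g r) = algebraMap R E r) :
    (Ideal.span {r} * I).map g = Ideal.span {r} * I := by
  have h2 : Tw I (Ideal.span {r} * I) (algebraMap R E r) := tw_span I r
  have h3 := tw_trans h1 (tw_map g h2)
  rw [fE_algebraMap, hr] at h3
  unfold Tw at h2 h3
  rw [← h2] at h3
  exact FractionalIdeal.coeIdeal_inj.1 h3

variable {ℓ : ℕ} [Fact ℓ.Prime] {f : Type} [Field f] {c : Fin 3 → f} [IsAlgClosed f] [Good ℓ c]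

private theorem ker_dglc (z : f) (hz : z ^ ℓ = 1) (k : ℕ) (r : RR ℓ c) :
    dg ((rot z hz ^ k : RR ℓ c ≃+* RR ℓ c) r) = dg r ∧
      lc ((rot z hz ^ k : RR ℓ c ≃+* RR ℓ c) r) = (z ^ dg r) ^ k * lc r := by
  induction k with
  | zero =>
    rw [pow_zero, pow_zero, one_mul]
    exact ⟨rfl, rfl⟩
  | succ k ih =>
    rw [pow_succ', RingAut.mul_apply, dg_rot, lc_rot, ih.1, ih.2]
    exact ⟨rfl, by ring⟩

private theorem ker_ne {E : Type} [Field E] [Algebra (RR ℓ c) E] [IsFractionRing (RR ℓ c) E]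
    {r : RR ℓ c} (hr : r ≠ 0) : algebraMap (RR ℓ c) E r ≠ 0 := fun h0 =>
  hr (IsFractionRing.injective (RR ℓ c) E (by rw [h0, map_zero]))

/-- the norm of `h` is `1` -/
private theorem ker_norm {E : Type} [Field E] [Algebra (RR ℓ c) E] [IsFractionRing (RR ℓ c) E]
    {z : f} (hζ : IsPrimitiveRoot z ℓ) {I : Ideal (RR ℓ c)} (hI : I ≠ ⊥) {h : E} (hh : h ≠ 0)
    (h1 : lcE ℓ c E h = 1) (h2 : Tw I (I.map (rot z hζ.pow_eq_one)) h) :
    ∏ i ∈ Finset.range ℓ, (fE E (rot z hζ.pow_eq_one : RR ℓ c ≃+* RR ℓ c) ^ i : E ≃+* E) h = 1 := by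
  have h3 := ker_tw_pow (rot z hζ.pow_eq_one) h2 ℓ
  rw [rot_pow_ell, ker_map_one] at h3
  obtain ⟨u, hu⟩ := tw_self hI h3
  obtain ⟨h5, -⟩ := unit_eq_con u.isUnit
  obtain ⟨b, a, ha, rfl⟩ := IsFractionRing.div_surjective (A := RR ℓ c) h
  have ha0 : a ≠ 0 := nonZeroDivisors.ne_zero ha
  have hb0 : b ≠ 0 := by
    rintro rfl
    rw [map_zero, zero_div] at hh
    exact hh rfl
  have hk : ∀ k : ℕ, (fE E (rot z hζ.pow_eq_one : RR ℓ c ≃+* RR ℓ c) ^ k : E ≃+* E)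
      (algebraMap (RR ℓ c) E b / algebraMap (RR ℓ c) E a) =
      algebraMap (RR ℓ c) E ((rot z hζ.pow_eq_one ^ k : RR ℓ c ≃+* RR ℓ c) b) /
        algebraMap (RR ℓ c) E ((rot z hζ.pow_eq_one ^ k : RR ℓ c ≃+* RR ℓ c) a) := by
    intro k
    rw [fE_pow, map_div₀, fE_algebraMap, fE_algebraMap]
  -- degrees
  have h6 : algebraMap (RR ℓ c) E (algebraMap f[X] (RR ℓ c) (nm z hζ.pow_eq_one b)) =
      algebraMap (RR ℓ c) E (algebraMap f[X] (RR ℓ c) (C (lc (u : RR ℓ c)) *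
        nm z hζ.pow_eq_one a)) := by
    rw [map_mul, algebraMap_nm hζ, algebraMap_nm hζ]
    have h7 : algebraMap f[X] (RR ℓ c) (C (lc (u : RR ℓ c))) = u := h5.symm
    rw [h7, map_mul, ← hu, map_prod, map_prod, Finset.prod_congr rfl fun k _ => hk k,
      Finset.prod_div_distrib, div_mul_cancel₀]
    exact Finset.prod_ne_zero_iff.2 fun k _ => ker_ne fun h0 =>
      ha0 ((map_eq_zero_iff _ (RingEquiv.injective _)).1 h0)
  have h7 := algebraMap_injective (IsFractionRing.injective (RR ℓ c) E h6)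
  have hu0 : lc (u : RR ℓ c) ≠ 0 := lc_ne_zero u.ne_zero
  have hd : dg b = dg a := by
    rw [← natDegree_nm hζ b hb0, ← natDegree_nm hζ a ha0, h7, natDegree_C_mul hu0]
  have hl : lc b = lc a := by
    rw [map_div₀, lcE_algebraMap, lcE_algebraMap, div_eq_one_iff_eq (lc_ne_zero ha0)] at h1
    exact h1
  have h8 : lcE ℓ c E (∏ i ∈ Finset.range ℓ, (fE E (rot z hζ.pow_eq_one : RR ℓ c ≃+* RR ℓ c) ^ i : E ≃+* E)
      (algebraMap (RR ℓ c) E b / algebraMap (RR ℓ c) E a)) = 1 := by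
    rw [map_prod]
    refine Finset.prod_eq_one fun k _ => ?_
    rw [hk, map_div₀, lcE_algebraMap, lcE_algebraMap, (ker_dglc z hζ.pow_eq_one k b).2,
      (ker_dglc z hζ.pow_eq_one k a).2, hd, hl]
    refine div_self (mul_ne_zero (pow_ne_zero _ (pow_ne_zero _ ?_)) (lc_ne_zero ha0))
    exact hζ.ne_zero (Fact.out : ℓ.Prime).ne_zero
  rw [hu, lcE_algebraMap] at h8
  rw [hu, h5, h8, map_one, map_one]

/-- Hilbert 90 for the rotation -/
private theorem ker_hil {E : Type} [Field E] [Algebra (RR ℓ c) E] [IsFractionRing (RR ℓ c) E]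
    {z : f} (hζ : IsPrimitiveRoot z ℓ) {h : E}
    (hh : ∏ i ∈ Finset.range ℓ, (fE E (rot z hζ.pow_eq_one : RR ℓ c ≃+* RR ℓ c) ^ i : E ≃+* E) h = 1) :
    ∃ g : E, g ≠ 0 ∧ h * fE E (rot z hζ.pow_eq_one : RR ℓ c ≃+* RR ℓ c) g = g := by
  have hℓ : ℓ.Prime := Fact.out
  have hval : (1 : ZMod ℓ).val = 1 := by
    rw [ZMod.val_one_eq_one_mod]
    exact Nat.mod_eq_of_lt hℓ.one_lt
  obtain ⟨g, hg, h1, -⟩ := hilbert90 (fE E (rot z hζ.pow_eq_one : RR ℓ c ≃+* RR ℓ c)) ℓ hℓ.pos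
    (algebraMap (RR ℓ c) E (uu 1))
    (by
      rw [fE_pow, fE_algebraMap, rot_pow_ell]
      rfl)
    (by
      intro i hi hi' h0
      rw [fE_pow, fE_algebraMap] at h0
      have h1 := IsFractionRing.injective (RR ℓ c) E h0
      have h2 := congrArg (fun s : RR ℓ c => s 1) h1
      simp only [rot_pow_ap, uu_ap, if_true, mul_one, hval, pow_one] at h2
      rw [← C_1] at h2
      exact hζ.pow_ne_one_of_pos_of_lt hi.ne' hi' (C_injective h2))
    h hh
  exact ⟨g, hg, h1⟩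

/-- N5: the kernel of `1 - ρ` -/
theorem ker_pi1 {z : f} (hζ : IsPrimitiveRoot z ℓ) (x : ClassGroup (RR ℓ c))
    (hx : pi1 z hζ.pow_eq_one x = 1) :
    ∃ i j : ℕ, i < ℓ ∧ j < ℓ ∧ x = cl (pp c 0) ^ i * cl (pp c 2) ^ j := by
  obtain ⟨I, hI, rfl⟩ := cl_surj x
  rw [pi1_ap, div_eq_one, clm_cl _ hI] at hx
  obtain ⟨h, hh, h1, h2⟩ := exists_tw_lc (E := FractionRing (RR ℓ c)) hI
    (map_ne_bot (rot z hζ.pow_eq_one) hI) hx
  obtain ⟨g, hg, hg1⟩ := ker_hil hζ (ker_norm hζ hI hh h1 h2)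
  obtain ⟨b, a, ha, rfl⟩ := IsFractionRing.div_surjective (A := RR ℓ c) g
  have ha0 : a ≠ 0 := nonZeroDivisors.ne_zero ha
  have hb0 : b ≠ 0 := by
    rintro rfl
    rw [map_zero, zero_div] at hg
    exact hg rfl
  obtain ⟨a', ha'⟩ := dvd_nm hζ a
  have ht0 : algebraMap f[X] (RR ℓ c) (nm z hζ.pow_eq_one a) ≠ 0 := by
    intro h0
    rw [← map_zero (algebraMap f[X] (RR ℓ c))] at h0
    exact nm_ne_zero hζ ha0 (algebraMap_injective h0)
  have ha'0 : a' ≠ 0 := by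
    rintro rfl
    rw [mul_zero] at ha'
    exact ht0 ha'
  have h3 : algebraMap (RR ℓ c) (FractionRing (RR ℓ c)) (b * a') =
      algebraMap (RR ℓ c) (FractionRing (RR ℓ c)) (algebraMap f[X] (RR ℓ c) (nm z hζ.pow_eq_one a)) *
        (algebraMap (RR ℓ c) (FractionRing (RR ℓ c)) b /
          algebraMap (RR ℓ c) (FractionRing (RR ℓ c)) a) := by
    have ha1 : algebraMap (RR ℓ c) (FractionRing (RR ℓ c)) a ≠ 0 := ker_ne ha0
    rw [ha', map_mul, map_mul]
    field_simp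
  have h4 : h * algebraMap (RR ℓ c) (FractionRing (RR ℓ c)) (rot z hζ.pow_eq_one (b * a')) =
      algebraMap (RR ℓ c) (FractionRing (RR ℓ c)) (b * a') := by
    rw [← fE_algebraMap, h3, map_mul, fE_algebraMap, rot_algebraMap, mul_left_comm, hg1]
  have h5 := ker_stable (rot z hζ.pow_eq_one) h2 (b * a') h4
  have h6 : b * a' ≠ 0 := mul_ne_zero hb0 ha'0
  have h7 : Ideal.span {b * a'} ≠ ⊥ := by rwa [Ne, Ideal.span_singleton_eq_bot]
  obtain ⟨i, j, hi, hj, hij⟩ := cl_of_stable hζ (mul_ne_zero h7 hI) h5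
  refine ⟨i, j, hi, hj, ?_⟩
  rw [← hij, cl_mul h7 hI, cl_span h6, one_mul]

end Pool.Agent.Helper12.SN
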