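import Mathlib

set_option autoImplicit false

/-!
# SB-N-09: surjectivity of `φ` (`= σ - 1`) on the `π`-power torsion (pure algebra)

(`X` is written multiplicatively.)  `X_n := {x | π^[n] x = 1}` is a subgroup, `X' := ⋃ X_n` is a
subgroup, `φ` maps `X_n` to `X_n` (`π^[n]` is a homomorphism, commutes with `φ`).
(1) `X_n` is finite: induction on `n`; `X_0 = {1}`; `π` maps `X_(n+1)` to `X_n` with fibres that are
empty or cosets of the finite group `ker π`.
(2) Let `K := {x | φ x = 1 ∧ ∃ n, π^[n] x = 1}.ncard`.  For every `n` the index of `φ X_n` in `X_n`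
is `|ker (φ | X_n)| ≤ K` (`X_n` finite: `|φ X_n| * |ker| = |X_n|`).
(3) `Y := φ X'` is a subgroup of `X'` of index `≤ K`: if `x_0, ..., x_K ∈ X'` were pairwise
incongruent mod `Y`, they would lie in one `X_n` and be pairwise incongruent mod `φ X_n ⊆ Y`,
contradicting (2).  So `Q := X' / Y` is finite.
(4) `π` induces `Q → Q`, surjective: for `x ∈ X'` choose `y` with `π y = x`; `y ∈ X'`.  `Q` is finite,
so it is injective; every element of `Q` is killed by a power of `π`, so `Q = 0`, i.e. `Y = X'`.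

Variant of (3), (4) without quotients: let `b ∈ X'`.  Choose `b_0 = b`, `b_(i+1)` with
`π b_(i+1) = b_i`; all in `X'`.  By (3) there are `i < j` with `b_j / b_i ∈ Y` (pigeonhole among
`b_0, ..., b_K`), i.e. `b_j / b_i = φ a`.  Applying `π^[i]`: `b_(j-i) / b_0 = φ (π^[i] a)`; so with
`m = j - i > 0` and `b_m`: `b_m ≡ b` mod `Y`, where `π^[m] b_m = b`.  Apply `π^[m]`:
`b ≡ π^[m] b` mod `Y`; iterate: `b ≡ π^[m k] b = 1` for large `k`.  So `b ∈ Y`.
-/

namespace Pool.Agent.Helper12.SN

/-- the kernel of the `n`-th iterate -/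
private def n23K {X : Type} [CommGroup X] (π : X →* X) (n : ℕ) : Subgroup X where
  carrier := {x | π^[n] x = 1}
  mul_mem' := by
    intro a b ha hb
    simp only [Set.mem_ofPred_eq] at ha hb ⊢
    rw [iterate_map_mul, ha, hb, one_mul]
  one_mem' := iterate_map_one π n
  inv_mem' := by
    intro a ha
    simp only [Set.mem_ofPred_eq] at ha ⊢
    have h := iterate_map_mul π n a a⁻¹
    rw [mul_inv_cancel, iterate_map_one, ha, one_mul] at h
    exact h.symm

private theorem n23_mem {X : Type} [CommGroup X] (π : X →* X) (n : ℕ) (x : X) :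
    x ∈ n23K π n ↔ π^[n] x = 1 := Iff.rfl

private theorem n23_mono {X : Type} [CommGroup X] (π : X →* X) {n m : ℕ} (h : n ≤ m) {x : X}
    (hx : π^[n] x = 1) : π^[m] x = 1 := by
  obtain ⟨k, rfl⟩ := Nat.exists_eq_add_of_le h
  rw [Nat.add_comm, Function.iterate_add_apply, hx, iterate_map_one]

private theorem n23_fin {X : Type} [CommGroup X] (π : X →* X) (hfin : {x | π x = 1}.Finite)
    (n : ℕ) : {x | π^[n] x = 1}.Finite := by
  induction n with
  | zero => exact (Set.finite_singleton (1 : X)).subset fun x hx => hx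
  | succ n ih =>
    apply Set.Finite.of_finite_fibers π
    · apply ih.subset
      rintro _ ⟨x, hx, rfl⟩
      simp only [Set.mem_ofPred_eq] at hx ⊢
      rwa [Function.iterate_succ_apply] at hx
    · rintro _ ⟨x, hx, rfl⟩
      apply (hfin.image (fun y => x * y)).subset
      rintro y ⟨-, hy⟩
      refine ⟨x⁻¹ * y, ?_, by simp⟩
      simp only [Set.mem_preimage, Set.mem_singleton_iff] at hy
      simp only [Set.mem_ofPred_eq]
      rw [map_mul, map_inv, hy, inv_mul_cancel]

private theorem n23_comm {X : Type} [CommGroup X] (π φ : X →* X)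
    (hcomm : ∀ x, π (φ x) = φ (π x)) (n : ℕ) (x : X) : π^[n] (φ x) = φ (π^[n] x) := by
  induction n generalizing x with
  | zero => rfl
  | succ n ih => rw [Function.iterate_succ_apply, Function.iterate_succ_apply, hcomm, ih]

/-- the pigeonhole step -/
private theorem n23_pigeon {X : Type} [CommGroup X] (π φ : X →* X)
    (hcomm : ∀ x, π (φ x) = φ (π x)) (hfin : {x | π x = 1}.Finite)
    (hφ : {x | φ x = 1 ∧ ∃ n, π^[n] x = 1}.Finite) (s : ℕ → X) (n : ℕ)
    (hs : ∀ i ≤ {x | φ x = 1 ∧ ∃ n, π^[n] x = 1}.ncard, π^[n] (s i) = 1) :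
    ∃ i j, i < j ∧ ∃ a, π^[n] a = 1 ∧ s j = s i * φ a := by
  classical
  set K := {x | φ x = 1 ∧ ∃ n, π^[n] x = 1}.ncard with hK
  have hfH : Finite (n23K π n) := (n23_fin π hfin n).to_subtype
  have hmap : ∀ x : n23K π n, φ x ∈ n23K π n := by
    intro x
    rw [n23_mem, n23_comm π φ hcomm, (n23_mem π n x).1 x.2, map_one]
  let ψ : n23K π n →* n23K π n := (φ.comp (n23K π n).subtype).codRestrict (n23K π n) hmap
  have hψ : ∀ x : n23K π n, ((ψ x : n23K π n) : X) = φ x := fun x => rfl
  have hcard : Nat.card ψ.ker ≤ K := by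
    have := hφ.to_subtype
    have h1 : Nat.card ψ.ker ≤ Nat.card {x | φ x = 1 ∧ ∃ n, π^[n] x = 1} := by
      refine Nat.card_le_card_of_injective
        (fun x : ψ.ker => (⟨((x : n23K π n) : X), ?_, n, (x : n23K π n).2⟩ :
          {x | φ x = 1 ∧ ∃ n, π^[n] x = 1})) ?_
      · have h2 := x.2
        rw [MonoidHom.mem_ker] at h2
        rw [← hψ, h2]
        rfl
      · intro x y hxy
        apply Subtype.ext
        apply Subtype.ext
        simpa using hxy
    exact h1
  have hidx : ψ.range.index ≤ K := by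
    have h1 := ψ.ker.card_mul_index
    rw [Subgroup.index_ker] at h1
    have h2 := ψ.range.card_mul_index
    have h3 : Nat.card ψ.range * ψ.range.index = Nat.card ψ.range * Nat.card ψ.ker := by
      rw [h2, ← h1, mul_comm]
    have h4 : 0 < Nat.card ψ.range := Nat.card_pos
    rw [Nat.eq_of_mul_eq_mul_left h4 h3]
    exact hcard
  have hfQ : Finite (n23K π n ⧸ ψ.range) := inferInstance
  have hnot : ¬ Function.Injective (fun i : Fin (K + 1) =>
      (QuotientGroup.mk (⟨s i, hs i (Nat.lt_succ_iff.1 i.2)⟩ : n23K π n) :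
        n23K π n ⧸ ψ.range)) := by
    intro hinj
    have h1 := Nat.card_le_card_of_injective _ hinj
    rw [Nat.card_eq_fintype_card, Fintype.card_fin] at h1
    have h2 : Nat.card (n23K π n ⧸ ψ.range) = ψ.range.index := rfl
    rw [h2] at h1
    omega
  rw [Function.Injective] at hnot
  push Not at hnot
  obtain ⟨i, j, hij, hne⟩ := hnot
  have key : ∀ i j : Fin (K + 1), (QuotientGroup.mk (⟨s i, hs i (Nat.lt_succ_iff.1 i.2)⟩ : n23K π n) :
        n23K π n ⧸ ψ.range) = QuotientGroup.mk (⟨s j, hs j (Nat.lt_succ_iff.1 j.2)⟩ : n23K π n) →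
      ∃ a, π^[n] a = 1 ∧ s j = s i * φ a := by
    intro i j h
    rw [QuotientGroup.eq] at h
    obtain ⟨a, ha⟩ := h
    refine ⟨a, a.2, ?_⟩
    have h1 := congrArg Subtype.val ha
    rw [hψ] at h1
    rw [h1]
    change s j = s i * ((s i)⁻¹ * s j)
    rw [mul_inv_cancel_left]
  rcases lt_or_gt_of_ne (fun h : (i : ℕ) = j => hne (Fin.ext h)) with h | h
  · exact ⟨i, j, h, key i j hij⟩
  · exact ⟨j, i, h, key j i hij.symm⟩

theorem surj_of_finite {X : Type} [CommGroup X] (π φ : X →* X)
    (hcomm : ∀ x, π (φ x) = φ (π x)) (hsurj : Function.Surjective π)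
    (hfin : {x | π x = 1}.Finite) (hφ : {x | φ x = 1 ∧ ∃ n, π^[n] x = 1}.Finite)
    (b : X) (hb : ∃ n, π^[n] b = 1) : ∃ a, φ a = b ∧ ∃ n, π^[n] a = 1 := by
  classical
  obtain ⟨n0, hn0⟩ := hb
  obtain ⟨g, hg⟩ := hsurj.hasRightInverse
  set s : ℕ → X := fun i => g^[i] b with hs
  have hπs : ∀ i, π^[i] (s i) = b := by
    intro i
    exact (hg.iterate i) b
  have hπs2 : ∀ i m, π^[i] (s (i + m)) = s m := by
    intro i m
    have h1 : s (i + m) = g^[i] (s m) := Function.iterate_add_apply g i m b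
    rw [h1]
    exact (hg.iterate i) (s m)
  set K := {x | φ x = 1 ∧ ∃ n, π^[n] x = 1}.ncard with hK
  have hsn : ∀ i ≤ K, π^[n0 + K] (s i) = 1 := by
    intro i hi
    obtain ⟨k, hk⟩ := Nat.exists_eq_add_of_le hi
    have h1 : n0 + K = (n0 + k) + i := by omega
    rw [h1, Function.iterate_add_apply, hπs]
    exact n23_mono π (Nat.le_add_right n0 k) hn0
  obtain ⟨i, j, hij, a, ha, hja⟩ := n23_pigeon π φ hcomm hfin hφ s (n0 + K) hsn
  obtain ⟨m, hm⟩ := Nat.exists_eq_add_of_lt hij
  -- `b_m' = b * φ a'`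
  have hm2 : s (m + 1) = b * φ (π^[i] a) := by
    have h1 := congrArg (π^[i]) hja
    rw [iterate_map_mul, hπs, n23_comm π φ hcomm, hm, show i + m + 1 = i + (m + 1) from rfl,
      hπs2] at h1
    exact h1
  have hbase : b = π^[m + 1] b * φ (π^[m + 1] (π^[i] a)) := by
    have h1 := congrArg (π^[m + 1]) hm2
    rw [iterate_map_mul, hπs, n23_comm π φ hcomm] at h1
    exact h1
  have htor : ∀ (r t : ℕ), π^[n0 + K] (π^[r] (π^[t] a)) = 1 := by
    intro r t
    rw [← Function.iterate_add_apply, ← Function.iterate_add_apply]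
    exact n23_mono π (by omega) ha
  have hit : ∀ k : ℕ, ∃ c, π^[n0 + K] c = 1 ∧ b = π^[(m + 1) * k] b * φ c := by
    intro k
    induction k with
    | zero => exact ⟨1, iterate_map_one π _, by simp⟩
    | succ k ih =>
      obtain ⟨c, hc, hbc⟩ := ih
      refine ⟨π^[m + 1] c * π^[m + 1] (π^[i] a), ?_, ?_⟩
      · rw [iterate_map_mul, htor, mul_one, ← Function.iterate_add_apply]
        exact n23_mono π (Nat.le_add_right _ _) hc
      · have h1 := congrArg (π^[m + 1]) hbc
        rw [iterate_map_mul, n23_comm π φ hcomm, ← Function.iterate_add_apply] at h1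
        rw [map_mul, ← mul_assoc, show (m + 1) * (k + 1) = m + 1 + (m + 1) * k by ring, ← h1]
        exact hbase
  obtain ⟨c, hc, hbc⟩ := hit n0
  refine ⟨c, ?_, n0 + K, hc⟩
  have h1 : π^[(m + 1) * n0] b = 1 := n23_mono π (by nlinarith [Nat.zero_le (m * n0)]) hn0
  rw [h1, one_mul] at hbc
  exact hbc.symm

end Pool.Agent.Helper12.SN
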