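import Pool.Agent.Helper12.SN.PtsA

set_option autoImplicit false
set_option linter.unusedSectionVars false

/-!
# SB-N-20: the norm of an ideal

`nI_mul`: `Ideal.map_mul`, `Finset.prod_mul_distrib`.  `nI_top`: `Ideal.map_top`,
`Ideal.one_eq_top`.  `nI_span`: `Ideal.map_span`, `Ideal.prod_span_singleton`, `algebraMap_nm`.
`nI_le`: the factor `k = 0` is `I.map 1 = I`; a product is contained in each factor
(`Ideal.mul_le_left`, `Finset.prod_range_succ'`).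
`nI_rot`: `(I.map rot).map (rot^k) = I.map (rot^(k+1))`, `rot^ℓ = 1` (`rot_pow_ell`),
`Finset.prod_range_succ'` and `Finset.prod_range_succ`.
`nI_ne_bot`: a product of nonzero ideals in a domain.
`nI_eq_top`: `nI I ≤ I`.
-/

open Polynomial

namespace Pool.Agent.Helper12.SN

variable {ℓ : ℕ} [Fact ℓ.Prime] {f : Type} [Field f] {c : Fin 3 → f}

/-- the norm of an ideal -/
noncomputable def nI (z : f) (hz : z ^ ℓ = 1) (I : Ideal (RR ℓ c)) : Ideal (RR ℓ c) :=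
  ∏ k ∈ Finset.range ℓ, I.map (rot z hz ^ k : RR ℓ c ≃+* RR ℓ c)

private theorem nIa_map_one (I : Ideal (RR ℓ c)) : I.map (1 : RR ℓ c ≃+* RR ℓ c) = I :=
  le_antisymm (Ideal.map_le_iff_le_comap.2 fun _ hx => hx)
    fun _ hx => Ideal.mem_map_of_mem (1 : RR ℓ c ≃+* RR ℓ c) hx

private theorem nIa_map_mul (e e' : RR ℓ c ≃+* RR ℓ c) (I : Ideal (RR ℓ c)) :
    (I.map e).map e' = I.map (e' * e) := by
  apply le_antisymm
  · rw [Ideal.map_le_iff_le_comap, Ideal.map_le_iff_le_comap]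
    intro x hx
    exact Ideal.mem_map_of_mem (e' * e) hx
  · rw [Ideal.map_le_iff_le_comap]
    intro x hx
    exact Ideal.mem_map_of_mem e' (Ideal.mem_map_of_mem e hx)

theorem nI_mul (z : f) (hz : z ^ ℓ = 1) (I J : Ideal (RR ℓ c)) :
    nI z hz (I * J) = nI z hz I * nI z hz J := by
  unfold nI
  rw [← Finset.prod_mul_distrib]
  exact Finset.prod_congr rfl fun k _ => Ideal.map_mul _ _ _

theorem nI_top (z : f) (hz : z ^ ℓ = 1) : nI z hz (⊤ : Ideal (RR ℓ c)) = ⊤ := by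
  unfold nI
  rw [← Ideal.one_eq_top]
  refine Finset.prod_eq_one fun k _ => ?_
  rw [Ideal.one_eq_top]
  exact Ideal.map_top _

theorem nI_span {z : f} (hζ : IsPrimitiveRoot z ℓ) (r : RR ℓ c) :
    nI z hζ.pow_eq_one (Ideal.span {r}) =
      Ideal.span {algebraMap f[X] (RR ℓ c) (nm z hζ.pow_eq_one r)} := by
  unfold nI
  rw [algebraMap_nm hζ, ← Ideal.prod_span_singleton]
  refine Finset.prod_congr rfl fun k _ => ?_
  rw [Ideal.map_span, Set.image_singleton]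

theorem nI_le (z : f) (hz : z ^ ℓ = 1) (I : Ideal (RR ℓ c)) : nI z hz I ≤ I := by
  have hℓ : 0 < ℓ := (Fact.out : ℓ.Prime).pos
  unfold nI
  rw [← Finset.mul_prod_erase (Finset.range ℓ) _ (Finset.mem_range.2 hℓ), pow_zero]
  refine le_trans (Ideal.mul_le_left (I := Ideal.map (1 : RR ℓ c ≃+* RR ℓ c) I)) ?_
  rw [nIa_map_one]

theorem nI_rot (z : f) (hz : z ^ ℓ = 1) (I : Ideal (RR ℓ c)) :
    nI z hz (I.map (rot z hz)) = nI z hz I := by
  have hℓ : 0 < ℓ := (Fact.out : ℓ.Prime).pos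
  obtain ⟨m, hm⟩ : ∃ m, ℓ = m + 1 := ⟨ℓ - 1, by omega⟩
  have h1 : ∀ k, (I.map (rot z hz)).map (rot z hz ^ k : RR ℓ c ≃+* RR ℓ c) =
      I.map (rot z hz ^ (k + 1) : RR ℓ c ≃+* RR ℓ c) := fun k => by
    rw [nIa_map_mul, pow_succ]
  have h2 : I.map (rot z hz ^ (m + 1) : RR ℓ c ≃+* RR ℓ c) =
      I.map (rot z hz ^ 0 : RR ℓ c ≃+* RR ℓ c) := by
    have h3 : (rot z hz ^ (m + 1) : RR ℓ c ≃+* RR ℓ c) = rot z hz ^ 0 := by
      rw [← hm, rot_pow_ell, pow_zero]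
    rw [h3]
  unfold nI
  simp only [h1]
  have h4 : Finset.range ℓ = Finset.range (m + 1) := by rw [← hm]
  rw [h4, Finset.prod_range_succ, Finset.prod_range_succ', h2]

theorem nI_ne_bot (z : f) (hz : z ^ ℓ = 1) {I : Ideal (RR ℓ c)} (hI : I ≠ ⊥) :
    nI z hz I ≠ ⊥ := by
  unfold nI
  have h0 : ∀ k, I.map (rot z hz ^ k : RR ℓ c ≃+* RR ℓ c) ≠ 0 := fun k h => by
    apply hI
    have h1 := congrArg (Ideal.map ((rot z hz ^ k : RR ℓ c ≃+* RR ℓ c)⁻¹)) h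
    rw [nIa_map_mul, inv_mul_cancel, nIa_map_one] at h1
    rw [h1]
    exact Ideal.map_bot
  exact Finset.prod_ne_zero_iff.2 fun k _ => h0 k

theorem nI_eq_top (z : f) (hz : z ^ ℓ = 1) {I : Ideal (RR ℓ c)} (hI : nI z hz I = ⊤) :
    I = ⊤ := by
  rw [eq_top_iff, ← hI]
  exact nI_le z hz I

end Pool.Agent.Helper12.SN
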