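import Pool.Agent.Helper12.SN.PtsB

set_option autoImplicit false
set_option linter.unusedSectionVars false

/-!
# SB-N-19: the points over `x0` form one orbit of the rotation

Suppose `Q ≠ P.map (rot^k)` for all `k`.  The ideals `P_k := P.map (rot^k)`, `k < ℓ`, are maximal, so
`Q` is contained in none of them, hence not in their union (`Ideal.subset_union_prime`); choose
`r ∈ Q` outside all `P_k`, `k < ℓ`.  `algebraMap (nm r) = ∏ rot^k r ∈ Q` (the factor `k = 0`, `dvd_nm`), so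
`nm r` vanishes at `x0` (`algebraMap_mem_iff`), so `algebraMap (nm r) ∈ P`, so `rot^k r ∈ P` for
some `k < ℓ`, i.e. `r ∈ P.map (rot^(ℓ - k))` (`rot^ℓ = 1`) `= P_(ℓ-k)` or `P_0`: contradiction.
-/

open Polynomial

namespace Pool.Agent.Helper12.SN

variable {ℓ : ℕ} [Fact ℓ.Prime] {f : Type} [Field f] {c : Fin 3 → f} [IsAlgClosed f]

theorem exists_rot_eq [Good ℓ c] {z : f} (hζ : IsPrimitiveRoot z ℓ) {P Q : Ideal (RR ℓ c)}
    (hP : P.IsMaximal) (hQ : Q.IsMaximal) {x0 : f}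
    (h0 : algebraMap f[X] (RR ℓ c) (X - C x0) ∈ P)
    (h1 : algebraMap f[X] (RR ℓ c) (X - C x0) ∈ Q) :
    ∃ k : ℕ, Q = P.map (rot z hζ.pow_eq_one ^ k : RR ℓ c ≃+* RR ℓ c) := by
  classical
  have hPp : P.IsPrime := hP.isPrime
  have hsub : ((Q : Ideal (RR ℓ c)) : Set (RR ℓ c)) ⊆ ⋃ k ∈ (↑(Finset.range ℓ) : Set ℕ),
      (P.map (rot z hζ.pow_eq_one ^ (ℓ - k) : RR ℓ c ≃+* RR ℓ c) : Set (RR ℓ c)) := by
    intro r hr
    have hN : algebraMap f[X] (RR ℓ c) (nm z hζ.pow_eq_one r) ∈ Q :=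
      Q.mem_of_dvd (dvd_nm hζ r) hr
    have hN' : algebraMap f[X] (RR ℓ c) (nm z hζ.pow_eq_one r) ∈ P :=
      (algebraMap_mem_iff hP h0 _).2 ((algebraMap_mem_iff hQ h1 _).1 hN)
    rw [algebraMap_nm hζ r] at hN'
    obtain ⟨k, hk, hkP⟩ := (hPp.prod_mem_iff).1 hN'
    refine Set.mem_biUnion (Finset.mem_coe.2 hk) ?_
    refine (Ideal.mem_map_of_equiv (rot z hζ.pow_eq_one ^ (ℓ - k) : RR ℓ c ≃+* RR ℓ c) r).2
      ⟨_, hkP, ?_⟩
    have h2 : (rot z hζ.pow_eq_one ^ (ℓ - k) : RR ℓ c ≃+* RR ℓ c) *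
        (rot z hζ.pow_eq_one ^ k : RR ℓ c ≃+* RR ℓ c) = 1 := by
      rw [← pow_add, Nat.sub_add_cancel (Finset.mem_range.1 hk).le, rot_pow_ell]
    have h3 := congrArg (fun g : RR ℓ c ≃+* RR ℓ c => g r) h2
    exact h3
  have hp : ∀ k ∈ Finset.range ℓ, k ≠ 0 → k ≠ 0 →
      (P.map (rot z hζ.pow_eq_one ^ (ℓ - k) : RR ℓ c ≃+* RR ℓ c)).IsPrime := fun k _ _ _ =>
    Ideal.map_isPrime_of_equiv _
  obtain ⟨k, hk, hle⟩ := (Ideal.subset_union_prime (s := Finset.range ℓ)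
    (f := fun k => P.map (rot z hζ.pow_eq_one ^ (ℓ - k) : RR ℓ c ≃+* RR ℓ c)) 0 0 hp).1 hsub
  refine ⟨ℓ - k, hQ.eq_of_le ?_ hle⟩
  exact (Ideal.map_isPrime_of_equiv (rot z hζ.pow_eq_one ^ (ℓ - k) : RR ℓ c ≃+* RR ℓ c)).ne_top

end Pool.Agent.Helper12.SN
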