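import Pool.Agent.Helper12.SN.PpPow
import Pool.Agent.Helper12.SN.Orb

set_option autoImplicit false
set_option linter.unusedSectionVars false

/-!
# SB-N-22: `∏ ρ^k P = (x - x0)`

If `x0 = c i`: `P = pp c i` (`eq_pp`), `nI P = P^ℓ` (`map_rot_pow_pp`, `Finset.prod_const`), `pp_pow`.
Otherwise: write `P_k := P.map (rot^k)`, `k < ℓ`; `r ∈ P_k ↔ rot^(ℓ-k) r ∈ P` (`rot^ℓ = 1`).
(1) `u_j ∉ P` for all `j`: `u_j^ℓ = algebraMap (al^(ℓ - j.val) be^(j.val))` has value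
`(x0 - c 1)^_ ((x0 - c 0) (x0 - c 2))^_ ≠ 0` at `x0` (`algebraMap_mem_iff`); `u_0 = 1`.
(2) The `P_k` are pairwise distinct: let `a : f` with `u_1 - con a ∈ P` (`exists_con_sub_mem`), `a ≠ 0`
by (1).  Applying `rot^k`: `ζ^k u_1 - con a ∈ P_k`, so `u_1 - con (ζ^(-k) a) ∈ P_k`; if `P_k = P_m`,
`con (ζ^(-k) a - ζ^(-m) a) ∈ P_k`, so `ζ^(-k) = ζ^(-m)`, `k = m` (`k, m < ℓ`).
Distinct maximal ideals are coprime, so `∏ P_k = ⨅ P_k` (`Ideal.prod_eq_iInf` /
`Ideal.iInf_eq_prod...`, `Finset` version `Ideal.prod_eq_inf...`).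
(3) `≥`: `algebraMap (X - C x0)` is fixed by `rot`, so it is in every `P_k`.
`≤`: let `r ∈ ⨅ P_k`: `rot^k r ∈ P` for all `k < ℓ` (`k ↦ ℓ - k`).  For each `j`:
`∑ k ∈ range ℓ, con (ζ⁻¹ ^ (k j.val)) * rot^k r = ℓ (r j) u_j ∈ P` (coefficientwise, geometric sum of
roots of unity), `ℓ ≠ 0` in `f`, so `algebraMap (r j) * u_j ∈ P`, so `algebraMap (r j) ∈ P` by (1), so
`X - C x0 ∣ r j` (`algebraMap_mem_iff`, `dvd_iff_isRoot`).  Hence `r ∈ span {algebraMap (X - C x0)}`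
(`r = (X - C x0) • r'`, `Algebra.smul_def`).
-/

open Polynomial

namespace Pool.Agent.Helper12.SN

variable {ℓ : ℕ} [Fact ℓ.Prime] {f : Type} [Field f] {c : Fin 3 → f}

private theorem np_con_mul (a : f) (r : RR ℓ c) : (con a : RR ℓ c) * r = (C a : f[X]) • r :=
  (Algebra.smul_def (C a : f[X]) r).symm

private theorem np_rot_uu (z : f) (hz : z ^ ℓ = 1) (k : ℕ) :
    (rot z hz ^ k : RR ℓ c ≃+* RR ℓ c) (uu 1) = con (z ^ k) * uu 1 := by
  have hl : 1 < ℓ := (Fact.out : ℓ.Prime).one_lt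
  have : Fact (1 < ℓ) := ⟨hl⟩
  ext1 j
  rw [rot_pow_ap, np_con_mul, smul_ap, uu_ap]
  split_ifs with h
  · rw [h, ZMod.val_one, pow_one]
  · rw [mul_zero, mul_zero]

private theorem np_rot_con (z : f) (hz : z ^ ℓ = 1) (k : ℕ) (a : f) :
    (rot z hz ^ k : RR ℓ c ≃+* RR ℓ c) (con a) = con a := by
  ext1 j
  rw [rot_pow_ap, con_ap]
  split_ifs with h
  · rw [h, ZMod.val_zero, pow_zero, C_1, one_mul]
  · rw [mul_zero]

private theorem np_mul_mem {P : Ideal (RR ℓ c)} {a : f} (ha : a ≠ 0) {r : RR ℓ c}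
    (h : con a * r ∈ P) : r ∈ P := by
  have h1 : con a⁻¹ * (con a * r) = r := by
    rw [← mul_assoc, ← map_mul, inv_mul_cancel₀ ha, map_one, one_mul]
  rw [← h1]
  exact P.mul_mem_left _ h

private theorem np_uu_notMem [IsAlgClosed f] [Good ℓ c] {P : Ideal (RR ℓ c)} (hP : P.IsMaximal)
    {x0 : f} (h0 : algebraMap f[X] (RR ℓ c) (X - C x0) ∈ P) (hx : ∀ i, x0 ≠ c i) (j : ZMod ℓ) :
    (uu j : RR ℓ c) ∉ P := by
  intro hj
  by_cases hj0 : j = 0
  · subst hj0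
    rw [uu_zero] at hj
    exact hP.ne_top ((Ideal.eq_top_iff_one P).2 hj)
  · have h1 := Ideal.pow_mem_of_mem P hj ℓ (Fact.out : ℓ.Prime).pos
    rw [uu_pow_ell hj0, algebraMap_mem_iff hP h0] at h1
    unfold al be at h1
    simp only [eval_mul, eval_pow, eval_sub, eval_X, eval_C] at h1
    have h2 : ∀ i, x0 - c i ≠ 0 := fun i => sub_ne_zero.2 (hx i)
    exact mul_ne_zero (pow_ne_zero _ (h2 1)) (pow_ne_zero _ (mul_ne_zero (h2 0) (h2 2))) h1

private theorem np_iter {z : f} (hz : z ^ ℓ = 1) {P : Ideal (RR ℓ c)} {r : RR ℓ c}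
    (h : ∀ k < ℓ, r ∈ P.map (rot z hz ^ k : RR ℓ c ≃+* RR ℓ c)) (m : ℕ) (hm : m < ℓ) :
    (rot z hz ^ m : RR ℓ c ≃+* RR ℓ c) r ∈ P := by
  rcases Nat.eq_zero_or_pos m with rfl | hm0
  · obtain ⟨x, hx, hx2⟩ := (Ideal.mem_map_of_equiv _ _).1 (h 0 hm)
    rw [pow_zero] at hx2 ⊢
    change x = r at hx2
    rw [← hx2]
    exact hx
  · obtain ⟨x, hx, hx2⟩ := (Ideal.mem_map_of_equiv _ _).1 (h (ℓ - m) (by omega))
    rw [← hx2, ← RingAut.mul_apply, ← pow_add, Nat.add_sub_cancel' hm.le, rot_pow_ell]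
    exact hx

/-- `∏ ρ^k P = (x - x0)` -/
theorem nI_point [IsAlgClosed f] [Good ℓ c] {z : f} (hζ : IsPrimitiveRoot z ℓ)
    {P : Ideal (RR ℓ c)} (hP : P.IsMaximal) {x0 : f}
    (h0 : algebraMap f[X] (RR ℓ c) (X - C x0) ∈ P) :
    nI z hζ.pow_eq_one P = Ideal.span {algebraMap f[X] (RR ℓ c) (X - C x0)} := by
  by_cases hx : ∃ i, x0 = c i
  · obtain ⟨i, rfl⟩ := hx
    have h1 := eq_pp hP i h0
    subst h1
    unfold nI
    rw [Finset.prod_congr rfl fun k _ => map_rot_pow_pp z hζ.pow_eq_one i k, Finset.prod_const,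
      Finset.card_range, pp_pow]
  push Not at hx
  have hz := hζ.pow_eq_one
  have hunot := np_uu_notMem hP h0 hx
  have hz0 : z ≠ 0 := hζ.ne_zero (Fact.out : ℓ.Prime).ne_zero
  have hmax : ∀ k, (P.map (rot z hz ^ k : RR ℓ c ≃+* RR ℓ c)).IsMaximal := fun k =>
    Ideal.map_isMaximal_of_equiv _
  have hunotk : ∀ k ≤ ℓ, (uu 1 : RR ℓ c) ∉ P.map (rot z hz ^ k : RR ℓ c ≃+* RR ℓ c) := by
    intro k hk h1
    obtain ⟨x, hx1, hx2⟩ := (Ideal.mem_map_of_equiv _ _).1 h1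
    have h2 : (rot z hz ^ (ℓ - k) : RR ℓ c ≃+* RR ℓ c) (uu 1) = x := by
      rw [← hx2, ← RingAut.mul_apply, ← pow_add, Nat.sub_add_cancel hk, rot_pow_ell]
      rfl
    rw [np_rot_uu] at h2
    rw [← h2] at hx1
    exact hunot 1 (np_mul_mem (pow_ne_zero _ hz0) hx1)
  obtain ⟨a, ha⟩ := exists_con_sub_mem hP (uu 1 : RR ℓ c)
  have hdist : ∀ k m, k < m → m < ℓ → P.map (rot z hz ^ k : RR ℓ c ≃+* RR ℓ c) ≠
      P.map (rot z hz ^ m : RR ℓ c ≃+* RR ℓ c) := by
    intro k m hkm hm heq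
    have h1 : ∀ n, con (z ^ n) * uu 1 - con a ∈ P.map (rot z hz ^ n : RR ℓ c ≃+* RR ℓ c) := by
      intro n
      refine (Ideal.mem_map_of_equiv _ _).2 ⟨uu 1 - con a, ha, ?_⟩
      rw [map_sub, np_rot_uu, np_rot_con]
    have h2 := h1 k
    have h3 := h1 m
    rw [← heq] at h3
    have h4 := Ideal.sub_mem _ h2 h3
    have h5 : con (z ^ k) * uu 1 - con a - (con (z ^ m) * uu 1 - con a) =
        (con (z ^ k - z ^ m) : RR ℓ c) * uu 1 := by
      rw [map_sub]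
      ring
    rw [h5] at h4
    refine hunotk k (by omega) (np_mul_mem (sub_ne_zero.2 ?_) h4)
    intro h6
    have h7 := hζ.pow_inj (by omega) hm h6
    omega
  have hcop : ((Finset.range ℓ : Finset ℕ) : Set ℕ).Pairwise
      (Function.onFun IsCoprime fun k => P.map (rot z hz ^ k : RR ℓ c ≃+* RR ℓ c)) := by
    intro k hk m hm hkm
    have hk' : k < ℓ := by simpa using hk
    have hm' : m < ℓ := by simpa using hm
    refine Ideal.isCoprime_iff_sup_eq.2 ((hmax k).coprime_of_ne (hmax m) ?_)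
    rcases lt_or_gt_of_ne hkm with h1 | h1
    · exact hdist k m h1 hm'
    · exact (hdist m k h1 hk').symm
  apply le_antisymm
  · intro r hr
    have hr1 : ∀ k < ℓ, r ∈ P.map (rot z hz ^ k : RR ℓ c ≃+* RR ℓ c) := by
      intro k hk
      have h1 : nI z hζ.pow_eq_one P ≤ P.map (rot z hz ^ k : RR ℓ c ≃+* RR ℓ c) := by
        unfold nI
        exact Ideal.prod_le_inf.trans (Finset.inf_le (Finset.mem_range.2 hk))
      exact h1 hr
    have hr2 := np_iter hz hr1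
    have hℓ0 : ((ℓ : ℕ) : f) ≠ 0 := by
      have := hζ.neZero'
      exact this.out
    have hdvd : ∀ j : ZMod ℓ, X - C x0 ∣ r j := by
      intro j
      have h1 : ∑ k ∈ Finset.range ℓ, con ((z⁻¹ ^ j.val) ^ k) *
          (rot z hz ^ k : RR ℓ c ≃+* RR ℓ c) r ∈ P :=
        Ideal.sum_mem _ fun k hk => P.mul_mem_left _ (hr2 k (Finset.mem_range.1 hk))
      have h2 : ∑ k ∈ Finset.range ℓ, con ((z⁻¹ ^ j.val) ^ k) *
          (rot z hz ^ k : RR ℓ c ≃+* RR ℓ c) r =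
          algebraMap f[X] (RR ℓ c) (C (ℓ : f) * r j) * uu j := by
        rw [← Algebra.smul_def]
        ext1 i
        rw [sum_ap, smul_ap, uu_ap]
        have h3 : ∀ k ∈ Finset.range ℓ, (con ((z⁻¹ ^ j.val) ^ k) *
            (rot z hz ^ k : RR ℓ c ≃+* RR ℓ c) r : RR ℓ c) i =
            C ((z⁻¹ ^ j.val * z ^ i.val) ^ k) * r i := by
          intro k _
          rw [np_con_mul, smul_ap, rot_pow_ap, ← mul_assoc, ← C_mul, mul_pow, ← pow_mul z k,
            mul_comm k, pow_mul z i.val]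
        rw [Finset.sum_congr rfl h3, ← Finset.sum_mul, ← map_sum]
        split_ifs with hij
        · subst hij
          have h4 : z⁻¹ ^ i.val * z ^ i.val = 1 := by
            rw [← mul_pow, inv_mul_cancel₀ hz0, one_pow]
          rw [h4, mul_one, Finset.sum_congr rfl fun k _ => one_pow k, Finset.sum_const,
            Finset.card_range, nsmul_eq_mul, mul_one]
        · have h4 : z⁻¹ ^ j.val * z ^ i.val ≠ 1 := by
            intro h5
            apply hij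
            have h6 : z ^ i.val = z ^ j.val := by
              calc z ^ i.val = z ^ j.val * (z⁻¹ ^ j.val * z ^ i.val) := by
                    rw [← mul_assoc, ← mul_pow, mul_inv_cancel₀ hz0, one_pow, one_mul]
                _ = z ^ j.val := by rw [h5, mul_one]
            exact ZMod.val_injective ℓ (hζ.pow_inj (ZMod.val_lt i) (ZMod.val_lt j) h6)
          have h5 : (z⁻¹ ^ j.val * z ^ i.val) ^ ℓ = 1 := by
            rw [mul_pow, ← pow_mul, ← pow_mul, mul_comm j.val, mul_comm i.val, pow_mul, pow_mul,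
              inv_pow, hz, inv_one, one_pow, one_pow, one_mul]
          have h6 := geom_sum_eq h4 ℓ
          rw [h5, sub_self, zero_div] at h6
          rw [h6, C_0, zero_mul, mul_zero]
      rw [h2] at h1
      have h3 := (hP.isPrime.mem_or_mem h1).resolve_right (hunot j)
      rw [algebraMap_mem_iff hP h0, eval_mul, eval_C] at h3
      exact dvd_iff_isRoot.2 ((mul_eq_zero.1 h3).resolve_left hℓ0)
    choose q hq using hdvd
    rw [Ideal.mem_span_singleton]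
    refine ⟨⟨q⟩, ?_⟩
    rw [← Algebra.smul_def]
    ext1 j
    rw [smul_ap, hq j]
  · rw [← Ideal.dvd_iff_le]
    unfold nI
    refine Finset.prod_dvd_of_coprime hcop fun k _ => ?_
    rw [Ideal.dvd_iff_le, Ideal.span_singleton_le_iff_mem]
    refine (Ideal.mem_map_of_equiv _ _).2 ⟨algebraMap f[X] (RR ℓ c) (X - C x0), h0, ?_⟩
    ext1 j
    rw [rot_pow_ap, algebraMap_ap]
    split_ifs with h
    · rw [h, ZMod.val_zero, pow_zero, C_1, one_mul]
    · rw [mul_zero]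

end Pool.Agent.Helper12.SN
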