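import Pool.Agent.Helper12.SN.Rot

set_option autoImplicit false
set_option linter.unusedSectionVars false

/-!
# SB-N-08: the norm of elements

`algebraMap_nm`: `N := ∏ k ∈ range ℓ, ρ^k r` is fixed by `ρ`: `ρ N = ∏ k, ρ^(k+1) r`, and
`ρ^ℓ = 1` (`rot_pow_ell`; `Finset.prod_range_succ'`/`Finset.prod_range_succ`).  `rot_fixed`.
`nm_mul`: from `algebraMap_nm`, `map_mul`, `Finset.prod_mul_distrib` and injectivity of
`algebraMap A[X] (RR ℓ c)` (`algebraMap_ap` at `j = 0`).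
`nm_ne_zero`: `RR ℓ c` is a domain, `ρ^k` injective.
`nm_algebraMap`: `rot_algebraMap` iterated.
`natDegree_nm`: `dg (∏ ρ^k r) = ℓ * dg r` (`dg_mul`, `dg_rot`, induction) and `dg_algebraMap`;
`ℓ ≠ 0`.
`dvd_nm`: the factor `k = 0` (`Finset.dvd_prod_of_mem`).
`nm_map`: `rot_map`, `map_prod`, `map_ap`.
-/

open Polynomial

namespace Pool.Agent.Helper12.SN

variable {ℓ : ℕ} [NeZero ℓ] {A : Type} [CommRing A] {c : Fin 3 → A}

/-- the norm of `r`, a polynomial in `x` -/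
noncomputable def nm (z : A) (hz : z ^ ℓ = 1) (r : RR ℓ c) : A[X] :=
  (∏ k ∈ Finset.range ℓ, (rot z hz ^ k : RR ℓ c ≃+* RR ℓ c) r) 0

private theorem rot_prod (z : A) (hz : z ^ ℓ = 1) (r : RR ℓ c) :
    rot z hz (∏ k ∈ Finset.range ℓ, (rot z hz ^ k : RR ℓ c ≃+* RR ℓ c) r) =
      ∏ k ∈ Finset.range ℓ, (rot z hz ^ k : RR ℓ c ≃+* RR ℓ c) r := by
  have h0 : (rot z hz ^ ℓ : RR ℓ c ≃+* RR ℓ c) r = (rot z hz ^ 0 : RR ℓ c ≃+* RR ℓ c) r := by
    rw [rot_pow_ell, pow_zero]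
  have h1 : ∀ k : ℕ, rot z hz ((rot z hz ^ k : RR ℓ c ≃+* RR ℓ c) r) =
      (rot z hz ^ (k + 1) : RR ℓ c ≃+* RR ℓ c) r := by
    intro k
    rw [pow_succ', RingAut.mul_apply]
  obtain ⟨m, hm⟩ : ∃ m, ℓ = m + 1 := ⟨ℓ - 1, by have := NeZero.ne ℓ; omega⟩
  have h2 : Finset.range ℓ = Finset.range (m + 1) := by rw [hm]
  rw [map_prod, Finset.prod_congr rfl fun k _ => h1 k, h2, Finset.prod_range_succ,
    Finset.prod_range_succ', ← hm, h0]

theorem algebraMap_nm [IsDomain A] {z : A} (hζ : IsPrimitiveRoot z ℓ) (r : RR ℓ c) :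
    algebraMap A[X] (RR ℓ c) (nm z hζ.pow_eq_one r) =
      ∏ k ∈ Finset.range ℓ, (rot z hζ.pow_eq_one ^ k : RR ℓ c ≃+* RR ℓ c) r :=
  (rot_fixed hζ (rot_prod z hζ.pow_eq_one r)).symm

private theorem nm_inj {p q : A[X]} (h : algebraMap A[X] (RR ℓ c) p = algebraMap A[X] (RR ℓ c) q) :
    p = q := by
  have h1 := congrArg (fun s : RR ℓ c => s 0) h
  simpa only [algebraMap_ap, if_true] using h1

theorem nm_mul [IsDomain A] {z : A} (hζ : IsPrimitiveRoot z ℓ) (r s : RR ℓ c) :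
    nm z hζ.pow_eq_one (r * s) = nm z hζ.pow_eq_one r * nm z hζ.pow_eq_one s := by
  apply nm_inj (ℓ := ℓ) (c := c)
  rw [map_mul, algebraMap_nm hζ, algebraMap_nm hζ, algebraMap_nm hζ, ← Finset.prod_mul_distrib]
  exact Finset.prod_congr rfl fun k _ => map_mul _ _ _

theorem nm_ne_zero [IsDomain A] {z : A} (hζ : IsPrimitiveRoot z ℓ) {r : RR ℓ c} (hr : r ≠ 0) :
    nm z hζ.pow_eq_one r ≠ 0 := by
  intro h
  have h1 := algebraMap_nm hζ r
  rw [h, map_zero] at h1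
  obtain ⟨k, -, hk⟩ := Finset.prod_eq_zero_iff.1 h1.symm
  exact hr ((map_eq_zero_iff _ (RingEquiv.injective _)).1 hk)

private theorem rot_pow_algebraMap (z : A) (hz : z ^ ℓ = 1) (p : A[X]) (k : ℕ) :
    (rot z hz ^ k : RR ℓ c ≃+* RR ℓ c) (algebraMap A[X] (RR ℓ c) p) =
      algebraMap A[X] (RR ℓ c) p := by
  induction k with
  | zero => rfl
  | succ k ih => rw [pow_succ', RingAut.mul_apply, ih, rot_algebraMap]

theorem nm_algebraMap [IsDomain A] {z : A} (hζ : IsPrimitiveRoot z ℓ) (p : A[X]) :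
    nm z hζ.pow_eq_one (algebraMap A[X] (RR ℓ c) p) = p ^ ℓ := by
  apply nm_inj (ℓ := ℓ) (c := c)
  rw [algebraMap_nm hζ, Finset.prod_congr rfl fun k _ => rot_pow_algebraMap z hζ.pow_eq_one p k,
    Finset.prod_const, Finset.card_range, map_pow]

private theorem dg_rot_pow [IsDomain A] (z : A) (hz : z ^ ℓ = 1) (r : RR ℓ c) (k : ℕ) :
    dg ((rot z hz ^ k : RR ℓ c ≃+* RR ℓ c) r) = dg r := by
  induction k with
  | zero => rfl
  | succ k ih => rw [pow_succ', RingAut.mul_apply, dg_rot, ih]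

private theorem rot_pow_ne [IsDomain A] (z : A) (hz : z ^ ℓ = 1) {r : RR ℓ c} (hr : r ≠ 0)
    (k : ℕ) : (rot z hz ^ k : RR ℓ c ≃+* RR ℓ c) r ≠ 0 :=
  fun h => hr ((map_eq_zero_iff _ (RingEquiv.injective _)).1 h)

private theorem dg_prod [IsDomain A] (z : A) (hz : z ^ ℓ = 1) {r : RR ℓ c} (hr : r ≠ 0) (n : ℕ) :
    dg (∏ k ∈ Finset.range n, (rot z hz ^ k : RR ℓ c ≃+* RR ℓ c) r) = n * dg r := by
  induction n with
  | zero =>
    rw [Finset.prod_range_zero, zero_mul, ← map_one (algebraMap A[X] (RR ℓ c)), dg_algebraMap,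
      natDegree_one, mul_zero]
  | succ n ih =>
    rw [Finset.prod_range_succ, dg_mul (Finset.prod_ne_zero_iff.2 fun k _ => rot_pow_ne z hz hr k)
      (rot_pow_ne z hz hr n), ih, dg_rot_pow, Nat.succ_mul]

theorem natDegree_nm [IsDomain A] {z : A} (hζ : IsPrimitiveRoot z ℓ) (r : RR ℓ c) (hr : r ≠ 0) :
    (nm z hζ.pow_eq_one r).natDegree = dg r := by
  have h1 : dg (algebraMap A[X] (RR ℓ c) (nm z hζ.pow_eq_one r)) = ℓ * dg r := by
    rw [algebraMap_nm hζ, dg_prod z hζ.pow_eq_one hr]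
  rw [dg_algebraMap] at h1
  exact Nat.eq_of_mul_eq_mul_left (Nat.pos_of_ne_zero (NeZero.ne ℓ)) h1

/-- `r` divides its norm -/
theorem dvd_nm [IsDomain A] {z : A} (hζ : IsPrimitiveRoot z ℓ) (r : RR ℓ c) :
    r ∣ algebraMap A[X] (RR ℓ c) (nm z hζ.pow_eq_one r) := by
  have h1 : (rot z hζ.pow_eq_one ^ 0 : RR ℓ c ≃+* RR ℓ c) r = r := by
    rw [pow_zero]
    exact RingAut.one_apply r
  have h2 : (rot z hζ.pow_eq_one ^ 0 : RR ℓ c ≃+* RR ℓ c) r ∣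
      ∏ k ∈ Finset.range ℓ, (rot z hζ.pow_eq_one ^ k : RR ℓ c ≃+* RR ℓ c) r :=
    Finset.dvd_prod_of_mem (fun k : ℕ => (rot z hζ.pow_eq_one ^ k : RR ℓ c ≃+* RR ℓ c) r)
      (Finset.mem_range.2 (Nat.pos_of_ne_zero (NeZero.ne ℓ)))
  rw [algebraMap_nm hζ]
  rw [h1] at h2
  exact h2

theorem nm_map {B : Type} [CommRing B] {d : Fin 3 → B} (φ : A →+* B)
    (h : ∀ i, φ (c i) = d i) (z : A) (hz : z ^ ℓ = 1) (hz' : (φ z) ^ ℓ = 1)
    (r : RR ℓ c) : nm (φ z) hz' (RR.map φ h r) = (nm z hz r).map φ := by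
  unfold nm
  rw [← map_ap φ h, map_prod]
  exact congrArg (fun s : RR ℓ d => s 0) (Finset.prod_congr rfl fun k _ =>
    (rot_map φ h z hz hz' k r).symm)

end Pool.Agent.Helper12.SN
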