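import Pool.Agent.Helper12.SN.PtsB
import Pool.Agent.Helper12.SN.NIa

set_option autoImplicit false
set_option linter.unusedSectionVars false

/-!
# SB-N-21: `p_i ^ ℓ = (x - c i)`

Put `X_i := span {algebraMap (X - C (c i))}`, `p := pp c i`.  Work with the exponent `v(I)` of `p` in
a nonzero ideal `I` (`Multiset.count p (normalizedFactors I)`, or `Ideal.IsPrime.multiplicity`, or the
valuation of the height one prime `p`); `I ≤ p^t ↔ t ≤ v(I)`, `v(I J) = v(I) + v(J)`.
(1) `X_i = p^n` for some `n ≥ 1`: `X_i ≠ ⊥`, `X_i ≤ p` (`xc_mem_pp`), and every maximal ideal containing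
`X_i` is `p` (`eq_pp`).
(2) For `j ≠ 0`: `u_j^ℓ = algebraMap (al^(ℓ - j.val) * be^(j.val))` (`uu_pow_ell`).  Put
`k = ℓ - j.val` if `i = 1` and `k = j.val` if `i = 0, 2`; `0 < k < ℓ`.  `v(u_j^ℓ) = k n`: the other
linear factors `X - C (c i')`, `i' ≠ i`, are not in `p` (their value at `c i` is `c i - c i' ≠ 0`,
`Good.inj`).  So `ℓ v(u_j) = k n`.  As `ℓ` is prime and `0 < k < ℓ`, `ℓ ∣ n` (take `j = 1`), `n = ℓ t`,
`t ≥ 1`, and `v(u_j) = k t ≥ t`; also `v(X_i) = ℓ t ≥ t`.
(3) `p` is generated by `algebraMap (X - C (c i))` and the `u_j`, `j ≠ 0` (if `(r 0).eval (c i) = 0`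
then `X - C (c i) ∣ r 0`; `eq_sum_uu`).  So `p ≤ p^t`, hence `t ≤ 1`, `t = 1`, `n = ℓ`.
-/

open Polynomial

namespace Pool.Agent.Helper12.SN

variable {ℓ : ℕ} [Fact ℓ.Prime] {f : Type} [Field f] {c : Fin 3 → f}

open UniqueFactorizationMonoid in
private theorem PpPow_le_iff [Good ℓ c] {p I : Ideal (RR ℓ c)} (hp : Prime p) (hI : I ≠ ⊥)
    (t : ℕ) : I ≤ p ^ t ↔ t ≤ (normalizedFactors I).count p := by
  classical
  rw [← Ideal.dvd_iff_le, dvd_iff_normalizedFactors_le_normalizedFactors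
    (pow_ne_zero _ hp.ne_zero) hI, normalizedFactors_pow, normalizedFactors_irreducible
    hp.irreducible, normalize_eq, Multiset.nsmul_singleton, Multiset.le_count_iff_replicate_le]

open UniqueFactorizationMonoid in
private theorem PpPow_aux [IsAlgClosed f] [Good ℓ c] (i : Fin 3) :
    ∃ n : ℕ, 0 < n ∧ ℓ ∣ n ∧
      (pp c i : Ideal (RR ℓ c)) ^ n = Ideal.span {algebraMap f[X] (RR ℓ c) (X - C (c i))} ∧
      ∀ j : ZMod ℓ, j ≠ 0 → (uu j : RR ℓ c) ∈ (pp c i : Ideal (RR ℓ c)) ^ (n / ℓ) := by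
  classical
  have hl : ℓ.Prime := Fact.out
  have hmax : (pp c i : Ideal (RR ℓ c)).IsMaximal := pp_isMaximal i
  have hbot : (pp c i : Ideal (RR ℓ c)) ≠ ⊥ := ne_bot_of_isMaximal hmax
  have hprime : Prime (pp c i : Ideal (RR ℓ c)) := Ideal.prime_of_isPrime hbot hmax.isPrime
  have hne : ∀ x : f, algebraMap f[X] (RR ℓ c) (X - C x) ≠ 0 := by
    intro x h
    rw [map_eq_zero_iff _ algebraMap_injective] at h
    exact X_sub_C_ne_zero x h
  have hsne : ∀ x : f, (Ideal.span {algebraMap f[X] (RR ℓ c) (X - C x)} : Ideal (RR ℓ c)) ≠ ⊥ := by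
    intro x h
    rw [Ideal.span_singleton_eq_bot] at h
    exact hne x h
  set v : Ideal (RR ℓ c) → ℕ := fun I => (normalizedFactors I).count (pp c i) with hv
  have hvmul : ∀ I J : Ideal (RR ℓ c), I ≠ ⊥ → J ≠ ⊥ → v (I * J) = v I + v J := by
    intro I J hI hJ
    simp only [hv]
    rw [normalizedFactors_mul hI hJ, Multiset.count_add]
  have hvpow : ∀ (I : Ideal (RR ℓ c)) (m : ℕ), v (I ^ m) = m * v I := by
    intro I m
    simp only [hv]
    rw [normalizedFactors_pow, Multiset.count_nsmul]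
  have hle : ∀ (I : Ideal (RR ℓ c)) (t : ℕ), I ≠ ⊥ → (I ≤ pp c i ^ t ↔ t ≤ v I) :=
    fun I t hI => PpPow_le_iff hprime hI t
  set n : ℕ := v (Ideal.span {algebraMap f[X] (RR ℓ c) (X - C (c i))}) with hn
  -- the first step
  have h1 : (pp c i : Ideal (RR ℓ c)) ^ n =
      Ideal.span {algebraMap f[X] (RR ℓ c) (X - C (c i))} := by
    have h2 : normalizedFactors (Ideal.span {algebraMap f[X] (RR ℓ c) (X - C (c i))} :
        Ideal (RR ℓ c)) = Multiset.replicate n (pp c i) := by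
      have h3 : ∀ P ∈ normalizedFactors (Ideal.span {algebraMap f[X] (RR ℓ c) (X - C (c i))} :
          Ideal (RR ℓ c)), P = pp c i := by
        intro P hP
        have h4 : Prime P := prime_of_normalized_factor P hP
        have h5 : P.IsPrime := Ideal.isPrime_of_prime h4
        have h6 : P.IsMaximal := h5.isMaximal h4.ne_zero
        have h7 : P ∣ Ideal.span {algebraMap f[X] (RR ℓ c) (X - C (c i))} :=
          dvd_of_mem_normalizedFactors hP
        rw [Ideal.dvd_iff_le, Ideal.span_singleton_le_iff_mem] at h7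
        exact eq_pp h6 i h7
      rw [Multiset.eq_replicate]
      refine ⟨?_, h3⟩
      have h8 : (Multiset.count (pp c i) (normalizedFactors
          (Ideal.span {algebraMap f[X] (RR ℓ c) (X - C (c i))} : Ideal (RR ℓ c)))) =
          Multiset.card (normalizedFactors
          (Ideal.span {algebraMap f[X] (RR ℓ c) (X - C (c i))} : Ideal (RR ℓ c))) := by
        rw [Multiset.count_eq_card]
        intro P hP
        exact (h3 P hP).symm
      rw [← h8]
    have h9 := prod_normalizedFactors_eq_self (hsne (c i))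
    rw [h2, Multiset.prod_replicate] at h9
    exact h9
  have hn0 : 0 < n := by
    rw [Nat.pos_iff_ne_zero]
    intro h
    rw [h, pow_zero, Ideal.one_eq_top] at h1
    have h2 : (Ideal.span {algebraMap f[X] (RR ℓ c) (X - C (c i))} : Ideal (RR ℓ c)) ≤ pp c i := by
      rw [Ideal.span_singleton_le_iff_mem]
      exact xc_mem_pp i
    rw [← h1] at h2
    exact hmax.ne_top (top_le_iff.1 h2)
  -- the other linear factors
  have hw : ∀ m : Fin 3, v (Ideal.span {algebraMap f[X] (RR ℓ c) (X - C (c m))}) =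
      if m = i then n else 0 := by
    intro m
    by_cases hm : m = i
    · rw [if_pos hm, hm]
    · rw [if_neg hm]
      by_contra h
      have h2 : 1 ≤ v (Ideal.span {algebraMap f[X] (RR ℓ c) (X - C (c m))}) :=
        Nat.one_le_iff_ne_zero.2 h
      rw [← hle _ 1 (hsne (c m)), pow_one, Ideal.span_singleton_le_iff_mem] at h2
      have h3 : evc c i (algebraMap f[X] (RR ℓ c) (X - C (c m))) = 0 := RingHom.mem_ker.1 h2
      rw [evc_ap, algebraMap_ap, if_pos rfl, eval_sub, eval_X, eval_C, sub_eq_zero] at h3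
      exact hm (Good.inj (ℓ := ℓ) h3).symm
  -- the powers of `u_j`
  have hu : ∀ j : ZMod ℓ, j ≠ 0 → ∃ k : ℕ, 0 < k ∧ k < ℓ ∧
      ℓ * v (Ideal.span {(uu j : RR ℓ c)}) = k * n ∧
      (Ideal.span {(uu j : RR ℓ c)} : Ideal (RR ℓ c)) ≠ ⊥ := by
    intro j hj
    have hlt := ZMod.val_lt j
    have hpos : 0 < j.val := Nat.pos_of_ne_zero fun h => hj ((ZMod.val_eq_zero j).1 h)
    have hujne : (Ideal.span {(uu j : RR ℓ c)} : Ideal (RR ℓ c)) ≠ ⊥ := by
      rw [ne_eq, Ideal.span_singleton_eq_bot]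
      intro h
      have h2 := congrArg (fun r : RR ℓ c => r j) h
      simp only [uu_ap, if_true, zero_ap] at h2
      exact one_ne_zero h2
    have h2 : (Ideal.span {(uu j : RR ℓ c)} : Ideal (RR ℓ c)) ^ ℓ =
        Ideal.span {algebraMap f[X] (RR ℓ c) (X - C (c 1))} ^ (ℓ - j.val) *
        (Ideal.span {algebraMap f[X] (RR ℓ c) (X - C (c 0))} *
          Ideal.span {algebraMap f[X] (RR ℓ c) (X - C (c 2))}) ^ j.val := by
      rw [Ideal.span_singleton_pow, uu_pow_ell hj, Ideal.span_singleton_pow,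
        Ideal.span_singleton_mul_span_singleton, Ideal.span_singleton_pow,
        Ideal.span_singleton_mul_span_singleton, al, be, map_mul, map_pow, map_pow, map_mul]
    have h3 := congrArg v h2
    rw [hvpow, hvmul _ _ (pow_ne_zero _ (hsne _))
      (pow_ne_zero _ (mul_ne_zero (hsne _) (hsne _))), hvpow, hvpow,
      hvmul _ _ (hsne _) (hsne _), hw, hw, hw] at h3
    fin_cases i
    · refine ⟨j.val, hpos, hlt, ?_, hujne⟩
      simpa using h3
    · refine ⟨ℓ - j.val, by omega, by omega, ?_, hujne⟩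
      simpa using h3
    · refine ⟨j.val, hpos, hlt, ?_, hujne⟩
      simpa using h3
  have hdvd : ℓ ∣ n := by
    obtain ⟨k, hk0, hkl, hk, _⟩ := hu 1 one_ne_zero
    have h2 : ℓ ∣ k * n := ⟨_, hk.symm⟩
    rcases (Nat.Prime.dvd_mul hl).1 h2 with h3 | h3
    · exact absurd (Nat.le_of_dvd hk0 h3) (by omega)
    · exact h3
  refine ⟨n, hn0, hdvd, h1, ?_⟩
  intro j hj
  obtain ⟨k, hk0, hkl, hk, hne'⟩ := hu j hj
  rw [← Ideal.span_singleton_le_iff_mem, hle _ _ hne']
  obtain ⟨t, ht⟩ := hdvd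
  rw [ht, Nat.mul_div_cancel_left _ hl.pos]
  have h2 : ℓ * v (Ideal.span {(uu j : RR ℓ c)}) = ℓ * (k * t) := by
    rw [hk, ht]
    ring
  have h3 := Nat.eq_of_mul_eq_mul_left hl.pos h2
  rw [h3]
  exact Nat.le_mul_of_pos_left t hk0

theorem pp_pow [IsAlgClosed f] [Good ℓ c] (i : Fin 3) :
    (pp c i : Ideal (RR ℓ c)) ^ ℓ = Ideal.span {algebraMap f[X] (RR ℓ c) (X - C (c i))} := by
  classical
  have hl : ℓ.Prime := Fact.out
  have hmax : (pp c i : Ideal (RR ℓ c)).IsMaximal := pp_isMaximal i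
  have hbot : (pp c i : Ideal (RR ℓ c)) ≠ ⊥ := ne_bot_of_isMaximal hmax
  obtain ⟨n, hn0, ⟨t, ht⟩, h1, h2⟩ := PpPow_aux (ℓ := ℓ) (c := c) i
  rw [ht, Nat.mul_div_cancel_left _ hl.pos] at h2
  have ht0 : 0 < t := by
    rcases Nat.eq_zero_or_pos t with h | h
    · rw [h, mul_zero] at ht
      omega
    · exact h
  have htn : t ≤ n := by
    rw [ht]
    exact Nat.le_mul_of_pos_left t hl.pos
  have h3 : (pp c i : Ideal (RR ℓ c)) ≤ pp c i ^ t := by
    intro r hr
    have h4 : evc c i r = 0 := RingHom.mem_ker.1 hr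
    rw [evc_ap] at h4
    rw [eq_sum_uu r]
    apply Ideal.sum_mem
    intro j _
    by_cases hj : j = 0
    · rw [hj, uu_zero, ← Algebra.algebraMap_eq_smul_one]
      obtain ⟨q, hq⟩ := dvd_iff_isRoot.2 h4
      rw [hq, map_mul]
      apply Ideal.mul_mem_right
      have h5 : algebraMap f[X] (RR ℓ c) (X - C (c i)) ∈ (pp c i : Ideal (RR ℓ c)) ^ n := by
        rw [h1]
        exact Ideal.mem_span_singleton_self _
      exact Ideal.pow_le_pow_right htn h5
    · rw [Algebra.smul_def]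
      exact Ideal.mul_mem_left _ _ (h2 j hj)
  have h4 : t = 1 := by
    by_contra h
    have h5 : 2 ≤ t := by omega
    have h6 : (pp c i : Ideal (RR ℓ c)) ≤ pp c i ^ 2 := h3.trans (Ideal.pow_le_pow_right h5)
    have h7 : (pp c i : Ideal (RR ℓ c)) ^ 2 < pp c i ^ 1 :=
      Ideal.pow_right_strictAnti _ hbot hmax.ne_top (by norm_num)
    rw [pow_one] at h7
    exact absurd h6 (not_le_of_gt h7)
  rw [h4, mul_one] at ht
  rw [ht] at h1
  exact h1

end Pool.Agent.Helper12.SN
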