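import Pool.Agent.Helper12.SN.ExNI

/-!
# SB-N: points of the curve (collects PtsA, PtsB, Orb, NIa, PpPow, NIpt, ExNI)
-/
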