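import Pool.Agent.Helper12.SN.Ded

set_option autoImplicit false
set_option linter.unusedSectionVars false

/-!
# SB-N-17: the ideals `p_i`

`pp_isMaximal`: `evc c i` is surjective onto the field `f` (`evc (con a) = a`),
`RingHom.ker_isMaximal_of_surjective`.  `xc_mem_pp`: `RingHom.mem_ker`, `algebraMap_ap`.
`ne_bot_of_isMaximal`: if `⊥` is maximal, `xx = algebraMap X ≠ 0` is a unit, so it is constant
(`unit_eq_con`); compare the coefficients at `u_0`: `X = C a` is false.
`map_rot_pp`: `(rot r) 0 = r 0` (`z ^ 0 = 1`), `Ideal.map` by an equivalence is the comap by its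
inverse (`Ideal.map_comap_of_equiv`, `Ideal.comap_symm`, or both inclusions:
`r = rot (rot.symm r)`).  `map_rot_pow_pp`: induction.
-/

open Polynomial

namespace Pool.Agent.Helper12.SN

variable {ℓ : ℕ} [Fact ℓ.Prime] {f : Type} [Field f] {c : Fin 3 → f}

theorem pp_isMaximal (i : Fin 3) : (pp c i : Ideal (RR ℓ c)).IsMaximal := by
  refine RingHom.ker_isMaximal_of_surjective (evc c i) fun a => ⟨con a, ?_⟩
  rw [evc_ap, con_ap, if_pos rfl, eval_C]

theorem xc_mem_pp (i : Fin 3) :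
    algebraMap f[X] (RR ℓ c) (X - C (c i)) ∈ (pp c i : Ideal (RR ℓ c)) := by
  rw [pp, RingHom.mem_ker, evc_ap, algebraMap_ap, if_pos rfl, eval_sub, eval_X, eval_C, sub_self]

theorem ne_bot_of_isMaximal {P : Ideal (RR ℓ c)} (hP : P.IsMaximal) : P ≠ ⊥ := by
  rintro rfl
  have hx : (xx : RR ℓ c) ≠ 0 := by
    intro h
    have h1 := congrArg (fun r : RR ℓ c => r 0) h
    simp only [xx, zero_ap] at h1
    rw [algebraMap_ap, if_pos rfl] at h1
    exact X_ne_zero h1
  have hfield : IsField (RR ℓ c) := Ring.isField_iff_maximal_bot.2 hP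
  obtain ⟨s, hs⟩ := hfield.mul_inv_cancel hx
  have hu : IsUnit (xx : RR ℓ c) := IsUnit.of_mul_eq_one s hs
  have h2 := (unit_eq_con hu).1
  have h3 := congrArg (fun r : RR ℓ c => r 0) h2
  simp only [xx] at h3
  rw [algebraMap_ap, if_pos rfl, con_ap, if_pos rfl] at h3
  have h4 := congrArg natDegree h3
  rw [natDegree_X, natDegree_C] at h4
  exact one_ne_zero h4

private theorem rot_mem_pp (z : f) (hz : z ^ ℓ = 1) (i : Fin 3) (r : RR ℓ c) :
    rot z hz r ∈ (pp c i : Ideal (RR ℓ c)) ↔ r ∈ (pp c i : Ideal (RR ℓ c)) := by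
  rw [pp, RingHom.mem_ker, RingHom.mem_ker, evc_ap, evc_ap, rot_ap, ZMod.val_zero, pow_zero, C_1,
    one_mul]

theorem map_rot_pp (z : f) (hz : z ^ ℓ = 1) (i : Fin 3) :
    (pp c i : Ideal (RR ℓ c)).map (rot z hz) = pp c i := by
  apply le_antisymm
  · rw [Ideal.map_le_iff_le_comap]
    intro r hr
    rw [Ideal.mem_comap]
    exact (rot_mem_pp z hz i r).2 hr
  · intro r hr
    have h1 : rot z hz ((rot z hz).symm r) = r := RingEquiv.apply_symm_apply _ _
    rw [← h1] at hr ⊢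
    exact Ideal.mem_map_of_mem _ ((rot_mem_pp z hz i _).1 hr)

theorem map_rot_pow_pp (z : f) (hz : z ^ ℓ = 1) (i : Fin 3) (k : ℕ) :
    (pp c i : Ideal (RR ℓ c)).map (rot z hz ^ k : RR ℓ c ≃+* RR ℓ c) = pp c i := by
  have hmem : ∀ (k : ℕ) (r : RR ℓ c), (rot z hz ^ k : RR ℓ c ≃+* RR ℓ c) r ∈
      (pp c i : Ideal (RR ℓ c)) ↔ r ∈ (pp c i : Ideal (RR ℓ c)) := by
    intro k
    induction k with
    | zero => intro r; rfl
    | succ k ih =>
      intro r
      rw [pow_succ]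
      exact (ih (rot z hz r)).trans (rot_mem_pp z hz i r)
  apply le_antisymm
  · rw [Ideal.map_le_iff_le_comap]
    intro r hr
    rw [Ideal.mem_comap]
    exact (hmem k r).2 hr
  · intro r hr
    have h1 : (rot z hz ^ k : RR ℓ c ≃+* RR ℓ c) ((rot z hz ^ k : RR ℓ c ≃+* RR ℓ c).symm r) = r :=
      RingEquiv.apply_symm_apply _ _
    rw [← h1] at hr ⊢
    exact Ideal.mem_map_of_mem _ ((hmem k _).1 hr)

end Pool.Agent.Helper12.SN
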