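import Pool.Agent.Helper12.SN.PtsA

set_option autoImplicit false
set_option linter.unusedSectionVars false

/-!
# SB-N-18: residue fields and `x`-coordinates of the points over an algebraically closed field

`exists_xc`: `P ≠ ⊥`, so it contains `r ≠ 0`, integral over `f[X]`; `Ideal.comap_ne_bot_of_integral_mem`
gives a nonzero `p : f[X]` with `algebraMap p ∈ P`; `p` is not constant (a nonzero constant is a
unit); `p = C _ * ∏ (X - C x_i)` (`IsAlgClosed.splits`, `Polynomial.Splits`), `P` prime, so some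
`algebraMap (X - C x_i) ∈ P`.
`exists_con_sub_mem`: let `k = RR ℓ c / P`, an integral domain, `φ : f →+* k`, `φ a = con a mod P`.  Every
element of `k` is integral over `f` (through `φ`): `r` is a root of a monic polynomial over `f[X]`;
modulo `P` its coefficients `p(x)` are `φ (p.eval x0)` (`p - C (p.eval x0)` is divisible by `X - C x0`).
A monic polynomial over the algebraically closed field `f` splits, `k` is a domain, so the class of
`r` is `φ a` for a root `a` (`IsAlgClosed.algebraMap_bijective_of_isIntegral`).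
`xc_unique`: otherwise the unit `con (x0 - x1)` is in `P`.
`eq_pp`: for `j ≠ 0`, `u_j^ℓ = algebraMap (al^(ℓ - j.val) * be^(j.val)) ∈ P` (`uu_pow_ell`; `X - C (c i)`
divides `al` or `be`, and both exponents are positive), so `u_j ∈ P`.  If `r ∈ pp c i`, i.e.
`(r 0).eval (c i) = 0`, then `X - C (c i) ∣ r 0` and `r = ∑ r_j • u_j ∈ P` (`eq_sum_uu`).  So
`pp c i ≤ P`, and `pp c i` is maximal (`Ideal.IsMaximal.eq_of_le`).
-/

open Polynomial

namespace Pool.Agent.Helper12.SN

variable {ℓ : ℕ} [Fact ℓ.Prime] {f : Type} [Field f] {c : Fin 3 → f} [IsAlgClosed f]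

private theorem ptsb_ev {P : Ideal (RR ℓ c)} {x0 : f}
    (h0 : algebraMap f[X] (RR ℓ c) (X - C x0) ∈ P) (p : f[X]) :
    algebraMap f[X] (RR ℓ c) p - con (p.eval x0) ∈ P := by
  have h1 : (X - C x0) ∣ p - C (p.eval x0) := by
    rw [Polynomial.dvd_iff_isRoot]
    simp [IsRoot]
  obtain ⟨q, hq⟩ := h1
  have h2 : algebraMap f[X] (RR ℓ c) p - con (p.eval x0) =
      algebraMap f[X] (RR ℓ c) (p - C (p.eval x0)) := by
    rw [map_sub]
    rfl
  rw [h2, hq, map_mul]
  exact P.mul_mem_right _ h0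

private theorem ptsb_con {P : Ideal (RR ℓ c)} (hP : P.IsMaximal) {a : f}
    (h : (con a : RR ℓ c) ∈ P) : a = 0 := by
  by_contra ha
  have h1 : (con a⁻¹ : RR ℓ c) * con a ∈ P := P.mul_mem_left _ h
  rw [← map_mul, inv_mul_cancel₀ ha, map_one] at h1
  exact hP.ne_top ((Ideal.eq_top_iff_one P).2 h1)

/-- the `x`-coordinate of a point -/
theorem exists_xc {P : Ideal (RR ℓ c)} (hP : P.IsMaximal) :
    ∃ x0 : f, algebraMap f[X] (RR ℓ c) (X - C x0) ∈ P := by
  obtain ⟨r, hr, hr0⟩ := Submodule.exists_mem_ne_zero_of_ne_bot (ne_bot_of_isMaximal hP)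
  have h1 : P.comap (algebraMap f[X] (RR ℓ c)) ≠ ⊥ :=
    Ideal.comap_ne_bot_of_integral_mem hr0 hr (Algebra.IsIntegral.isIntegral r)
  obtain ⟨p, hp, hp0⟩ := Submodule.exists_mem_ne_zero_of_ne_bot h1
  have hQ : (P.comap (algebraMap f[X] (RR ℓ c))).IsPrime := by
    have := hP.isPrime
    exact Ideal.comap_isPrime _ _
  have hs := (IsAlgClosed.splits p).eq_prod_roots
  rw [hs] at hp
  rcases hQ.mem_or_mem hp with h | h
  · exact absurd (leadingCoeff_eq_zero.1 (ptsb_con hP (a := p.leadingCoeff) h)) hp0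
  · obtain ⟨g, hg, hgQ⟩ := (hQ.multiset_prod_mem_iff_exists_mem _).1 h
    obtain ⟨a, _, rfl⟩ := Multiset.mem_map.1 hg
    exact ⟨a, hgQ⟩

/-- the residue fields are `f` -/
theorem exists_con_sub_mem {P : Ideal (RR ℓ c)} (hP : P.IsMaximal) (r : RR ℓ c) :
    ∃ a : f, r - con a ∈ P := by
  obtain ⟨x0, h0⟩ := exists_xc hP
  have hprime : P.IsPrime := hP.isPrime
  let φ : f →+* RR ℓ c ⧸ P := (Ideal.Quotient.mk P).comp con
  have h1 : (Ideal.Quotient.mk P).comp (algebraMap f[X] (RR ℓ c)) =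
      φ.comp (evalRingHom x0) := by
    refine RingHom.ext fun p => ?_
    exact Ideal.Quotient.eq.2 (ptsb_ev h0 p)
  have h2 : (algebraMap f[X] (RR ℓ c)).IsIntegral := algebraMap_isIntegral_iff.2 inferInstance
  have h3 : ((Ideal.Quotient.mk P).comp (algebraMap f[X] (RR ℓ c))).IsIntegral :=
    RingHom.IsIntegral.trans _ _ h2
      (RingHom.isIntegral_of_surjective _ Ideal.Quotient.mk_surjective)
  rw [h1] at h3
  have h4 : φ.IsIntegral := RingHom.IsIntegral.tower_top _ _ h3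
  obtain ⟨a, ha⟩ := (IsAlgClosed.ringHom_bijective_of_isIntegral φ h4).2 (Ideal.Quotient.mk P r)
  exact ⟨a, Ideal.Quotient.eq.1 ha.symm⟩

/-- a polynomial in `x` lies in the point over `x0` iff it vanishes at `x0` -/
private theorem ptsb_iff {P : Ideal (RR ℓ c)} (hP : P.IsMaximal) {x0 : f}
    (h0 : algebraMap f[X] (RR ℓ c) (X - C x0) ∈ P) (p : f[X]) :
    algebraMap f[X] (RR ℓ c) p ∈ P ↔ p.eval x0 = 0 := by
  have h1 := ptsb_ev h0 p
  constructor
  · intro h
    refine ptsb_con hP ?_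
    have h2 := P.sub_mem h h1
    rwa [sub_sub_cancel] at h2
  · intro h
    rw [h, map_zero, sub_zero] at h1
    exact h1

theorem xc_unique {P : Ideal (RR ℓ c)} (hP : P.IsMaximal) {x0 x1 : f}
    (h0 : algebraMap f[X] (RR ℓ c) (X - C x0) ∈ P)
    (h1 : algebraMap f[X] (RR ℓ c) (X - C x1) ∈ P) : x0 = x1 := by
  have h2 := (ptsb_iff hP h0 _).1 h1
  rw [eval_sub, eval_X, eval_C] at h2
  exact sub_eq_zero.1 h2

/-- `p_i` is the only point over `c i` -/
theorem eq_pp {P : Ideal (RR ℓ c)} (hP : P.IsMaximal) (i : Fin 3)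
    (h : algebraMap f[X] (RR ℓ c) (X - C (c i)) ∈ P) : P = pp c i := by
  have hu : ∀ j : ZMod ℓ, j ≠ 0 → (uu j : RR ℓ c) ∈ P := by
    intro j hj
    have hj1 : 0 < j.val := Nat.pos_of_ne_zero fun h2 => hj ((ZMod.val_eq_zero j).1 h2)
    have hj2 : 0 < ℓ - j.val := Nat.sub_pos_of_lt (ZMod.val_lt j)
    have h1 : (uu j : RR ℓ c) ^ ℓ ∈ P := by
      rw [uu_pow_ell hj, ptsb_iff hP h, eval_mul, eval_pow, eval_pow]
      unfold al be
      fin_cases i
      · simp [hj1.ne']
      · simp [hj2.ne']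
      · simp [hj1.ne']
    exact hP.isPrime.mem_of_pow_mem _ h1
  have hle : pp c i ≤ P := by
    intro r hr
    rw [pp, RingHom.mem_ker, evc_ap] at hr
    rw [eq_sum_uu r]
    refine P.sum_mem fun j _ => ?_
    rw [Algebra.smul_def]
    by_cases hj : j = 0
    · subst hj
      exact P.mul_mem_right _ ((ptsb_iff hP h _).2 hr)
    · exact P.mul_mem_left _ (hu j hj)
  exact ((pp_isMaximal i).eq_of_le hP.ne_top hle).symm

/-- a polynomial in `x` lies in the point over `x0` iff it vanishes at `x0` -/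
theorem algebraMap_mem_iff {P : Ideal (RR ℓ c)} (hP : P.IsMaximal) {x0 : f}
    (h0 : algebraMap f[X] (RR ℓ c) (X - C x0) ∈ P) (p : f[X]) :
    algebraMap f[X] (RR ℓ c) p ∈ P ↔ p.eval x0 = 0 :=
  ptsb_iff hP h0 p

end Pool.Agent.Helper12.SN
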