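import Pool.Agent.Helper12.SN.Inf

set_option autoImplicit false
set_option linter.unusedSectionVars false

/-!
# SB-N-07: the rotation `ρ`

`rot_pow_ap`: induction on `k` (`pow_succ`, `RingAut.mul_apply`/`rfl`, `rot_ap`).
`rot_pow_ell`: `(z ^ ℓ) ^ j.val = 1`.  `rot_algebraMap`: `algebraMap_ap`, `ZMod.val_zero`.
`rot_fixed`: for `j ≠ 0`, `(C (z ^ j.val) - 1) * r j = 0` and `z ^ j.val ≠ 1`
(`hζ.pow_ne_one_of_pos_of_lt`, `0 < j.val < ℓ`), so `r j = 0`; compare with `algebraMap_ap`.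
`rot_eigen`: `(con a * r) j = C a * r j`; for `j ≠ (t : ZMod ℓ)`, `z ^ j.val ≠ z ^ t`
(`hζ.pow_inj` after reducing `t` mod `ℓ`, or `IsPrimitiveRoot.pow_eq_pow_iff_modEq`; then
`(j.val : ZMod ℓ) = t`), so `r j = 0`.
`rot_map`: `rot_pow_ap`, `Polynomial.map_mul`.
-/

open Polynomial

namespace Pool.Agent.Helper12.SN

variable {ℓ : ℕ} [NeZero ℓ] {A : Type} [CommRing A] {c : Fin 3 → A}

private theorem zero_of_mul [IsDomain A] {z w : A} {p : A[X]} (hzw : z ≠ w)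
    (h : C z * p = C w * p) : p = 0 := by
  have h1 : C (z - w) * p = 0 := by
    rw [C_sub, sub_mul, h, sub_self]
  rcases mul_eq_zero.mp h1 with h2 | h2
  · exact absurd (sub_eq_zero.mp (C_eq_zero.mp h2)) hzw
  · exact h2

theorem rot_pow_ap (z : A) (hz : z ^ ℓ = 1) (k : ℕ) (r : RR ℓ c) (j : ZMod ℓ) :
    ((rot z hz ^ k : RR ℓ c ≃+* RR ℓ c) r) j = C ((z ^ k) ^ j.val) * r j := by
  induction k generalizing r with
  | zero => simp
  | succ k ih =>
    rw [pow_succ, RingAut.mul_apply, ih, rot_ap, ← mul_assoc, ← C_mul, ← mul_pow, ← pow_succ]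

theorem rot_pow_ell (z : A) (hz : z ^ ℓ = 1) : (rot z hz ^ ℓ : RR ℓ c ≃+* RR ℓ c) = 1 := by
  apply RingEquiv.ext
  intro r
  ext1 j
  rw [rot_pow_ap, hz, one_pow, C_1, one_mul]
  rfl

theorem rot_algebraMap (z : A) (hz : z ^ ℓ = 1) (p : A[X]) :
    rot z hz (algebraMap A[X] (RR ℓ c) p) = algebraMap A[X] (RR ℓ c) p := by
  ext1 j
  rw [rot_ap, algebraMap_ap]
  split_ifs with h
  · rw [h, ZMod.val_zero, pow_zero, C_1, one_mul]
  · rw [mul_zero]

theorem rot_con (z : A) (hz : z ^ ℓ = 1) (a : A) :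
    rot z hz (con a : RR ℓ c) = con a := rot_algebraMap z hz _

/-- the elements fixed by the rotation are the polynomials in `x` -/
theorem rot_fixed [IsDomain A] {z : A} (hζ : IsPrimitiveRoot z ℓ) {r : RR ℓ c}
    (h : rot z hζ.pow_eq_one r = r) : r = algebraMap A[X] (RR ℓ c) (r 0) := by
  ext1 j
  rw [algebraMap_ap]
  split_ifs with hj
  · rw [hj]
  · refine zero_of_mul (z := z ^ j.val) (w := 1) ?_ ?_
    · exact hζ.pow_ne_one_of_pos_of_lt (fun h0 => hj ((ZMod.val_eq_zero j).mp h0)) (ZMod.val_lt j)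
    · have h1 := congrArg (fun s : RR ℓ c => s j) h
      simp only [rot_ap] at h1
      rw [h1, C_1, one_mul]

/-- eigenvectors of the rotation -/
theorem rot_eigen [IsDomain A] {z : A} (hζ : IsPrimitiveRoot z ℓ) {r : RR ℓ c} {t : ℕ}
    (h : rot z hζ.pow_eq_one r = con (z ^ t) * r) :
    r = r (t : ZMod ℓ) • (uu (t : ZMod ℓ) : RR ℓ c) := by
  ext1 j
  rw [smul_ap, uu_ap]
  split_ifs with hj
  · rw [hj, mul_one]
  · rw [mul_zero]
    refine zero_of_mul (z := z ^ j.val) (w := z ^ t) ?_ ?_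
    · intro h0
      apply hj
      have h1 : z ^ t = z ^ (t % ℓ) := by
        conv_lhs => rw [← Nat.div_add_mod t ℓ, pow_add, pow_mul, hζ.pow_eq_one, one_pow, one_mul]
      rw [h1] at h0
      have h2 := hζ.pow_inj (ZMod.val_lt j) (Nat.mod_lt _ (NeZero.pos ℓ)) h0
      rw [← ZMod.val_natCast] at h2
      exact ZMod.val_injective ℓ h2
    · have h1 := congrArg (fun s : RR ℓ c => s j) h
      simp only [rot_ap] at h1
      have h3 : (con (z ^ t) * r : RR ℓ c) j = C (z ^ t) * r j := by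
        have h4 : (con (z ^ t) : RR ℓ c) * r = (C (z ^ t) : A[X]) • r :=
          (Algebra.smul_def (C (z ^ t) : A[X]) r).symm
        rw [h4, smul_ap]
      rw [h1, h3]

theorem rot_map {B : Type} [CommRing B] {d : Fin 3 → B} (φ : A →+* B)
    (h : ∀ i, φ (c i) = d i) (z : A) (hz : z ^ ℓ = 1) (hz' : (φ z) ^ ℓ = 1) (k : ℕ)
    (r : RR ℓ c) : RR.map φ h ((rot z hz ^ k : RR ℓ c ≃+* RR ℓ c) r) =
      (rot (φ z) hz' ^ k : RR ℓ d ≃+* RR ℓ d) (RR.map φ h r) := by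
  ext1 j
  have h1 : φ ((z ^ k) ^ j.val) = (φ z ^ k) ^ j.val := by rw [map_pow, map_pow]
  rw [map_ap, rot_pow_ap, rot_pow_ap, map_ap, Polynomial.map_mul, Polynomial.map_C, h1]

end Pool.Agent.Helper12.SN
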