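import Pool.Agent.Helper12.SN.JacDefs

set_option autoImplicit false
set_option linter.unusedSectionVars false

/-!
# SB-N-29: classes of `ρ`-stable ideals

PROOF.  Noetherian induction on `I` (`IsNoetherian.induction` or `WellFounded` on `>`): assume the
statement for all ideals `I' > I`, `I' ≠ ⊥` stable.  (It is enough to find exponents `i, j : ℕ` without
bound, and reduce them mod `ℓ` at the end with `cl_pp_pow`.)
`I = ⊤`: `cl_top`, `i = j = 0`.  Otherwise `I ≤ P` for a maximal `P`, over `x0` (`exists_xc`).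
Case `x0 = c i`: `P = pp c i` (`eq_pp`); `I = pp c i * I'` (`Ideal.dvd_iff_le`), `I' ≠ ⊥`,
`pp c i` is stable (`map_rot_pp`), so `pp c i * I'.map rot = pp c i * I'`, cancel: `I'` is stable.
`I' > I` (`I ≤ I'`; if `I = I'` then `pp c i * I' = 1 * I'` gives `pp c i = ⊤`).
`cl I = cl (pp c i) * cl I'`, and `cl (pp c 1) = cl (pp c 0) * cl (pp c 2)` (`cl_pp_rel`).
Case `x0 ∉ range c`: all `P_k := P.map (rot^k)` contain `I = I.map (rot^k)`, and they are pairwise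
distinct for `k < ℓ` (see NIpt.lean), so `∏ P_k = nI P = span {algebraMap (X - C x0)}` (`nI_point`)
divides `I`.  To avoid distinctness: let `m` be the exponent of `P` in `I`
(`Multiset.count P (normalizedFactors I)`, `m ≥ 1`); by stability it is also the exponent of every
`P_k`.  If some `P_k = P_m'` with `k < m' < ℓ` then `P.map (rot^i) = P` with `0 < i < ℓ`, so
(`ℓ` prime) `P.map rot = P`, so `nI P = P^ℓ = (X - C x0)`; but then `u_1 - con a ∈ P` gives
`z u_1 - con a ∈ P`, `(z - 1) u_1 ∈ P`, `u_1 ∈ P`, `u_1^ℓ = algebraMap (al^(ℓ-1) be) ∈ P`, so `x0 ∈ range c`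
(`algebraMap_mem_iff`): contradiction.  So they are distinct, and the product of distinct primes each
dividing `I` divides `I` (`Finset.prod_primes_dvd`).
So `I = span {algebraMap (X - C x0)} * I'`, `I'` stable (cancel), `I' > I`, `cl I = cl I'` (`cl_span`).
-/

open Polynomial

namespace Pool.Agent.Helper12.SN

private theorem stab_map_mul {R : Type} [CommRing R] (g h : R ≃+* R) (I : Ideal R) :
    (I.map h).map g = I.map (g * h : R ≃+* R) := by
  ext x
  rw [Ideal.mem_map_of_equiv, Ideal.mem_map_of_equiv]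
  constructor
  · rintro ⟨y, hy, rfl⟩
    obtain ⟨w, hw, rfl⟩ := (Ideal.mem_map_of_equiv h y).1 hy
    exact ⟨w, hw, rfl⟩
  · rintro ⟨w, hw, rfl⟩
    exact ⟨h w, Ideal.mem_map_of_mem h hw, rfl⟩

private theorem stab_map_pow {R : Type} [CommRing R] (g : R ≃+* R) {I : Ideal R}
    (h : I.map g = I) (k : ℕ) : I.map (g ^ k : R ≃+* R) = I := by
  induction k with
  | zero =>
    rw [pow_zero]
    exact Ideal.map_id I
  | succ k ih => rw [pow_succ', ← stab_map_mul, ih, h]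

private theorem stab_map_inj {R : Type} [CommRing R] (g : R ≃+* R) {I J : Ideal R}
    (h : I.map g = J.map g) : I = J := by
  have h1 : ∀ K : Ideal R, ∀ x, x ∈ K ↔ g x ∈ K.map g := by
    intro K x
    rw [Ideal.mem_map_of_equiv]
    constructor
    · exact fun hx => ⟨x, hx, rfl⟩
    · rintro ⟨y, hy, hyx⟩
      rwa [← g.injective hyx]
  ext x
  rw [h1 I, h1 J, h]

/-- Division of a stable ideal by a stable ideal. -/
private theorem stab_step {R : Type} [CommRing R] [IsDedekindDomain R] (g : R ≃+* R)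
    {I Q : Ideal R} (hI : I ≠ ⊥) (h : I.map g = I) (hQ : Q ≠ ⊥) (hQt : Q ≠ ⊤) (hQg : Q.map g = Q)
    (hd : Q ∣ I) : ∃ I' : Ideal R, I < I' ∧ I' ≠ ⊥ ∧ I'.map g = I' ∧ cl I = cl Q * cl I' := by
  obtain ⟨I', rfl⟩ := hd
  have hI' : I' ≠ ⊥ := by
    rintro rfl
    exact hI (Ideal.mul_bot Q)
  refine ⟨I', ?_, hI', ?_, cl_mul hQ hI'⟩
  · refine lt_of_le_of_ne Ideal.mul_le_right fun h1 => hQt ?_
    have h2 : Q * I' = 1 * I' := by rw [one_mul, h1]
    have h3 := mul_right_cancel₀ (b := I') (by rwa [Submodule.zero_eq_bot]) h2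
    rw [h3, Ideal.one_eq_top]
  · rw [Ideal.map_mul, hQg] at h
    exact mul_left_cancel₀ (by rwa [Submodule.zero_eq_bot]) h

variable {ℓ : ℕ} [Fact ℓ.Prime] {f : Type} [Field f] {c : Fin 3 → f} [IsAlgClosed f] [Good ℓ c]

private theorem stab_distinct {z : f} (hz : z ^ ℓ = 1) {P : Ideal (RR ℓ c)}
    {k m : ℕ} (hkm : k < m) (hm : m < ℓ)
    (h : P.map (rot z hz ^ k : RR ℓ c ≃+* RR ℓ c) = P.map (rot z hz ^ m : RR ℓ c ≃+* RR ℓ c)) :
    P.map (rot z hz) = P := by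
  have hℓ : ℓ.Prime := Fact.out
  have h1 : (rot z hz ^ m : RR ℓ c ≃+* RR ℓ c) = rot z hz ^ k * rot z hz ^ (m - k) := by
    rw [← pow_add]
    congr 1
    omega
  rw [h1, ← stab_map_mul] at h
  have h2 := (stab_map_inj _ h).symm
  obtain ⟨t, -, ht⟩ := Nat.exists_mul_mod_eq_one_of_coprime (k := ℓ) (n := m - k)
    ((hℓ.coprime_iff_not_dvd.2 (Nat.not_dvd_of_pos_of_lt (by omega) (by omega))).symm) hℓ.one_lt
  have h3 := stab_map_pow _ h2 t
  rw [← pow_mul, pow_eq_pow_mod _ (rot_pow_ell z hz), ht, pow_one] at h3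
  exact h3

private theorem stab_no_fix {z : f} (hζ : IsPrimitiveRoot z ℓ) {P : Ideal (RR ℓ c)}
    (hP : P.IsMaximal) {x0 : f} (h0 : algebraMap f[X] (RR ℓ c) (X - C x0) ∈ P)
    (hx : ∀ i, x0 ≠ c i) (hfix : P.map (rot z hζ.pow_eq_one) = P) : False := by
  have hℓ : ℓ.Prime := Fact.out
  have hval : (1 : ZMod ℓ).val = 1 := by
    rw [ZMod.val_one_eq_one_mod]
    exact Nat.mod_eq_of_lt hℓ.one_lt
  obtain ⟨a, ha⟩ := exists_con_sub_mem hP (uu 1)
  have hr : rot z hζ.pow_eq_one (uu 1 : RR ℓ c) = con z * uu 1 := by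
    have e0 : (con z : RR ℓ c) = algebraMap f[X] (RR ℓ c) (C z) := by
      rw [con, RingHom.comp_apply]
    rw [e0, ← Algebra.smul_def]
    ext1 j
    rw [rot_ap, smul_ap, uu_ap]
    split_ifs with hj
    · rw [hj, hval, pow_one]
    · rw [mul_zero, mul_zero]
  have h1 : rot z hζ.pow_eq_one (uu 1 - con a : RR ℓ c) ∈ P := by
    have h2 := Ideal.mem_map_of_mem (rot z hζ.pow_eq_one) ha
    rwa [hfix] at h2
  rw [map_sub, rot_con, hr] at h1
  have h2 : con (z - 1) * uu 1 ∈ P := by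
    have h3 := P.sub_mem h1 ha
    have h4 : (con z * uu 1 - con a - (uu 1 - con a) : RR ℓ c) = con (z - 1) * uu 1 := by
      rw [map_sub, map_one]
      ring
    rwa [h4] at h3
  have hz1 : z - 1 ≠ 0 := sub_ne_zero.2 (hζ.ne_one hℓ.one_lt)
  have h3 : (uu 1 : RR ℓ c) ∈ P := by
    have h4 := P.mul_mem_left (con (z - 1)⁻¹) h2
    rwa [← mul_assoc, ← map_mul, inv_mul_cancel₀ hz1, map_one, one_mul] at h4
  have h4 : (uu 1 : RR ℓ c) ^ ℓ ∈ P := Ideal.pow_mem_of_mem P h3 ℓ hℓ.pos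
  rw [uu_pow_ell (one_ne_zero), algebraMap_mem_iff hP h0] at h4
  unfold al be at h4
  simp only [eval_mul, eval_pow, eval_sub, eval_X, eval_C, hval, pow_one] at h4
  have e0 := sub_ne_zero.2 (hx 0)
  have e1 := sub_ne_zero.2 (hx 1)
  have e2 := sub_ne_zero.2 (hx 2)
  exact mul_ne_zero (pow_ne_zero _ e1) (mul_ne_zero e0 e2) h4

private theorem stab_dvd {z : f} (hζ : IsPrimitiveRoot z ℓ) {P I : Ideal (RR ℓ c)}
    (hP : P.IsMaximal) {x0 : f} (h0 : algebraMap f[X] (RR ℓ c) (X - C x0) ∈ P)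
    (hx : ∀ i, x0 ≠ c i) (hI : I.map (rot z hζ.pow_eq_one) = I) (hIP : I ≤ P) :
    Ideal.span {algebraMap f[X] (RR ℓ c) (X - C x0)} ∣ I := by
  classical
  rw [← nI_point hζ hP h0]
  unfold nI
  have hinj : Set.InjOn (fun k : ℕ => P.map (rot z hζ.pow_eq_one ^ k : RR ℓ c ≃+* RR ℓ c))
      (Finset.range ℓ : Finset ℕ) := by
    intro k hk m hm hkm
    have hk' : k < ℓ := Finset.mem_range.1 (Finset.mem_coe.1 hk)
    have hm' : m < ℓ := Finset.mem_range.1 (Finset.mem_coe.1 hm)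
    rcases lt_trichotomy k m with h1 | h1 | h1
    · exact (stab_no_fix hζ hP h0 hx (stab_distinct _ h1 hm' hkm)).elim
    · exact h1
    · exact (stab_no_fix hζ hP h0 hx (stab_distinct _ h1 hk' hkm.symm)).elim
  rw [← Finset.prod_image (f := fun J : Ideal (RR ℓ c) => J) hinj]
  refine Finset.prod_primes_dvd I ?_ ?_
  · intro J hJ
    obtain ⟨k, -, rfl⟩ := Finset.mem_image.1 hJ
    have hPp : P.IsPrime := hP.isPrime
    exact Ideal.prime_of_isPrime (map_ne_bot _ (ne_bot_of_isMaximal hP))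
      (Ideal.map_isPrime_of_equiv _)
  · intro J hJ
    obtain ⟨k, -, rfl⟩ := Finset.mem_image.1 hJ
    rw [Ideal.dvd_iff_le]
    have h1 := stab_map_pow _ hI k
    calc I = I.map (rot z hζ.pow_eq_one ^ k : RR ℓ c ≃+* RR ℓ c) := h1.symm
      _ ≤ P.map (rot z hζ.pow_eq_one ^ k : RR ℓ c ≃+* RR ℓ c) := Ideal.map_mono hIP

private theorem stab_main {z : f} (hζ : IsPrimitiveRoot z ℓ) (I : Ideal (RR ℓ c)) : I ≠ ⊥ →
    I.map (rot z hζ.pow_eq_one) = I →
    ∃ i j : ℕ, cl I = cl (pp c 0 : Ideal (RR ℓ c)) ^ i * cl (pp c 2) ^ j := by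
  refine IsNoetherian.induction (R := RR ℓ c) (M := RR ℓ c) (P := fun I : Ideal (RR ℓ c) => I ≠ ⊥ →
    I.map (rot z hζ.pow_eq_one) = I →
    ∃ i j : ℕ, cl I = cl (pp c 0 : Ideal (RR ℓ c)) ^ i * cl (pp c 2) ^ j) ?_ I
  intro I ih hI hfix
  by_cases hT : I = ⊤
  · refine ⟨0, 0, ?_⟩
    rw [hT, cl_top, pow_zero, pow_zero, one_mul]
  obtain ⟨P, hP, hIP⟩ := Ideal.exists_le_maximal I hT
  obtain ⟨x0, h0⟩ := exists_xc hP
  by_cases hc : ∃ i, x0 = c i
  · obtain ⟨i, rfl⟩ := hc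
    have hPi := eq_pp hP i h0
    rw [hPi] at hIP hP
    obtain ⟨I', h1, h2, h3, h4⟩ := stab_step (rot z hζ.pow_eq_one) hI hfix
      (ne_bot_of_isMaximal hP) hP.ne_top (map_rot_pp z hζ.pow_eq_one i) (Ideal.dvd_iff_le.2 hIP)
    obtain ⟨a, b, hab⟩ := ih I' h1 h2 h3
    rw [hab] at h4
    have hi : i = 0 ∨ i = 1 ∨ i = 2 := by
      fin_cases i <;> simp
    rcases hi with rfl | rfl | rfl
    · exact ⟨a + 1, b, by rw [h4, pow_succ', mul_assoc]⟩
    · refine ⟨a + 1, b + 1, ?_⟩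
      rw [h4, ← cl_pp_rel, pow_succ', pow_succ', mul_mul_mul_comm]
    · exact ⟨a, b + 1, by rw [h4, pow_succ', mul_left_comm]⟩
  · push Not at hc
    have hne : algebraMap f[X] (RR ℓ c) (X - C x0) ≠ 0 := by
      intro h
      rw [← map_zero (algebraMap f[X] (RR ℓ c))] at h
      exact X_sub_C_ne_zero x0 (algebraMap_injective h)
    have hQt : Ideal.span {algebraMap f[X] (RR ℓ c) (X - C x0)} ≠ ⊤ := by
      intro h
      apply hP.ne_top
      rw [eq_top_iff, ← h, Ideal.span_singleton_le_iff_mem]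
      exact h0
    obtain ⟨I', h1, h2, h3, h4⟩ := stab_step (rot z hζ.pow_eq_one) hI hfix
      (Q := Ideal.span {algebraMap f[X] (RR ℓ c) (X - C x0)})
      (by rwa [Ne, Ideal.span_singleton_eq_bot]) hQt
      (by rw [Ideal.map_span, Set.image_singleton, rot_algebraMap])
      (stab_dvd hζ hP h0 hc hfix hIP)
    obtain ⟨a, b, hab⟩ := ih I' h1 h2 h3
    exact ⟨a, b, by rw [h4, cl_span hne, one_mul, hab]⟩

theorem cl_of_stable {z : f} (hζ : IsPrimitiveRoot z ℓ) {I : Ideal (RR ℓ c)} (hI : I ≠ ⊥)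
    (h : I.map (rot z hζ.pow_eq_one) = I) :
    ∃ i j : ℕ, i < ℓ ∧ j < ℓ ∧ cl I = cl (pp c 0) ^ i * cl (pp c 2) ^ j := by
  have hℓ : ℓ.Prime := Fact.out
  obtain ⟨i, j, hij⟩ := stab_main hζ I hI h
  refine ⟨i % ℓ, j % ℓ, Nat.mod_lt _ hℓ.pos, Nat.mod_lt _ hℓ.pos, ?_⟩
  rw [hij, ← pow_eq_pow_mod i (cl_pp_pow 0), ← pow_eq_pow_mod j (cl_pp_pow 2)]

end Pool.Agent.Helper12.SN
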