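import Mathlib

set_option autoImplicit false
set_option linter.unusedSectionVars false

/-!
# SB-N-01 (PROJECT SB, block N): structure constants of the ring `RR` (see Defs.lean)

Fill the two sorries.

`tau_assoc`.  If `i = 0`, `j = 0` or `k = 0` use `tau_zero_left/right`.  Otherwise put `a = i.val`,
`b = j.val`, `n = k.val`, all in `[1, ℓ - 1]`.  `(i + j).val` is `a + b` if `a + b < ℓ` and
`a + b - ℓ` otherwise (`ZMod.val_add`, `Nat.mod_eq_sub_mod`, `Nat.mod_eq_of_lt`), and `i + j = 0`
iff `a + b = ℓ`.  Cases: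
* `a + b < ℓ`, `b + n < ℓ`: both first factors are `al`, both second factors depend in the same way
  on `a + b + n`.
* `a + b < ℓ`, `b + n = ℓ`: `a + b + n > ℓ`: `al * be` and `al * be * 1`.
* `a + b < ℓ`, `b + n > ℓ`: `al * be` and `be * al` (`a + (b + n - ℓ) < ℓ`).
* `a + b = ℓ`: left side `al * be * 1`; right side: `b + n < ℓ`: `al * be`; `b + n = ℓ`:
  `al * be * 1`; `b + n > ℓ`: `be * al` (`a + (b + n - ℓ) = n < ℓ`).
* `a + b > ℓ`: `b + n < ℓ`: `be * al` (`a + b - ℓ + n < ℓ`) and `al * be`; `b + n = ℓ`: `be * al`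
  (`a + b - ℓ + n = a < ℓ`) and `al * be * 1`; `b + n > ℓ`: both first factors are `be`, both second
  factors depend in the same way on `a + b + n - ℓ`.
It may help to first prove a formula for `tau` in terms of natural numbers:
`tau i j = T i.val j.val` with `T a b = if a = 0 ∨ b = 0 then 1 else if a + b < ℓ then al ...`
and `(i + j).val = if a + b < ℓ then a + b else a + b - ℓ`, then `split_ifs` and `omega`/`ring`.

`uval_mul`.  `i = 0` or `j = 0`: trivial.  Otherwise, with `P = x - φ (c 1)`, the left side is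
`P ^ 2 * y ^ (a + b)`.  If `a + b < ℓ`: right side `P * (P * y ^ (a + b))`.  If `a + b = ℓ`
(`i + j = 0`): `P * (P y ^ ℓ) = P * (x - φ (c 0)) * (x - φ (c 2)) * 1`.  If `a + b > ℓ`:
`P * (P y ^ ℓ) y ^ (a + b - ℓ) = (x - φ (c 0)) (x - φ (c 2)) * (P y ^ (a + b - ℓ))`.
-/

open Polynomial

namespace Pool.Agent.Helper12.SN

variable (ℓ : ℕ) {A : Type} [CommRing A]

/-- `x - c 1` -/
noncomputable def al (c : Fin 3 → A) : A[X] := X - C (c 1)

/-- `(x - c 0) (x - c 2)` -/
noncomputable def be (c : Fin 3 → A) : A[X] := (X - C (c 0)) * (X - C (c 2))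

/-- the structure constants: `u_i u_j = tau i j u_(i+j)` -/
noncomputable def tau (c : Fin 3 → A) (i j : ZMod ℓ) : A[X] :=
  if i = 0 ∨ j = 0 then 1
  else if i.val + j.val < ℓ then al c
  else if i.val + j.val = ℓ then al c * be c
  else be c

variable {ℓ} {c : Fin 3 → A}

theorem tau_zero_left (j : ZMod ℓ) : tau ℓ c 0 j = 1 := by simp [tau]

theorem tau_zero_right (i : ZMod ℓ) : tau ℓ c i 0 = 1 := by simp [tau]

theorem tau_comm (i j : ZMod ℓ) : tau ℓ c i j = tau ℓ c j i := by
  unfold tau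
  simp only [or_comm, add_comm i.val]

private theorem val_add_eq [NeZero ℓ] (i j : ZMod ℓ) :
    (i + j).val = if i.val + j.val < ℓ then i.val + j.val else i.val + j.val - ℓ := by
  have hi := ZMod.val_lt i
  have hj := ZMod.val_lt j
  rw [ZMod.val_add]
  split_ifs with h
  · exact Nat.mod_eq_of_lt h
  · rw [Nat.mod_eq_sub_mod (not_lt.1 h), Nat.mod_eq_of_lt (by omega)]

private theorem tau_val (i j : ZMod ℓ) : tau ℓ c i j =
    if i.val = 0 ∨ j.val = 0 then 1
    else if i.val + j.val < ℓ then al c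
    else if i.val + j.val = ℓ then al c * be c
    else be c := by
  unfold tau
  simp only [ZMod.val_eq_zero]

private theorem nat_assoc (x y : A[X]) {a b n : ℕ} (ha : a < ℓ) (hb : b < ℓ) (hn : n < ℓ)
    {s t : ℕ} (hs : s = if a + b < ℓ then a + b else a + b - ℓ)
    (ht : t = if b + n < ℓ then b + n else b + n - ℓ) :
    (if a = 0 ∨ b = 0 then 1 else if a + b < ℓ then x else if a + b = ℓ then x * y else y) *
      (if s = 0 ∨ n = 0 then 1 else if s + n < ℓ then x else if s + n = ℓ then x * y else y) =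
    (if b = 0 ∨ n = 0 then 1 else if b + n < ℓ then x else if b + n = ℓ then x * y else y) *
      (if a = 0 ∨ t = 0 then 1 else if a + t < ℓ then x else if a + t = ℓ then x * y else y) := by
  rcases Nat.eq_zero_or_pos a with ha0 | ha0
  · have hs' : s = b := by
      rw [hs, if_pos (by omega)]
      omega
    rw [if_pos (Or.inl ha0), hs', if_pos (Or.inl ha0)]
    ring
  rcases Nat.eq_zero_or_pos b with hb0 | hb0
  · have hs' : s = a := by
      rw [hs, if_pos (by omega)]
      omega
    have ht' : t = n := by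
      rw [ht, if_pos (by omega)]
      omega
    rw [if_pos (Or.inr hb0), hs', if_pos (Or.inl hb0), ht']
  rcases Nat.eq_zero_or_pos n with hn0 | hn0
  · have ht' : t = b := by
      rw [ht, if_pos (by omega)]
      omega
    rw [if_pos (Or.inr hn0 : s = 0 ∨ n = 0), ht', if_pos (Or.inr hn0 : b = 0 ∨ n = 0)]
    ring
  rw [if_neg (by omega : ¬ (a = 0 ∨ b = 0)), if_neg (by omega : ¬ (b = 0 ∨ n = 0))]
  rcases lt_trichotomy (a + b) ℓ with h1 | h1 | h1
  · have hs' : s = a + b := by rw [hs, if_pos h1]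
    rw [if_pos h1, if_neg (by omega : ¬ (s = 0 ∨ n = 0))]
    rcases lt_trichotomy (b + n) ℓ with h2 | h2 | h2
    · have ht' : t = b + n := by rw [ht, if_pos h2]
      rw [if_pos h2, if_neg (by omega : ¬ (a = 0 ∨ t = 0)), hs', ht', ← add_assoc]
    · have ht' : t = 0 := by
        rw [ht, if_neg (by omega)]
        omega
      rw [if_neg (by omega : ¬ b + n < ℓ), if_pos h2, if_pos (Or.inr ht' : a = 0 ∨ t = 0),
        if_neg (by omega : ¬ s + n < ℓ), if_neg (by omega : ¬ s + n = ℓ)]
      ring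
    · have ht' : t = b + n - ℓ := by rw [ht, if_neg (by omega)]
      rw [if_neg (by omega : ¬ b + n < ℓ), if_neg (by omega : ¬ b + n = ℓ),
        if_neg (by omega : ¬ (a = 0 ∨ t = 0)), if_pos (by omega : a + t < ℓ),
        if_neg (by omega : ¬ s + n < ℓ), if_neg (by omega : ¬ s + n = ℓ)]
      ring
  · have hs' : s = 0 := by
      rw [hs, if_neg (by omega)]
      omega
    rw [if_neg (by omega : ¬ a + b < ℓ), if_pos h1, if_pos (Or.inl hs' : s = 0 ∨ n = 0)]
    rcases lt_trichotomy (b + n) ℓ with h2 | h2 | h2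
    · have ht' : t = b + n := by rw [ht, if_pos h2]
      rw [if_pos h2, if_neg (by omega : ¬ (a = 0 ∨ t = 0)), if_neg (by omega : ¬ a + t < ℓ),
        if_neg (by omega : ¬ a + t = ℓ)]
      ring
    · have ht' : t = 0 := by
        rw [ht, if_neg (by omega)]
        omega
      rw [if_neg (by omega : ¬ b + n < ℓ), if_pos h2, if_pos (Or.inr ht' : a = 0 ∨ t = 0)]
    · have ht' : t = b + n - ℓ := by rw [ht, if_neg (by omega)]
      rw [if_neg (by omega : ¬ b + n < ℓ), if_neg (by omega : ¬ b + n = ℓ),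
        if_neg (by omega : ¬ (a = 0 ∨ t = 0)), if_pos (by omega : a + t < ℓ)]
      ring
  · have hs' : s = a + b - ℓ := by rw [hs, if_neg (by omega)]
    rw [if_neg (by omega : ¬ a + b < ℓ), if_neg (by omega : ¬ a + b = ℓ),
      if_neg (by omega : ¬ (s = 0 ∨ n = 0))]
    rcases lt_trichotomy (b + n) ℓ with h2 | h2 | h2
    · have ht' : t = b + n := by rw [ht, if_pos h2]
      rw [if_pos h2, if_pos (by omega : s + n < ℓ), if_neg (by omega : ¬ (a = 0 ∨ t = 0)),
        if_neg (by omega : ¬ a + t < ℓ), if_neg (by omega : ¬ a + t = ℓ)]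
      ring
    · have ht' : t = 0 := by
        rw [ht, if_neg (by omega)]
        omega
      rw [if_neg (by omega : ¬ b + n < ℓ), if_pos h2, if_pos (Or.inr ht' : a = 0 ∨ t = 0),
        if_pos (by omega : s + n < ℓ)]
      ring
    · have ht' : t = b + n - ℓ := by rw [ht, if_neg (by omega)]
      have h3 : s + n = a + t := by omega
      rw [if_neg (by omega : ¬ b + n < ℓ), if_neg (by omega : ¬ b + n = ℓ),
        if_neg (by omega : ¬ (a = 0 ∨ t = 0)), h3]

theorem tau_assoc [NeZero ℓ] (i j k : ZMod ℓ) :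
    tau ℓ c i j * tau ℓ c (i + j) k = tau ℓ c j k * tau ℓ c i (j + k) := by
  rw [tau_val, tau_val, tau_val, tau_val]
  exact nat_assoc (al c) (be c) (ZMod.val_lt i) (ZMod.val_lt j) (ZMod.val_lt k)
    (val_add_eq i j) (val_add_eq j k)

theorem pow_val_add [NeZero ℓ] {z : A} (hz : z ^ ℓ = 1) (i j : ZMod ℓ) :
    z ^ (i + j).val = z ^ i.val * z ^ j.val := by
  rw [ZMod.val_add, ← pow_add]
  conv_rhs => rw [← Nat.mod_add_div (i.val + j.val) ℓ, pow_add, pow_mul, hz, one_pow, mul_one]

variable {B : Type} [CommRing B]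

/-- the value of `u_j` at the point `(x, y)` -/
def uval (φ : A →+* B) (c : Fin 3 → A) (x y : B) (j : ZMod ℓ) : B :=
  if j = 0 then 1 else (x - φ (c 1)) * y ^ j.val

theorem uval_mul [NeZero ℓ] (φ : A →+* B) (x y : B)
    (h : y ^ ℓ * (x - φ (c 1)) = (x - φ (c 0)) * (x - φ (c 2))) (i j : ZMod ℓ) :
    uval φ c x y i * uval φ c x y j = (tau ℓ c i j).eval₂ φ x * uval φ c x y (i + j) := by
  have hi := ZMod.val_lt i
  have hj := ZMod.val_lt j
  by_cases hi0 : i = 0
  · subst hi0
    rw [tau_zero_left, zero_add, eval₂_one]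
    simp [uval]
  by_cases hj0 : j = 0
  · subst hj0
    rw [tau_zero_right, add_zero, eval₂_one]
    simp [uval]
  have hi0' : i.val ≠ 0 := fun h => hi0 ((ZMod.val_eq_zero i).1 h)
  have hj0' : j.val ≠ 0 := fun h => hj0 ((ZMod.val_eq_zero j).1 h)
  have hal : (al c).eval₂ φ x = x - φ (c 1) := by simp [al]
  have hbe : (be c).eval₂ φ x = (x - φ (c 0)) * (x - φ (c 2)) := by
    unfold be
    rw [eval₂_mul]
    simp
  have hu : ∀ k : ZMod ℓ, k ≠ 0 → uval φ c x y k = (x - φ (c 1)) * y ^ k.val := fun k hk => by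
    unfold uval
    rw [if_neg hk]
  rw [hu i hi0, hu j hj0]
  have hz : i + j = 0 ↔ i.val + j.val = ℓ := by
    rw [← ZMod.val_eq_zero, val_add_eq]
    split_ifs with h
    · omega
    · omega
  rw [tau_val, if_neg (by omega : ¬ (i.val = 0 ∨ j.val = 0))]
  rcases lt_trichotomy (i.val + j.val) ℓ with h1 | h1 | h1
  · have hne : i + j ≠ 0 := fun h2 => by
      have := hz.1 h2
      omega
    rw [if_pos h1, hal, hu _ hne, val_add_eq, if_pos h1, pow_add]
    ring
  · have he : i + j = 0 := hz.2 h1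
    have h2 : uval φ c x y (i + j) = 1 := by
      rw [he]
      simp [uval]
    rw [if_neg (by omega), if_pos h1, eval₂_mul, hal, hbe, h2, ← h]
    have h3 : y ^ ℓ = y ^ i.val * y ^ j.val := by
      rw [← pow_add]
      exact congrArg (fun k => y ^ k) h1.symm
    rw [h3]
    ring
  · have hne : i + j ≠ 0 := fun h2 => by
      have := hz.1 h2
      omega
    rw [if_neg (by omega), if_neg (by omega), hbe, hu _ hne, val_add_eq, if_neg (by omega), ← h]
    have h3 : y ^ i.val * y ^ j.val = y ^ ℓ * y ^ (i.val + j.val - ℓ) := by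
      rw [← pow_add, ← pow_add]
      congr 1
      omega
    linear_combination (x - φ (c 1)) ^ 2 * h3

end Pool.Agent.Helper12.SN
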