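import Pool.Agent.Helper12.SN.Cls

set_option autoImplicit false
set_option linter.unusedSectionVars false

/-!
# SB-N-24: the relation `J = h I` for ideals of a Dedekind domain, `h` in the fraction field

All in the commutative ring of fractional ideals `FractionalIdeal R⁰ E`:
`spanSingleton 1 = 1`, `spanSingleton_mul_spanSingleton`, `FractionalIdeal.coeIdeal_mul`,
`coeIdeal_pow`, `coeIdeal_span_singleton`, `coeIdeal_injective`/`coeIdeal_inj`.
`tw_iff`: multiply `J = spanSingleton (b / a) * I` by the invertible `spanSingleton a`: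
equivalent to `spanSingleton a * J = spanSingleton b * I`, which is the image of
`span {a} * J = span {b} * I` under the injective `coeIdeal`.
`tw_ne`: if `h = 0` then `(J : FractionalIdeal) = 0`, so `J = ⊥` (`coeIdeal_eq_zero`).
-/

open scoped nonZeroDivisors

namespace Pool.Agent.Helper12.SN

variable {R : Type} [CommRing R] [IsDedekindDomain R] {E : Type} [Field E] [Algebra R E]
  [IsFractionRing R E]

/-- `J = h I` as fractional ideals -/
def Tw (I J : Ideal R) (h : E) : Prop :=
  (J : FractionalIdeal R⁰ E) = FractionalIdeal.spanSingleton R⁰ h * (I : FractionalIdeal R⁰ E)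

theorem tw_refl (I : Ideal R) : Tw I I (1 : E) := by
  unfold Tw
  rw [FractionalIdeal.spanSingleton_one, one_mul]

theorem tw_trans {I J K : Ideal R} {h h' : E} (h1 : Tw I J h) (h2 : Tw J K h') :
    Tw I K (h * h') := by
  unfold Tw at *
  rw [h2, h1, ← mul_assoc, FractionalIdeal.spanSingleton_mul_spanSingleton, mul_comm h' h]

theorem tw_mul {I J I' J' : Ideal R} {h h' : E} (h1 : Tw I J h) (h2 : Tw I' J' h') :
    Tw (I * I') (J * J') (h * h') := by
  unfold Tw at *
  rw [FractionalIdeal.coeIdeal_mul, FractionalIdeal.coeIdeal_mul, h1, h2,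
    ← FractionalIdeal.spanSingleton_mul_spanSingleton]
  ring

theorem tw_pow {I J : Ideal R} {h : E} (h1 : Tw I J h) (n : ℕ) :
    Tw (I ^ n) (J ^ n) (h ^ n) := by
  induction n with
  | zero =>
    rw [pow_zero, pow_zero, pow_zero]
    exact tw_refl 1
  | succ n ih =>
    rw [pow_succ, pow_succ, pow_succ]
    exact tw_mul ih h1

theorem tw_iff (I J : Ideal R) (a b : R) (ha : a ≠ 0) :
    Tw I J (algebraMap R E b / algebraMap R E a) ↔
      Ideal.span {a} * J = Ideal.span {b} * I := by
  have ha' : algebraMap R E a ≠ 0 := by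
    rw [ne_eq, IsFractionRing.to_map_eq_zero_iff]
    exact ha
  have h3 : (Ideal.span {a} * J = Ideal.span {b} * I) ↔
      FractionalIdeal.spanSingleton R⁰ (algebraMap R E a) * (J : FractionalIdeal R⁰ E) =
        FractionalIdeal.spanSingleton R⁰ (algebraMap R E b) * (I : FractionalIdeal R⁰ E) := by
    rw [← FractionalIdeal.coeIdeal_span_singleton, ← FractionalIdeal.coeIdeal_span_singleton,
      ← FractionalIdeal.coeIdeal_mul, ← FractionalIdeal.coeIdeal_mul, FractionalIdeal.coeIdeal_inj]
  rw [h3]
  unfold Tw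
  constructor
  · intro h
    rw [h, ← mul_assoc, FractionalIdeal.spanSingleton_mul_spanSingleton, mul_div_cancel₀ _ ha']
  · intro h
    have h4 := congrArg (fun z => FractionalIdeal.spanSingleton R⁰ (algebraMap R E a)⁻¹ * z) h
    simp only [← mul_assoc, FractionalIdeal.spanSingleton_mul_spanSingleton] at h4
    rw [inv_mul_cancel₀ ha', FractionalIdeal.spanSingleton_one, one_mul] at h4
    rw [h4, div_eq_mul_inv, mul_comm (algebraMap R E b)]

theorem tw_span (I : Ideal R) (a : R) : Tw I (Ideal.span {a} * I) (algebraMap R E a) := by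
  unfold Tw
  rw [FractionalIdeal.coeIdeal_mul, FractionalIdeal.coeIdeal_span_singleton]

theorem tw_symm {I J : Ideal R} {h : E} (hh : h ≠ 0) (h1 : Tw I J h) : Tw J I h⁻¹ := by
  unfold Tw at *
  rw [h1, ← mul_assoc, FractionalIdeal.spanSingleton_mul_spanSingleton, inv_mul_cancel₀ hh,
    FractionalIdeal.spanSingleton_one, one_mul]

theorem tw_ne {I J : Ideal R} {h : E} (hJ : J ≠ ⊥) (h1 : Tw I J h) : h ≠ 0 := by
  rintro rfl
  unfold Tw at h1
  rw [FractionalIdeal.spanSingleton_zero, zero_mul, FractionalIdeal.coeIdeal_eq_zero] at h1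
  exact hJ h1

end Pool.Agent.Helper12.SN
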